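import Pool.Agent.H4.FD.FinalP
import Pool.Agent.H4.FD.Stmt
import Pool.Agent.H4.HY.LabDual
import Pool.Agent.H4.HY.LabStmt
import Pool.Agent.H4.HY.SphSurj
import Pool.Agent.H85.Fold4.Nice
import Pool.Agent.H78.VN.Tree
import Pool.Agent.H19.LG.Racg

/-!
# Project LI: the links
-/

set_option autoImplicit false

namespace Pool.Agent.H19.LI

open Pool.Agent.H4.FC Pool.Agent.H4.FD Pool.Agent.H4.HY Pool.Agent.H85.Fold4 Pool.Agent.H78.VN
open Pool.Agent.H19.LG

/-- The right-angled Coxeter groups over full subcomplexes of folded spheres and of order complexes. -/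
theorem link_l2 {V W : Type} [DecidableEq V] [Fintype V] [DecidableEq W] [Fintype W]
    (L : SimpleGraph V) (n : ℕ) (H : SimpleGraph W) (hH : FoldedSphere H n ∨ OrderComplex H n)
    (φ : V → W) (hφ : Function.Injective φ) (hadj : ∀ u v, L.Adj u v ↔ H.Adj (φ u) (φ v)) (i : ℕ)
    (hi : n < 2 * i ∨ (HomologySphere L n ∧ 2 * i ≠ n)) :
    Pool.Agent.H4.Singer.L2HomologyZero L i := by
  rw [l2_racg]
  have hadj' : ∀ u v, (gr (Pool.Agent.H4.Singer.racg L)).Adj u v ↔ H.Adj (φ u) (φ v) :=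
    fun u v => (gr_adj L u v).trans (hadj u v)
  have hi' : n < 2 * i ∨ (HomologySphere (gr (Pool.Agent.H4.Singer.racg L)) n ∧ 2 * i ≠ n) := by
    rw [gr_racg]
    exact hi
  rcases hH with hH | ⟨hW, rk, hrk, hR, hH⟩
  · exact mainP _ (fc_racg L) n H hH.isFoldSphere φ hφ hadj' i
      (hi'.imp_right fun h => ⟨sphere_surj h.1.is hH.isFoldSphere.1 ⟨φ, hφ⟩ hadj', h.2⟩)
  · exact lab_ranked _ (fc_racg L) rk hrk n hR φ hφ (fun u v => (hadj' u v).trans (hH (φ u) (φ v)))
      i (hi'.imp_right fun h => ⟨h.1.is, h.2⟩)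

/-- `H` is the graph of the nested complex of a connected flag building set on `n + 1` points. -/
def NestedComplex {W : Type} (H : SimpleGraph W) (n : ℕ) : Prop :=
  ∃ B : Finset (Finset (Fin (n + 1))), IsFB B ∧ Nonempty (H ≃g nestG B)

/-- The right-angled Coxeter groups over full subcomplexes of nested complexes. -/
theorem link_nest {V W : Type} [DecidableEq V] [Fintype V] (L : SimpleGraph V) (n : ℕ)
    (H : SimpleGraph W) (hH : NestedComplex H n) (φ : V → W) (hφ : Function.Injective φ)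
    (hadj : ∀ u v, L.Adj u v ↔ H.Adj (φ u) (φ v)) (i : ℕ)
    (hi : n < 2 * i ∨ (HomologySphere L n ∧ 2 * i ≠ n)) :
    Pool.Agent.H4.Singer.L2HomologyZero L i := by
  classical
  obtain ⟨B, hB, ⟨e⟩⟩ := hH
  obtain ⟨W', H', hW', hH', ⟨e'⟩⟩ := hB.subArr
  have : Fintype W' := Fintype.ofFinite W'
  rw [Fintype.card_fin, Nat.add_sub_cancel] at hH'
  refine link_l2 L n H' (Or.inl (Or.inl hH')) (fun v => e' (e (φ v)))
    (fun u v h => hφ (e.injective (e'.injective h))) (fun u v => ?_) i hi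
  rw [e'.map_adj_iff, e.map_adj_iff]
  exact hadj u v

end Pool.Agent.H19.LI
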