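import Pool.Agent.H19.LI.Ops

/-!
# Project LI: the dimension data of the index set `Jx C × G`, group `Γ × G`

`(γ, u)` acts by `((σ, x), g) ↦ ((γ σ, γ x), u g (j γ)⁻¹)`, with the sign `sgi ν γ σ`.
-/

set_option autoImplicit false

open Finset
open scoped Pointwise

namespace Pool.Agent.H19.LI

open Pool.Agent.H19.Cub Pool.Agent.H4.Singer

variable {V X : Type} [DecidableEq V] {C : CubeComplex V X} {Γ G : Type} [Group Γ]
  [MulAction Γ V] [MulAction Γ X] [Group G]

theorem smul_sub (hΓ : IsGeom Γ C) (g : Γ) {σ : Finset V} {x : X} (h : σ ⊆ C.lab x) :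
    g • σ ⊆ C.lab (g • x) := by
  intro v hv
  obtain ⟨u, hu, rfl⟩ := Finset.mem_smul_finset.1 hv
  exact (hΓ.lab g u x).2 (h hu)

/-- the action on `Jx C` -/
def permJ (hΓ : IsGeom Γ C) : Γ →* Equiv.Perm (Jx C) where
  toFun g :=
    { toFun := fun p => ⟨(g • p.1.1, g • p.1.2), smul_sub hΓ g p.2⟩
      invFun := fun p => ⟨(g⁻¹ • p.1.1, g⁻¹ • p.1.2), smul_sub hΓ g⁻¹ p.2⟩
      left_inv := fun p => by
        apply Subtype.ext
        show (g⁻¹ • g • p.1.1, g⁻¹ • g • p.1.2) = p.1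
        rw [inv_smul_smul, inv_smul_smul]
      right_inv := fun p => by
        apply Subtype.ext
        show (g • g⁻¹ • p.1.1, g • g⁻¹ • p.1.2) = p.1
        rw [smul_inv_smul, smul_inv_smul] }
  map_one' := by
    ext p : 2
    show ((1 : Γ) • p.1.1, (1 : Γ) • p.1.2) = p.1
    rw [one_smul, one_smul]
  map_mul' g h := by
    ext p : 2
    show ((g * h) • p.1.1, (g * h) • p.1.2) = (g • h • p.1.1, g • h • p.1.2)
    rw [mul_smul, mul_smul]

/-- the action on `Jx C × G` -/
def actG (D : GD C Γ G) (hΓ : IsGeom Γ C) : Γ × G →* Equiv.Perm (Jx C × G) where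
  toFun q :=
    { toFun := fun p => (permJ hΓ q.1 p.1, q.2 * p.2 * (D.j q.1)⁻¹)
      invFun := fun p => ((permJ hΓ q.1).symm p.1, q.2⁻¹ * p.2 * D.j q.1)
      left_inv := fun p => by
        refine Prod.ext ((permJ hΓ q.1).symm_apply_apply p.1) ?_
        show q.2⁻¹ * (q.2 * p.2 * (D.j q.1)⁻¹) * D.j q.1 = p.2
        group
      right_inv := fun p => by
        refine Prod.ext ((permJ hΓ q.1).apply_symm_apply p.1) ?_
        show q.2 * (q.2⁻¹ * p.2 * D.j q.1) * (D.j q.1)⁻¹ = p.2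
        group }
  map_one' := by
    refine Equiv.ext fun p => Prod.ext ?_ ?_
    · show permJ hΓ 1 p.1 = p.1
      rw [map_one]
      rfl
    · show 1 * p.2 * (D.j 1)⁻¹ = p.2
      rw [map_one, inv_one, one_mul, mul_one]
  map_mul' q r := by
    refine Equiv.ext fun p => Prod.ext ?_ ?_
    · show permJ hΓ (q.1 * r.1) p.1 = permJ hΓ q.1 (permJ hΓ r.1 p.1)
      rw [map_mul]
      rfl
    · show q.2 * r.2 * p.2 * (D.j (q.1 * r.1))⁻¹ = q.2 * (r.2 * p.2 * (D.j r.1)⁻¹) * (D.j q.1)⁻¹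
      rw [map_mul]
      group

open Classical in
/-- the cutoff function -/
noncomputable def cI (C : CubeComplex V X) (G : Type) [Group G] (K : Cut Γ X) (p : Jx C × G) : ℝ :=
  if p.2 = 1 then K.c p.1.1.2 else 0

theorem fin_cI (C : CubeComplex V X) (G : Type) [Group G] (K : Cut Γ X) :
    {p : Jx C × G | cI C G K p ≠ 0}.Finite := by
  classical
  have key : ∀ p : Jx C × G, cI C G K p ≠ 0 → p.2 = 1 ∧ K.c p.1.1.2 ≠ 0 := by
    intro p hp
    unfold cI at hp
    split_ifs at hp with h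
    · exact ⟨h, hp⟩
    · exact absurd rfl hp
  refine Set.Finite.of_injOn (f := fun p : Jx C × G => p.1.1)
    (t := (↑(K.F.biUnion fun x => (C.lab x).powerset ×ˢ {x}) : Set (Finset V × X))) ?_ ?_
    (Finset.finite_toSet _)
  · intro p hp
    obtain ⟨-, h2⟩ := key p hp
    have hF : p.1.1.2 ∈ K.F := by
      by_contra h
      exact h2 (K.supp _ h)
    rw [Finset.mem_coe, Finset.mem_biUnion]
    refine ⟨p.1.1.2, hF, ?_⟩
    rw [Finset.mem_product, Finset.mem_powerset, Finset.mem_singleton]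
    exact ⟨p.1.2, rfl⟩
  · intro p hp q hq h
    exact Prod.ext (Subtype.ext h) ((key p hp).1.trans (key q hq).1.symm)

theorem sum_cI (D : GD C Γ G) (hΓ : IsGeom Γ C) (K : Cut Γ X) (p : Jx C × G) :
    HasSum (fun q : Γ × G => cI C G K (actG D hΓ q p)) 1 := by
  classical
  have hinj : Function.Injective fun γ : Γ => ((γ, D.j γ * p.2⁻¹) : Γ × G) := fun a b h =>
    congrArg Prod.fst h
  have hval : ∀ q : Γ × G, cI C G K (actG D hΓ q p) =
      if q.2 * p.2 * (D.j q.1)⁻¹ = 1 then K.c (q.1 • p.1.1.2) else 0 := fun q => rfl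
  rw [← Function.Injective.hasSum_iff hinj]
  · have he : ((fun q : Γ × G => cI C G K (actG D hΓ q p)) ∘ fun γ : Γ =>
        ((γ, D.j γ * p.2⁻¹) : Γ × G)) = fun γ : Γ => K.c (γ • p.1.1.2) := by
      funext γ
      rw [Function.comp_apply, hval, if_pos]
      show D.j γ * p.2⁻¹ * p.2 * (D.j γ)⁻¹ = 1
      rw [inv_mul_cancel_right, mul_inv_cancel]
    rw [he]
    exact K.sum p.1.1.2
  · intro q hq
    rw [hval, if_neg]
    intro h
    refine hq ⟨q.1, Prod.ext rfl ?_⟩
    show D.j q.1 * p.2⁻¹ = q.2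
    rw [mul_inv_eq_one] at h
    rw [← h, mul_inv_cancel_right]

/-- the dimension data -/
noncomputable def dimD (D : GD C Γ G) (hΓ : IsGeom Γ C) (K : Cut Γ X) (ν : V → ℕ) :
    Dm (Γ × G) (Jx C × G) where
  a := actG D hΓ
  F := (fin_cI C G K).toFinset
  c := cI C G K
  nonneg p := by
    unfold cI
    split_ifs
    · exact K.nonneg _
    · exact le_rfl
  supp p hp := by
    by_contra h
    exact hp ((fin_cI C G K).mem_toFinset.2 h)
  sum := sum_cI D hΓ K
  sg q p := sgi ν q.1 p.1.1.1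
  sg_sq q p := by
    unfold sgi
    rw [← mul_pow, neg_one_mul, neg_neg, one_pow]

theorem fin_orb (hΓ : IsGeom Γ C) (F : Finset X) (x : X) : {g : Γ | g • x ∈ F}.Finite := by
  classical
  have h1 : {g : Γ | g • x ∈ F} = ⋃ y ∈ (F : Set X), {g : Γ | g • x = y} := by
    ext g
    simp only [Set.mem_ofPred_eq, Set.mem_iUnion, Finset.mem_coe, exists_prop, exists_eq_right']
  rw [h1]
  refine F.finite_toSet.biUnion fun y _ => ?_
  by_cases h : ∃ g0 : Γ, g0 • x = y
  · obtain ⟨g0, hg0⟩ := h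
    refine Set.Finite.of_injOn (f := fun g : Γ => g0⁻¹ * g) (t := {g : Γ | g • x = x}) ?_ ?_
      (hΓ.proper x)
    · intro g hg
      show (g0⁻¹ * g) • x = x
      have hg' : g • x = y := hg
      rw [mul_smul, hg', ← hg0, inv_smul_smul]
    · intro g _ g' _ hh
      exact mul_left_cancel hh
  · have h2 : {g : Γ | g • x = y} = ∅ := by
      ext g
      simp only [Set.mem_ofPred_eq, Set.mem_empty_iff_false, iff_false]
      exact fun hg => h ⟨g, hg⟩
    rw [h2]
    exact Set.finite_empty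

theorem ncard_orb (F : Finset X) (h : Γ) (x : X) :
    Set.ncard {g : Γ | g • h • x ∈ F} = Set.ncard {g : Γ | g • x ∈ F} := by
  have h1 : {g : Γ | g • x ∈ F} = (fun g => g * h) '' {g : Γ | g • h • x ∈ F} := by
    ext g
    constructor
    · intro hg
      refine ⟨g * h⁻¹, ?_, inv_mul_cancel_right g h⟩
      show (g * h⁻¹) • h • x ∈ F
      rw [smul_smul, inv_mul_cancel_right]
      exact hg
    · rintro ⟨g', hg', rfl⟩
      show (g' * h) • x ∈ F
      rw [mul_smul]
      exact hg'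
  rw [h1, Set.ncard_image_of_injective _ (mul_left_injective h)]

/-- cutoff functions exist: if `F` meets all orbits put `c x = 1 / #{g | g x ∈ F}` for `x ∈ F` -/
theorem exists_cut (hΓ : IsGeom Γ C) : Nonempty (Cut Γ X) := by
  classical
  obtain ⟨F, hF⟩ := hΓ.cocompact
  let N : X → ℝ := fun x => (Set.ncard {g : Γ | g • x ∈ F} : ℝ)
  have hN : ∀ (h : Γ) x, N (h • x) = N x := fun h x => by
    show ((Set.ncard {g : Γ | g • h • x ∈ F} : ℕ) : ℝ) = _
    rw [ncard_orb]
  have hpos : ∀ x, N x ≠ 0 := fun x => by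
    obtain ⟨g, hg⟩ := hF x
    have h1 : Set.ncard {g : Γ | g • x ∈ F} ≠ 0 := by
      rw [Ne, Set.ncard_eq_zero (fin_orb hΓ F x)]
      exact fun h => Set.notMem_empty g (h ▸ hg)
    exact Nat.cast_ne_zero.2 h1
  refine ⟨{ F := F, c := fun x => if x ∈ F then (N x)⁻¹ else 0, nonneg := ?_, supp := ?_,
            sum := ?_ }⟩
  · intro x
    split_ifs
    · exact inv_nonneg.2 (Nat.cast_nonneg _)
    · exact le_rfl
  · intro x hx
    exact if_neg hx
  · intro x
    have h2 : HasSum (fun g : Γ => if g • x ∈ F then (N (g • x))⁻¹ else 0)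
        (∑ g ∈ (fin_orb hΓ F x).toFinset, if g • x ∈ F then (N (g • x))⁻¹ else 0) :=
      hasSum_sum_of_ne_finset_zero fun g hg => by
        rw [if_neg]
        intro h
        exact hg ((fin_orb hΓ F x).mem_toFinset.2 h)
    have h3 : (∑ g ∈ (fin_orb hΓ F x).toFinset, if g • x ∈ F then (N (g • x))⁻¹ else 0) =
        (1 : ℝ) := by
      rw [Finset.sum_congr rfl (g := fun _ => (N x)⁻¹), Finset.sum_const, nsmul_eq_mul,
        ← Set.ncard_eq_toFinset_card _ (fin_orb hΓ F x)]
      · exact mul_inv_cancel₀ (hpos x)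
      · intro g hg
        have hg' : g • x ∈ F := (fin_orb hΓ F x).mem_toFinset.1 hg
        rw [if_pos hg', hN]
    rw [h3] at h2
    exact h2

theorem exists_card (hΓ : IsGeom Γ C) : ∃ N, ∀ x, (C.lab x).card ≤ N := by
  classical
  obtain ⟨F, hF⟩ := hΓ.cocompact
  refine ⟨F.sup fun x => (C.lab x).card, fun x => ?_⟩
  obtain ⟨g, hg⟩ := hF x
  have h1 : C.lab (g • x) = g • C.lab x := by
    ext v
    rw [Finset.mem_smul_finset]
    constructor
    · intro hv
      refine ⟨g⁻¹ • v, ?_, smul_inv_smul g v⟩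
      rw [← hΓ.lab g, smul_inv_smul]
      exact hv
    · rintro ⟨u, hu, rfl⟩
      exact (hΓ.lab g u x).2 hu
  have h2 : (C.lab x).card = (C.lab (g • x)).card := by
    rw [h1, Finset.card_smul_finset]
  rw [h2]
  exact Finset.le_sup (f := fun x => (C.lab x).card) hg

end Pool.Agent.H19.LI
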