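import Pool.Agent.H19.LI.Ops

/-!
# Project LI: the boundary operator

`(∑_{v ∈ lab x \ τ} |f (τ ∪ v, x, k)|) ^ 2 ≤ N ∑_v |f (τ ∪ v, x, k)| ^ 2`, and every `(σ, x, k)` is of the form
`(τ ∪ v, x, k)` for at most `|σ| ≤ N` sets `τ`: the norm is at most `N`.
-/

set_option autoImplicit false

open Finset

namespace Pool.Agent.H19.LI

open Pool.Agent.H19.Cub

variable {V X : Type} [DecidableEq V]

/-- the formula of the boundary -/
noncomputable def liBdF {C : CubeComplex V X} {κ : Type} (ν : V → ℕ) (f : L2 (Jx C × κ))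
    (s : Jx C × κ) : ℂ :=
  ∑ v ∈ C.lab s.1.1.2 \ s.1.1.1, (sv ν v s.1.1.1 : ℂ) * ev f (insert v s.1.1.1) s.1.1.2 s.2

theorem liBd_sv (ν : V → ℕ) (v : V) (τ : Finset V) : sv ν v τ * sv ν v τ = 1 := by
  unfold sv
  rw [← mul_pow]
  norm_num

theorem liBd_point {C : CubeComplex V X} {κ : Type} (ν : V → ℕ) (N : ℕ)
    (hN : ∀ x, (C.lab x).card ≤ N) (f : L2 (Jx C × κ)) (s : Jx C × κ) :
    ‖liBdF ν f s‖ ^ 2 ≤
      N * ∑ v ∈ C.lab s.1.1.2 \ s.1.1.1, ‖ev f (insert v s.1.1.1) s.1.1.2 s.2‖ ^ 2 := by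
  have h1 : ‖liBdF ν f s‖ ≤
      ∑ v ∈ C.lab s.1.1.2 \ s.1.1.1, ‖ev f (insert v s.1.1.1) s.1.1.2 s.2‖ := by
    refine (norm_sum_le _ _).trans (le_of_eq (Finset.sum_congr rfl fun v _ => ?_))
    rw [norm_mul, norm_sgn (liBd_sv ν v _), one_mul]
  calc ‖liBdF ν f s‖ ^ 2
      ≤ (∑ v ∈ C.lab s.1.1.2 \ s.1.1.1, ‖ev f (insert v s.1.1.1) s.1.1.2 s.2‖) ^ 2 :=
        pow_le_pow_left₀ (norm_nonneg _) h1 2
    _ ≤ ((C.lab s.1.1.2 \ s.1.1.1).card : ℝ) *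
        ∑ v ∈ C.lab s.1.1.2 \ s.1.1.1, ‖ev f (insert v s.1.1.1) s.1.1.2 s.2‖ ^ 2 :=
        sq_sum_le_card_mul_sum_sq
    _ ≤ _ := by
        refine mul_le_mul_of_nonneg_right ?_ (Finset.sum_nonneg fun _ _ => by positivity)
        exact_mod_cast (Finset.card_le_card Finset.sdiff_subset).trans (hN _)

open Classical in
/-- the map of the double counting -/
noncomputable def liBdPhi {C : CubeComplex V X} {κ : Type} (p : Σ _ : Jx C × κ, V) :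
    Σ _ : Jx C × κ, V :=
  ⟨if h : insert p.2 p.1.1.1.1 ⊆ C.lab p.1.1.1.2 then
    (⟨(insert p.2 p.1.1.1.1, p.1.1.1.2), h⟩, p.1.2) else p.1, p.2⟩

theorem liBdPhi_eq {C : CubeComplex V X} {κ : Type} (p : Σ _ : Jx C × κ, V)
    (h : insert p.2 p.1.1.1.1 ⊆ C.lab p.1.1.1.2) :
    liBdPhi p = ⟨(⟨(insert p.2 p.1.1.1.1, p.1.1.1.2), h⟩, p.1.2), p.2⟩ := by
  unfold liBdPhi
  rw [dif_pos h]

theorem liBd_sum {C : CubeComplex V X} {κ : Type} (ν : V → ℕ) (N : ℕ)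
    (hN : ∀ x, (C.lab x).card ≤ N) (f : L2 (Jx C × κ)) (S : Finset (Jx C × κ)) :
    ∑ s ∈ S, ‖liBdF ν f s‖ ^ 2 ≤ (N * ‖f‖) ^ 2 := by
  classical
  set P : Finset (Σ _ : Jx C × κ, V) := S.sigma fun s => C.lab s.1.1.2 \ s.1.1.1 with hP
  have hsub : ∀ p ∈ P, insert p.2 p.1.1.1.1 ⊆ C.lab p.1.1.1.2 := by
    intro p hp
    rw [hP, Finset.mem_sigma, Finset.mem_sdiff] at hp
    exact Finset.insert_subset hp.2.1 p.1.1.2
  have hinj : Set.InjOn (liBdPhi (C := C) (κ := κ)) (P : Set (Σ _ : Jx C × κ, V)) := by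
    rintro ⟨⟨⟨⟨τ, x⟩, h⟩, k⟩, v⟩ hp ⟨⟨⟨⟨τ', x'⟩, h'⟩, k'⟩, v'⟩ hp' he
    have hs := hsub _ hp
    have hs' := hsub _ hp'
    rw [liBdPhi_eq _ hs, liBdPhi_eq _ hs'] at he
    rw [Finset.mem_coe, hP, Finset.mem_sigma, Finset.mem_sdiff] at hp hp'
    have e2 : v = v' := by
      have := congrArg Sigma.snd he
      exact this
    have e1 := congrArg Sigma.fst he
    have e3 : k = k' := congrArg Prod.snd e1
    have e4 := congrArg (fun z : Jx C × κ => z.1.1) e1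
    have e5 : x = x' := congrArg Prod.snd e4
    have e6 : insert v τ = insert v' τ' := congrArg Prod.fst e4
    subst e2 e3 e5
    have f1 : v ∉ τ := hp.2.2
    have f2 : v ∉ τ' := hp'.2.2
    have e7 : τ = τ' := by
      rw [← Finset.erase_insert f1, ← Finset.erase_insert f2, e6]
    subst e7
    rfl
  have h1 : ∑ s ∈ S, ∑ v ∈ C.lab s.1.1.2 \ s.1.1.1, ‖ev f (insert v s.1.1.1) s.1.1.2 s.2‖ ^ 2 =
      ∑ q ∈ P.image liBdPhi, ‖f q.1‖ ^ 2 := by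
    rw [Finset.sum_image hinj, hP, Finset.sum_sigma]
    refine Finset.sum_congr rfl fun s hs => Finset.sum_congr rfl fun v hv => ?_
    have hs := hsub ⟨s, v⟩ (Finset.mem_sigma.2 ⟨hs, hv⟩)
    rw [liBdPhi_eq _ hs, ev_pos f hs]
  set T : Finset (Jx C × κ) := (P.image liBdPhi).image Sigma.fst with hT
  have h2 : ∑ q ∈ P.image liBdPhi, ‖f q.1‖ ^ 2 ≤ ∑ q ∈ T.sigma fun t => t.1.1.1, ‖f q.1‖ ^ 2 := by
    refine Finset.sum_le_sum_of_subset_of_nonneg ?_ fun _ _ _ => by positivity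
    intro q hq
    rw [Finset.mem_sigma]
    refine ⟨Finset.mem_image_of_mem _ hq, ?_⟩
    obtain ⟨p, hp, rfl⟩ := Finset.mem_image.1 hq
    rw [liBdPhi_eq _ (hsub p hp)]
    exact Finset.mem_insert_self _ _
  have h3 : ∑ q ∈ T.sigma fun t => t.1.1.1, ‖f q.1‖ ^ 2 ≤ N * ∑ t ∈ T, ‖f t‖ ^ 2 := by
    rw [Finset.sum_sigma, Finset.mul_sum]
    refine Finset.sum_le_sum fun t _ => ?_
    have h5 : ∑ _s ∈ t.1.1.1, ‖f t‖ ^ 2 = (t.1.1.1.card : ℝ) * ‖f t‖ ^ 2 := by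
      rw [Finset.sum_const, nsmul_eq_mul]
    refine h5.le.trans (mul_le_mul_of_nonneg_right ?_ (by positivity))
    exact_mod_cast (Finset.card_le_card t.1.2).trans (hN _)
  have h4 : ∑ t ∈ T, ‖f t‖ ^ 2 ≤ ‖f‖ ^ 2 := by
    rw [norm_sq_eq]
    exact (sum_sq f).sum_le_tsum T fun _ _ => by positivity
  calc ∑ s ∈ S, ‖liBdF ν f s‖ ^ 2
      ≤ ∑ s ∈ S, N * ∑ v ∈ C.lab s.1.1.2 \ s.1.1.1, ‖ev f (insert v s.1.1.1) s.1.1.2 s.2‖ ^ 2 :=
        Finset.sum_le_sum fun s _ => liBd_point ν N hN f s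
    _ = N * ∑ q ∈ P.image liBdPhi, ‖f q.1‖ ^ 2 := by rw [← Finset.mul_sum, h1]
    _ ≤ N * (N * ‖f‖ ^ 2) := by
        refine mul_le_mul_of_nonneg_left ?_ (Nat.cast_nonneg _)
        exact (h2.trans h3).trans (mul_le_mul_of_nonneg_left h4 (Nat.cast_nonneg _))
    _ = (N * ‖f‖) ^ 2 := by ring

theorem liBd_summable {C : CubeComplex V X} {κ : Type} (ν : V → ℕ) (N : ℕ)
    (hN : ∀ x, (C.lab x).card ≤ N) (f : L2 (Jx C × κ)) :
    Summable fun s => ‖liBdF ν f s‖ ^ 2 :=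
  summable_of_sum_le (fun _ => by positivity) (liBd_sum ν N hN f)

theorem exists_bd (C : CubeComplex V X) (κ : Type) (ν : V → ℕ) (N : ℕ)
    (hN : ∀ x, (C.lab x).card ≤ N) :
    ∃ d : L2 (Jx C × κ) →L[ℂ] L2 (Jx C × κ), IsBd ν d := by
  let d0 : L2 (Jx C × κ) →ₗ[ℂ] L2 (Jx C × κ) :=
    { toFun := fun f => mk2 (liBdF ν f) (liBd_summable ν N hN f)
      map_add' := by
        intro f g
        ext s
        show liBdF ν (f + g) s = liBdF ν f s + liBdF ν g s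
        unfold liBdF
        rw [← Finset.sum_add_distrib]
        refine Finset.sum_congr rfl fun v _ => ?_
        rw [ev_add, mul_add]
      map_smul' := by
        intro c f
        ext s
        show liBdF ν (c • f) s = c * liBdF ν f s
        unfold liBdF
        rw [Finset.mul_sum]
        refine Finset.sum_congr rfl fun v _ => ?_
        rw [ev_smul]
        ring }
  refine ⟨d0.mkContinuous N fun f => ?_, fun f τ x k => ?_⟩
  · refine (sq_le_sq₀ (norm_nonneg _) (by positivity)).1 ?_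
    rw [norm_sq_eq]
    exact (liBd_summable ν N hN f).tsum_le_of_sum_le (liBd_sum ν N hN f)
  · by_cases h : τ ⊆ C.lab x
    · rw [if_pos h, ev_pos _ h]
      rfl
    · rw [if_neg h, ev_neg _ h]

end Pool.Agent.H19.LI
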