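import Pool.Agent.H19.LI.Ops

/-!
# Project LI: the boundary of a twisted chain is a twisted cycle

For `v ∈ τ` and `u ∉ τ` with `τ ∪ u` a clique, `u ∈ lab x` iff `u ∈ lab (nb v x)`.
-/

set_option autoImplicit false

open Finset

namespace Pool.Agent.H19.LI

open Pool.Agent.H19.Cub Pool.Agent.H4.Singer

variable {V X : Type} [DecidableEq V] {C : CubeComplex V X} {Γ G : Type} [Group Γ]
  [MulAction Γ V] [Group G]

/-- the coefficients of a twisted chain at `g * z` -/
private theorem h53_ev_z (D : GD C Γ G) (T : ℂ) (i : ℕ) (f : L2 (Jx C × G)) (hf : f ∈ Ch D T i)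
    (σ : Finset V) (x : X) (g : G) : ev f σ x (g * D.z) = - ev f σ x g := by
  by_cases h : σ ⊆ C.lab x
  · rw [ev_pos _ h, ev_pos _ h]
    exact hf.1 _ _
  · rw [ev_neg _ h, ev_neg _ h, neg_zero]

/-- the support of a twisted chain -/
private theorem h53_ev_ne (D : GD C Γ G) (T : ℂ) (i : ℕ) (f : L2 (Jx C × G)) (hf : f ∈ Ch D T i)
    (σ : Finset V) (x : X) (g : G) (h0 : ev f σ x g ≠ 0) :
    C.graph.IsClique (σ : Set V) ∧ σ.card = i := by
  by_cases h : σ ⊆ C.lab x
  · rw [ev_pos _ h] at h0
    exact hf.2.1 _ _ h0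
  · exact absurd (ev_neg _ h _) h0

/-- the labels of a cube are labels at the other end of each of its edges -/
private theorem h53_sub_nb (σ : Finset V) (x : X) (hσ : σ ⊆ C.lab x)
    (hc : C.graph.IsClique (σ : Set V)) (v : V) (hv : v ∈ σ) : σ ⊆ C.lab (C.nb v x) := by
  intro u hu
  by_cases huv : u = v
  · subst huv
    exact C.lab_nb u x (hσ hu)
  · exact C.lab_adj u v x (hc (by exact_mod_cast hu) (by exact_mod_cast hv) huv) (hσ hu) (hσ hv)

theorem bd_mem (D : GD C Γ G) (ν : V → ℕ) (d : L2 (Jx C × G) →L[ℂ] L2 (Jx C × G))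
    (hd : IsBd ν d) (T : ℂ) (i : ℕ) (f : L2 (Jx C × G)) (hf : f ∈ Ch D T (i + 1)) :
    d f ∈ Ch D T i := by
  classical
  have key : ∀ (τ : Finset V) (x : X), τ ⊆ C.lab x → ∀ g, ev (d f) τ x g =
      ∑ v ∈ C.lab x \ τ, (sv ν v τ : ℂ) * ev f (insert v τ) x g := by
    intro τ x hτ g
    rw [hd f τ x g, if_pos hτ]
  refine ⟨?_, ?_, ?_⟩
  · rintro ⟨⟨τ, x⟩, hτ⟩ g
    rw [← ev_pos (d f) hτ, ← ev_pos (d f) hτ, key τ x hτ, key τ x hτ, ← Finset.sum_neg_distrib]
    refine Finset.sum_congr rfl fun v _ => ?_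
    rw [h53_ev_z D T (i + 1) f hf]
    ring
  · rintro ⟨⟨τ, x⟩, hτ⟩ g h0
    rw [← ev_pos (d f) hτ, key τ x hτ] at h0
    obtain ⟨v, hv, hne⟩ := Finset.exists_ne_zero_of_sum_ne_zero h0
    have h1 : ev f (insert v τ) x g ≠ 0 := fun h => hne (by rw [h, mul_zero])
    obtain ⟨hc, hcard⟩ := h53_ev_ne D T (i + 1) f hf _ _ _ h1
    have hvτ : v ∉ τ := (Finset.mem_sdiff.1 hv).2
    rw [Finset.card_insert_of_notMem hvτ] at hcard
    refine ⟨hc.subset (by
      intro a ha
      exact_mod_cast Finset.mem_insert_of_mem (by exact_mod_cast ha)), ?_⟩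
    show τ.card = i
    omega
  · intro τ x hτ hc v hv g
    have hτ' : τ ⊆ C.lab (C.nb v x) := h53_sub_nb τ x hτ hc v hv
    -- the labels which extend the cube
    set S : Finset V := (C.lab x \ τ).filter fun u => C.graph.IsClique ((insert u τ : Finset V) : Set V)
      with hS
    have hSx : ∀ g, ∑ u ∈ C.lab x \ τ, (sv ν u τ : ℂ) * ev f (insert u τ) x g =
        ∑ u ∈ S, (sv ν u τ : ℂ) * ev f (insert u τ) x g := by
      intro g
      rw [hS, Finset.sum_filter]
      refine Finset.sum_congr rfl fun u _ => ?_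
      by_cases h : C.graph.IsClique ((insert u τ : Finset V) : Set V)
      · rw [if_pos h]
      · rw [if_neg h]
        have h0 : ev f (insert u τ) x g = 0 := by
          by_contra h1
          exact h (h53_ev_ne D T (i + 1) f hf _ _ _ h1).1
        rw [h0, mul_zero]
    have hS' : S = (C.lab (C.nb v x) \ τ).filter
        fun u => C.graph.IsClique ((insert u τ : Finset V) : Set V) := by
      rw [hS]
      ext u
      simp only [Finset.mem_filter, Finset.mem_sdiff]
      constructor
      · rintro ⟨⟨h1, h2⟩, h3⟩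
        refine ⟨⟨?_, h2⟩, h3⟩
        have hsub : insert u τ ⊆ C.lab x := Finset.insert_subset h1 hτ
        exact h53_sub_nb (insert u τ) x hsub h3 v (Finset.mem_insert_of_mem hv)
          (Finset.mem_insert_self _ _)
      · rintro ⟨⟨h1, h2⟩, h3⟩
        refine ⟨⟨?_, h2⟩, h3⟩
        have hsub : insert u τ ⊆ C.lab (C.nb v x) := Finset.insert_subset h1 hτ'
        have h4 := h53_sub_nb (insert u τ) (C.nb v x) hsub h3 v (Finset.mem_insert_of_mem hv)
          (Finset.mem_insert_self _ _)
        rwa [C.nb_nb v x (hτ hv)] at h4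
    have hSn : ∀ g, ∑ u ∈ C.lab (C.nb v x) \ τ, (sv ν u τ : ℂ) * ev f (insert u τ) (C.nb v x) g =
        ∑ u ∈ S, (sv ν u τ : ℂ) * ev f (insert u τ) (C.nb v x) g := by
      intro g
      rw [hS', Finset.sum_filter]
      refine Finset.sum_congr rfl fun u _ => ?_
      by_cases h : C.graph.IsClique ((insert u τ : Finset V) : Set V)
      · rw [if_pos h]
      · rw [if_neg h]
        have h0 : ev f (insert u τ) (C.nb v x) g = 0 := by
          by_contra h1
          exact h (h53_ev_ne D T (i + 1) f hf _ _ _ h1).1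
        rw [h0, mul_zero]
    have hx : ev (d f) τ x = fun g => ∑ u ∈ S, (sv ν u τ : ℂ) * ev f (insert u τ) x g := by
      funext g
      rw [key τ x hτ, hSx]
    rw [key τ _ hτ', hSn, hx]
    simp only [Np, Nm]
    simp only [Finset.mul_sum, ← Finset.sum_add_distrib, ← Finset.sum_sub_distrib,
      ← Finset.sum_neg_distrib]
    refine Finset.sum_congr rfl fun u hu => ?_
    rw [hS, Finset.mem_filter, Finset.mem_sdiff] at hu
    obtain ⟨⟨h1, h2⟩, h3⟩ := hu
    have e := hf.2.2 (insert u τ) x (Finset.insert_subset h1 hτ) h3 v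
      (Finset.mem_insert_of_mem hv) g
    simp only [Np, Nm] at e
    linear_combination (sv ν u τ : ℂ) * e

/-- the sign of a new element after one more label -/
private theorem h20_sv_insert (ν : V → ℕ) (u v : V) (τ : Finset V) (hv : v ∉ τ) :
    sv ν u (insert v τ) = sv ν u τ * (if ν v < ν u then -1 else 1) := by
  unfold sv
  rw [Finset.filter_insert]
  split_ifs with h
  · rw [Finset.card_insert_of_notMem (by simp [hv]), pow_succ]
  · rw [mul_one]

theorem bd_bd {κ : Type} (ν : V → ℕ) (hν : Function.Injective ν)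
    (d : L2 (Jx C × κ) →L[ℂ] L2 (Jx C × κ)) (hd : IsBd ν d) (f : L2 (Jx C × κ)) :
    d (d f) = 0 := by
  classical
  have key : ∀ (τ : Finset V) (x : X) (k : κ), τ ⊆ C.lab x → ev (d (d f)) τ x k = 0 := by
    intro τ x k hτ
    rw [hd (d f) τ x k, if_pos hτ]
    set S : Finset V := C.lab x \ τ with hS
    set F : V → V → ℂ := fun v u => if v = u then 0 else
      (sv ν v τ : ℂ) * ((sv ν u (insert v τ) : ℂ) * ev f (insert u (insert v τ)) x k) with hF
    have h1 : ∑ v ∈ S, (sv ν v τ : ℂ) * ev (d f) (insert v τ) x k = ∑ v ∈ S, ∑ u ∈ S, F v u := by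
      refine Finset.sum_congr rfl fun v hv => ?_
      have hv' := Finset.mem_sdiff.1 hv
      have hsub : insert v τ ⊆ C.lab x := Finset.insert_subset hv'.1 hτ
      rw [hd f (insert v τ) x k, if_pos hsub, Finset.mul_sum]
      have hset : C.lab x \ insert v τ = S.erase v := by
        ext a
        simp only [hS, Finset.mem_sdiff, Finset.mem_insert, Finset.mem_erase, not_or]
        tauto
      rw [hset]
      have h2 : ∑ u ∈ S.erase v, (sv ν v τ : ℂ) *
          ((sv ν u (insert v τ) : ℂ) * ev f (insert u (insert v τ)) x k) =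
          ∑ u ∈ S.erase v, F v u := by
        refine Finset.sum_congr rfl fun u hu => ?_
        have hne : v ≠ u := fun h => (Finset.mem_erase.1 hu).1 h.symm
        rw [hF]
        simp only [if_neg hne]
      rw [h2]
      refine Finset.sum_subset (Finset.erase_subset _ _) fun u hu hu' => ?_
      have : u = v := by
        by_contra h
        exact hu' (Finset.mem_erase.2 ⟨h, hu⟩)
      rw [hF]
      simp only [this, if_true]
    rw [h1]
    have hanti : ∀ v ∈ S, ∀ u ∈ S, F v u = - F u v := by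
      intro v hv u hu
      by_cases h : v = u
      · subst h
        simp only [hF, if_true, neg_zero]
      · have h' : ¬ u = v := fun e => h e.symm
        have hv' := (Finset.mem_sdiff.1 hv).2
        have hu' := (Finset.mem_sdiff.1 hu).2
        simp only [hF, if_neg h, if_neg h']
        rw [h20_sv_insert ν u v τ hv', h20_sv_insert ν v u τ hu', Finset.insert_comm u v τ]
        have hne : ν v ≠ ν u := fun e => h (hν e)
        rcases lt_or_gt_of_ne hne with hlt | hlt
        · rw [if_pos hlt, if_neg (not_lt.2 hlt.le)]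
          push_cast
          ring
        · rw [if_pos hlt, if_neg (not_lt.2 hlt.le)]
          push_cast
          ring
    have h3 : ∑ v ∈ S, ∑ u ∈ S, F v u = - ∑ v ∈ S, ∑ u ∈ S, F v u := by
      calc ∑ v ∈ S, ∑ u ∈ S, F v u = ∑ v ∈ S, ∑ u ∈ S, - F u v :=
            Finset.sum_congr rfl fun v hv => Finset.sum_congr rfl fun u hu => hanti v hv u hu
        _ = ∑ u ∈ S, ∑ v ∈ S, - F u v := Finset.sum_comm
        _ = - ∑ v ∈ S, ∑ u ∈ S, F v u := by
            simp only [Finset.sum_neg_distrib]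
    have h4 : (2 : ℂ) * ∑ v ∈ S, ∑ u ∈ S, F v u = 0 := by
      linear_combination h3
    rcases mul_eq_zero.1 h4 with h5 | h5
    · exact absurd h5 two_ne_zero
    · exact h5
  ext p
  obtain ⟨⟨⟨σ, x⟩, h⟩, k⟩ := p
  have := key σ x k h
  rw [ev_pos _ h] at this
  rw [this]
  rfl

end Pool.Agent.H19.LI
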