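import Pool.Agent.H19.LI.ChInv2

/-!
# Project LI: the twisted chains are closed and invariant, the boundary is equivariant

`isClosed_Ch`: the coordinates are continuous. `inv_Ch`: `(U (γ, u) f) (γ σ, γ x, u g (j γ)⁻¹) = ± f (σ, x, g)`; use
`jR`, `jB`, `zj`. `eqv_bd`: `sv ν (γ v) (γ τ) * sgi ν γ (insert v τ) = sv ν v τ * sgi ν γ τ` for `v ∉ τ`.
-/

set_option autoImplicit false
set_option linter.unusedSectionVars false

open Finset
open scoped Pointwise

namespace Pool.Agent.H19.LI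

open Pool.Agent.H19.Cub Pool.Agent.H4.Singer

variable {V X : Type} [DecidableEq V] {C : CubeComplex V X} {Γ G : Type} [Group Γ]
  [MulAction Γ V] [MulAction Γ X] [Group G]

private theorem hh3_sv (ν : V → ℕ) (v : V) (τ : Finset V) :
    sv ν v τ = ∏ u ∈ τ, if ν u < ν v then (-1 : ℤ) else 1 := by
  unfold sv
  rw [Finset.prod_ite, Finset.prod_const, Finset.prod_const_one, mul_one]

private theorem hh3_sgi (ν : V → ℕ) (g : Γ) (σ : Finset V) :
    sgi ν g σ = ∏ a ∈ σ, ∏ b ∈ σ,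
      if ν a < ν b ∧ ν (g • b) < ν (g • a) then (-1 : ℤ) else 1 := by
  unfold sgi
  rw [← Finset.prod_product' σ σ fun a b =>
      if ν a < ν b ∧ ν (g • b) < ν (g • a) then (-1 : ℤ) else 1,
    Finset.prod_ite, Finset.prod_const, Finset.prod_const_one, mul_one]

/-- the signs -/
theorem sgi_insert (ν : V → ℕ) (hν : Function.Injective ν) (g : Γ) (v : V) (τ : Finset V)
    (hv : v ∉ τ) :
    sv ν (g • v) (g • τ) * sgi ν g (insert v τ) = sv ν v τ * sgi ν g τ := by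
  have h1 : sv ν (g • v) (g • τ) = ∏ u ∈ τ, if ν (g • u) < ν (g • v) then (-1 : ℤ) else 1 := by
    rw [hh3_sv]
    show ∏ u ∈ τ.image (g • ·), _ = _
    rw [Finset.prod_image fun a _ b _ h => MulAction.injective g h]
  rw [h1, hh3_sgi, hh3_sgi ν g τ, hh3_sv, Finset.prod_insert hv, Finset.prod_insert hv]
  simp only [Finset.prod_insert hv]
  rw [Finset.prod_mul_distrib, if_neg (fun h => lt_irrefl _ h.1), one_mul, ← mul_assoc,
    ← mul_assoc, ← Finset.prod_mul_distrib, ← Finset.prod_mul_distrib]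
  congr 1
  refine Finset.prod_congr rfl fun u hu => ?_
  have huv : u ≠ v := fun h => hv (h ▸ hu)
  have h2 : ν u ≠ ν v := fun h => huv (hν h)
  have h3 : ν (g • u) ≠ ν (g • v) := fun h => huv (MulAction.injective g (hν h))
  rcases lt_or_gt_of_ne h2 with h4 | h4 <;> rcases lt_or_gt_of_ne h3 with h5 | h5 <;>
    simp [h4, h5, not_lt.2 h4.le, not_lt.2 h5.le]

/-- the boundary operator is equivariant -/
theorem eqv_bd (D : GD C Γ G) (hΓ : IsGeom Γ C) (K : Cut Γ X) (ν : V → ℕ)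
    (hν : Function.Injective ν) (d : L2 (Jx C × G) →L[ℂ] L2 (Jx C × G)) (hd : IsBd ν d) :
    Eqv (dimD D hΓ K ν) (dimD D hΓ K ν) d := by
  intro q f
  have hU := hh76_ev_U D hΓ K ν q
  have key : ∀ τ x g, τ ⊆ C.lab x →
      ev (d ((dimD D hΓ K ν).U q f)) (q.1 • τ) (q.1 • x) (q.2 * g * (D.j q.1)⁻¹) =
        ev ((dimD D hΓ K ν).U q (d f)) (q.1 • τ) (q.1 • x) (q.2 * g * (D.j q.1)⁻¹) := by
    intro τ x g hτ
    have hlab : C.lab (q.1 • x) \ (q.1 • τ) = (C.lab x \ τ).image (q.1 • ·) := by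
      ext v
      rw [Finset.mem_sdiff, Finset.mem_image]
      constructor
      · rintro ⟨h1, h2⟩
        refine ⟨q.1⁻¹ • v, Finset.mem_sdiff.2 ⟨?_, fun h => h2 ?_⟩, smul_inv_smul _ _⟩
        · rw [← hΓ.lab q.1, smul_inv_smul]
          exact h1
        · have h3 := Finset.smul_mem_smul_finset (a := q.1) h
          rwa [smul_inv_smul] at h3
      · rintro ⟨u, hu, rfl⟩
        rw [Finset.mem_sdiff] at hu
        refine ⟨(hΓ.lab q.1 u x).2 hu.1, fun h => hu.2 ?_⟩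
        exact (Finset.smul_mem_smul_finset_iff q.1).1 h
    rw [hd, if_pos (smul_sub hΓ q.1 hτ), hU, hd, if_pos hτ, hlab,
      Finset.sum_image fun a _ b _ h => MulAction.injective q.1 h, Finset.mul_sum]
    refine Finset.sum_congr rfl fun v hv => ?_
    have h1 : insert (q.1 • v) (q.1 • τ) = q.1 • insert v τ := by
      rw [Finset.smul_finset_insert]
    have h2 := sgi_insert ν hν q.1 v τ (Finset.mem_sdiff.1 hv).2
    have h3 : ((sv ν (q.1 • v) (q.1 • τ) : ℤ) : ℂ) * (sgi ν q.1 (insert v τ) : ℂ) =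
        (sv ν v τ : ℂ) * (sgi ν q.1 τ : ℂ) := by exact_mod_cast h2
    show (sv ν (q.1 • v) (q.1 • τ) : ℂ) * ev ((dimD D hΓ K ν).U q f)
      (insert (q.1 • v) (q.1 • τ)) (q.1 • x) (q.2 * g * (D.j q.1)⁻¹) = _
    rw [h1, hU, ← mul_assoc, h3]
    ring
  refine lp.ext (funext fun p => ?_)
  obtain ⟨⟨⟨τ, x⟩, hτ⟩, g⟩ := p
  have h1 : q.1⁻¹ • τ ⊆ C.lab (q.1⁻¹ • x) := smul_sub hΓ q.1⁻¹ hτ
  have h2 := key _ _ (q.2⁻¹ * g * D.j q.1) h1
  rw [smul_inv_smul, smul_inv_smul,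
    show q.2 * (q.2⁻¹ * g * D.j q.1) * (D.j q.1)⁻¹ = g by group,
    ev_pos _ hτ, ev_pos _ hτ] at h2
  exact h2

end Pool.Agent.H19.LI
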