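import Pool.Agent.H19.LI.Vn

/-!
# Project LI: elementary properties of the dimension
-/

set_option autoImplicit false

open Finset ContinuousLinearMap

namespace Pool.Agent.H19.LI

variable {Q I I' : Type} [Group Q] (D : Dm Q I) (D' : Dm Q I')

theorem norm_ee (s : I) : ‖(ee s : L2 I)‖ = 1 := by
  classical
  unfold ee
  rw [lp.norm_single (by norm_num)]
  simp

/-- coordinates -/
theorem inner_ee (s : I) (f : L2 I) : inner ℂ (ee s) f = f s := by
  classical
  unfold ee
  rw [lp.inner_single_left]
  simp

theorem ee_apply_self (s : I) : (ee s : L2 I) s = 1 := by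
  classical
  unfold ee
  rw [lp.single_apply_self]

theorem ee_apply_ne {s t : I} (h : t ≠ s) : (ee s : L2 I) t = 0 := by
  classical
  unfold ee
  rw [lp.single_apply_ne _ _ _ h]

theorem U_ee (q : Q) (s : I) : D.U q (ee s) = (D.sg q s : ℂ) • ee (D.a q s) := by
  classical
  ext t
  rw [Dm.U_apply]
  show _ = (D.sg q s : ℂ) * (ee (D.a q s) : L2 I) t
  by_cases h : t = D.a q s
  · subst h
    have h1 : (D.a q)⁻¹ (D.a q s) = s := (D.a q).symm_apply_apply s
    rw [h1, ee_apply_self, ee_apply_self]
  · have h1 : (D.a q)⁻¹ t ≠ s := by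
      intro h2
      apply h
      rw [← h2]
      exact ((D.a q).apply_symm_apply t).symm
    rw [ee_apply_ne h1, ee_apply_ne h, mul_zero, mul_zero]

theorem dm_nonneg (K : Submodule ℂ (L2 I)) : 0 ≤ D.dm K :=
  Finset.sum_nonneg fun s _ => mul_nonneg (D.nonneg s) (by positivity)

private theorem proj_closure (K : Submodule ℂ (L2 I)) (x : L2 I) :
    K.topologicalClosure.topologicalClosure.starProjection x =
      K.topologicalClosure.starProjection x := by
  have h : K.topologicalClosure.topologicalClosure = K.topologicalClosure :=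
    IsClosed.submodule_topologicalClosure_eq K.isClosed_topologicalClosure
  refine Submodule.eq_starProjection_of_mem_orthogonal ?_ ?_
  · rw [h]
    exact Submodule.starProjection_apply_mem _ x
  · rw [h]
    exact Submodule.sub_starProjection_mem_orthogonal x

/-- the projection onto the closure, for a closed subspace -/
theorem proj_of_closed {K : Submodule ℂ (L2 I)} (hK : IsClosed (K : Set (L2 I)))
    [K.HasOrthogonalProjection] (x : L2 I) :
    K.topologicalClosure.starProjection x = K.starProjection x := by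
  have h : K.topologicalClosure = K := IsClosed.submodule_topologicalClosure_eq hK
  refine Submodule.eq_starProjection_of_mem_orthogonal ?_ ?_
  · rw [h]
    exact Submodule.starProjection_apply_mem _ x
  · rw [h]
    exact Submodule.sub_starProjection_mem_orthogonal x

theorem dm_bot : D.dm ⊥ = 0 := by
  unfold Dm.dm
  refine Finset.sum_eq_zero fun s _ => ?_
  have h : (⊥ : Submodule ℂ (L2 I)).topologicalClosure = ⊥ :=
    IsClosed.submodule_topologicalClosure_eq (by
      rw [Submodule.bot_coe]
      exact isClosed_singleton)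
  have h1 := Submodule.starProjection_apply_mem (⊥ : Submodule ℂ (L2 I)).topologicalClosure (ee s)
  have h2 : ∀ y ∈ (⊥ : Submodule ℂ (L2 I)).topologicalClosure, y = 0 := by
    intro y hy
    rw [h] at hy
    exact (Submodule.mem_bot ℂ).1 hy
  rw [h2 _ h1]
  simp

theorem dm_closure (K : Submodule ℂ (L2 I)) : D.dm K.topologicalClosure = D.dm K := by
  unfold Dm.dm
  refine Finset.sum_congr rfl fun s _ => ?_
  rw [proj_closure]

theorem dm_mono {K L : Submodule ℂ (L2 I)} (h : K ≤ L) : D.dm K ≤ D.dm L := by
  unfold Dm.dm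
  refine Finset.sum_le_sum fun s _ => mul_le_mul_of_nonneg_left ?_ (D.nonneg s)
  have hcl : K.topologicalClosure ≤ L.topologicalClosure := Submodule.topologicalClosure_mono h
  have h1 : K.topologicalClosure.starProjection (L.topologicalClosure.starProjection (ee s)) =
      K.topologicalClosure.starProjection (ee s) := by
    have := Submodule.starProjection_comp_starProjection_of_le hcl
    exact congrArg (fun f : L2 I →L[ℂ] L2 I => f (ee s)) this
  rw [← h1]
  have h2 := Submodule.norm_starProjection_apply_le K.topologicalClosure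
    (L.topologicalClosure.starProjection (ee s))
  exact pow_le_pow_left₀ (norm_nonneg _) h2 2

/-- Pythagoras -/
theorem dm_add {K L : Submodule ℂ (L2 I)} (hK : IsClosed (K : Set (L2 I)))
    (hL : IsClosed (L : Set (L2 I))) (h : K ≤ L) : D.dm L = D.dm K + D.dm (L ⊓ Kᗮ) := by
  have hKc : K.topologicalClosure = K := IsClosed.submodule_topologicalClosure_eq hK
  have hLc : L.topologicalClosure = L := IsClosed.submodule_topologicalClosure_eq hL
  have hMc : (L ⊓ Kᗮ).topologicalClosure = L ⊓ Kᗮ := by
    refine IsClosed.submodule_topologicalClosure_eq ?_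
    rw [Submodule.coe_inf]
    exact hL.inter (Submodule.isClosed_orthogonal K)
  unfold Dm.dm
  rw [← Finset.sum_add_distrib]
  refine Finset.sum_congr rfl fun s _ => ?_
  rw [← mul_add]
  congr 1
  set x : L2 I := ee s
  set u := K.topologicalClosure.starProjection x with hu
  set w := L.topologicalClosure.starProjection x with hw
  have huK : u ∈ K := by
    rw [← hKc]
    exact Submodule.starProjection_apply_mem _ x
  have hwL : w ∈ L := by
    rw [← hLc]
    exact Submodule.starProjection_apply_mem _ x
  have hxu : x - u ∈ Kᗮ := by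
    have := Submodule.sub_starProjection_mem_orthogonal (K := K.topologicalClosure) x
    rwa [Submodule.orthogonal_closure] at this
  have hxw : x - w ∈ Lᗮ := by
    have := Submodule.sub_starProjection_mem_orthogonal (K := L.topologicalClosure) x
    rwa [Submodule.orthogonal_closure] at this
  have hwu : w - u ∈ L ⊓ Kᗮ := by
    refine ⟨L.sub_mem hwL (h huK), ?_⟩
    have h1 : w - u = (x - u) - (x - w) := by abel
    rw [h1]
    exact Kᗮ.sub_mem hxu (Submodule.orthogonal_le h hxw)
  have h3 : (L ⊓ Kᗮ).topologicalClosure.starProjection x = w - u := by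
    refine Submodule.eq_starProjection_of_mem_orthogonal ?_ ?_
    · rw [hMc]
      exact hwu
    · rw [hMc]
      have h1 : x - (w - u) = (x - w) + u := by abel
      rw [h1]
      refine Submodule.add_mem _ (Submodule.orthogonal_le inf_le_left hxw) ?_
      rw [Submodule.mem_orthogonal]
      intro y hy
      have := (Submodule.mem_orthogonal K y).1 hy.2 u huK
      rw [← inner_conj_symm, this, map_zero]
  rw [h3]
  have h4 : w = u + (w - u) := by abel
  have h5 : inner ℂ u (w - u) = 0 := (Submodule.mem_orthogonal K _).1 hwu.2 u huK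
  have h6 := norm_add_sq_eq_norm_sq_add_norm_sq_of_inner_eq_zero u (w - u) h5
  rw [← h4] at h6
  nlinarith [h6]

/-- a lower bound -/
theorem dm_lower {K : Submodule ℂ (L2 I)} (f : L2 I) (hf : f ∈ K) (s : I) :
    D.c s * ‖f s‖ ^ 2 ≤ D.dm K * ‖f‖ ^ 2 := by
  classical
  have hf' : f ∈ K.topologicalClosure := K.le_topologicalClosure hf
  have h1 : ‖f s‖ ≤ ‖K.topologicalClosure.starProjection (ee s)‖ * ‖f‖ := by
    rw [← inner_ee s f]
    have h2 : inner ℂ (ee s) f = inner ℂ (K.topologicalClosure.starProjection (ee s)) f := by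
      rw [Submodule.inner_starProjection_left_eq_right,
        (Submodule.starProjection_eq_self_iff (K := K.topologicalClosure)).2 hf']
    rw [h2]
    exact norm_inner_le_norm _ _
  have h3 : ‖f s‖ ^ 2 ≤ ‖K.topologicalClosure.starProjection (ee s)‖ ^ 2 * ‖f‖ ^ 2 := by
    rw [← mul_pow]
    exact pow_le_pow_left₀ (norm_nonneg _) h1 2
  by_cases hs : s ∈ D.F
  · have h4 : D.c s * ‖K.topologicalClosure.starProjection (ee s)‖ ^ 2 ≤ D.dm K :=
      Finset.single_le_sum (f := fun s => D.c s * ‖K.topologicalClosure.starProjection (ee s)‖ ^ 2)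
        (fun t _ => mul_nonneg (D.nonneg t) (by positivity)) hs
    calc D.c s * ‖f s‖ ^ 2 ≤ D.c s * (‖K.topologicalClosure.starProjection (ee s)‖ ^ 2 * ‖f‖ ^ 2) :=
          mul_le_mul_of_nonneg_left h3 (D.nonneg s)
      _ = D.c s * ‖K.topologicalClosure.starProjection (ee s)‖ ^ 2 * ‖f‖ ^ 2 := by ring
      _ ≤ D.dm K * ‖f‖ ^ 2 := mul_le_mul_of_nonneg_right h4 (by positivity)
  · rw [D.supp s hs, zero_mul]
    exact mul_nonneg (dm_nonneg D K) (by positivity)

theorem inv_inf {K L : Submodule ℂ (L2 I)} (hK : D.Inv K) (hL : D.Inv L) : D.Inv (K ⊓ L) :=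
  fun q f => by rw [Submodule.mem_inf, Submodule.mem_inf, hK q f, hL q f]

theorem inv_orth {K : Submodule ℂ (L2 I)} (hK : D.Inv K) : D.Inv Kᗮ := by
  intro q x
  rw [Submodule.mem_orthogonal, Submodule.mem_orthogonal]
  constructor
  · intro h y hy
    obtain ⟨y, rfl⟩ := (D.U q).surjective y
    rw [(D.U q).inner_map_map]
    exact h _ ((hK q y).2 hy)
  · intro h y hy
    rw [← (D.U q).inner_map_map]
    exact h _ ((hK q y).1 hy)

theorem inv_closure {K : Submodule ℂ (L2 I)} (hK : D.Inv K) : D.Inv K.topologicalClosure := by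
  have h1 : ∀ q x, x ∈ K.topologicalClosure → D.U q x ∈ K.topologicalClosure := by
    intro q x hx
    refine map_mem_closure (D.U q).continuous hx fun y hy => ?_
    exact (hK q y).1 hy
  have h2 : ∀ q x, x ∈ K.topologicalClosure → (D.U q).symm x ∈ K.topologicalClosure := by
    intro q x hx
    refine map_mem_closure (D.U q).symm.continuous hx fun y hy => ?_
    refine (hK q _).2 ?_
    rw [LinearIsometryEquiv.apply_symm_apply]
    exact hy
  intro q x
  refine ⟨h1 q x, fun h => ?_⟩
  have := h2 q _ h
  rwa [LinearIsometryEquiv.symm_apply_apply] at this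

theorem inv_ker (A : L2 I →L[ℂ] L2 I') (hA : Eqv D D' A) :
    D.Inv (LinearMap.ker (A : L2 I →ₗ[ℂ] L2 I')) := by
  intro q x
  rw [LinearMap.mem_ker, LinearMap.mem_ker, coe_coe, hA, map_eq_zero_iff _ (D'.U q).injective]

theorem inv_map {K : Submodule ℂ (L2 I)} (hK : D.Inv K) (A : L2 I →L[ℂ] L2 I')
    (hA : Eqv D D' A) : D'.Inv (K.map (A : L2 I →ₗ[ℂ] L2 I')) := by
  intro q y
  constructor
  · rintro ⟨x, hx, rfl⟩
    exact ⟨D.U q x, (hK q x).1 hx, hA q x⟩
  · rintro ⟨x, hx, hxy⟩
    obtain ⟨x, rfl⟩ := (D.U q).surjective x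
    refine ⟨x, (hK q x).2 hx, ?_⟩
    apply (D'.U q).injective
    rw [← hxy]
    exact (hA q x).symm

/-- the projection onto an invariant subspace is equivariant -/
theorem proj_U {K : Submodule ℂ (L2 I)} (hK : D.Inv K) :
    Eqv D D K.topologicalClosure.starProjection := by
  intro q x
  refine Submodule.eq_starProjection_of_mem_orthogonal ?_ ?_
  · exact (inv_closure D hK q _).1 (Submodule.starProjection_apply_mem _ x)
  · rw [← map_sub]
    exact (inv_orth D (inv_closure D hK) q _).1 (Submodule.sub_starProjection_mem_orthogonal x)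

/-- the dimension is faithful -/
theorem dm_faithful {K L : Submodule ℂ (L2 I)} (hK : IsClosed (K : Set (L2 I)))
    (hL : IsClosed (L : Set (L2 I))) (iK : D.Inv K) (iL : D.Inv L) (h : K ≤ L)
    (hd : D.dm L ≤ D.dm K) : K = L := by
  have hM0 : D.dm (L ⊓ Kᗮ) = 0 := by
    have h1 := dm_add D hK hL h
    have h2 := dm_nonneg D (L ⊓ Kᗮ)
    linarith
  have iM : D.Inv (L ⊓ Kᗮ) := inv_inf D iL (inv_orth D iK)
  have h1 : ∀ s, D.c s * ‖(L ⊓ Kᗮ).topologicalClosure.starProjection (ee s)‖ ^ 2 = 0 := by
    intro s
    by_cases hs : s ∈ D.F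
    · exact (Finset.sum_eq_zero_iff_of_nonneg
        (fun t _ => mul_nonneg (D.nonneg t) (by positivity))).1 hM0 s hs
    · rw [D.supp s hs, zero_mul]
  have h2 : ∀ s, (L ⊓ Kᗮ).topologicalClosure.starProjection (ee s) = 0 := by
    intro s
    have h3 : ∃ q, D.c (D.a q s) ≠ 0 := by
      by_contra hcon
      push Not at hcon
      have := D.sum s
      simp_rw [hcon] at this
      exact zero_ne_one (hasSum_zero.unique this)
    obtain ⟨q, hq⟩ := h3
    have h4 := h1 (D.a q s)
    have h5 : (L ⊓ Kᗮ).topologicalClosure.starProjection (ee (D.a q s)) = 0 := by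
      rcases mul_eq_zero.1 h4 with h6 | h6
      · exact absurd h6 hq
      · exact norm_eq_zero.1 (pow_eq_zero_iff (two_ne_zero) |>.1 h6)
    have h6 := proj_U D iM q (ee s)
    rw [U_ee, map_smul, h5, smul_zero] at h6
    exact (D.U q).injective (by rw [← h6, map_zero])
  apply le_antisymm h
  intro x hx
  have hKc : K.topologicalClosure = K := IsClosed.submodule_topologicalClosure_eq hK
  have huK : K.topologicalClosure.starProjection x ∈ K :=
    hKc.le (Submodule.starProjection_apply_mem K.topologicalClosure x)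
  have hxu : x - K.topologicalClosure.starProjection x ∈ Kᗮ := by
    have := Submodule.sub_starProjection_mem_orthogonal (K := K.topologicalClosure) x
    rwa [Submodule.orthogonal_closure] at this
  set y := x - K.topologicalClosure.starProjection x with hy
  have hyM : y ∈ L ⊓ Kᗮ := ⟨L.sub_mem hx (h huK), hxu⟩
  have hy0 : y = 0 := by
    ext s
    rw [← inner_ee s y]
    have h3 : inner ℂ (ee s) y =
        inner ℂ ((L ⊓ Kᗮ).topologicalClosure.starProjection (ee s)) y := by
      rw [Submodule.inner_starProjection_left_eq_right,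
        (Submodule.starProjection_eq_self_iff (K := (L ⊓ Kᗮ).topologicalClosure)).2
          (Submodule.le_topologicalClosure _ hyM)]
    rw [h3, h2 s, inner_zero_left]
    rfl
  have h7 : x = K.topologicalClosure.starProjection x := by
    rw [← sub_eq_zero]
    exact hy0
  rw [h7]
  exact huK

/-- compositions -/
theorem eqv_comp {I'' : Type} {D'' : Dm Q I''} {A : L2 I →L[ℂ] L2 I'} {B : L2 I' →L[ℂ] L2 I''}
    (hB : Eqv D' D'' B) (hA : Eqv D D' A) : Eqv D D'' (B ∘L A) := fun q x => by
  rw [comp_apply, comp_apply, hA, hB]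

theorem eqv_adjoint {A : L2 I →L[ℂ] L2 I'} (hA : Eqv D D' A) : Eqv D' D (adjoint A) := by
  intro q y
  refine ext_inner_left ℂ fun x => ?_
  obtain ⟨x, rfl⟩ := (D.U q).surjective x
  rw [adjoint_inner_right, hA, LinearIsometryEquiv.inner_map_map,
    LinearIsometryEquiv.inner_map_map, adjoint_inner_right]

end Pool.Agent.H19.LI
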