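import Pool.Agent.H19.LI.Act
import Pool.Agent.H19.LI.VnC

/-!
# Project LI: the twisted chains are closed and invariant

`isClosed_Ch`: the coordinates are continuous. `inv_Ch`: `(U (γ, u) f) (γ σ, γ x, u g (j γ)⁻¹) = ± f (σ, x, g)`.
-/

set_option autoImplicit false

open Finset
open scoped Pointwise

namespace Pool.Agent.H19.LI

open Pool.Agent.H19.Cub Pool.Agent.H4.Singer

variable {V X : Type} [DecidableEq V] {C : CubeComplex V X} {Γ G : Type} [Group Γ]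
  [MulAction Γ V] [MulAction Γ X] [Group G]

theorem hh76_cont_ap {I : Type} (k : I) : Continuous fun f : L2 I => f k :=
  (lp.evalCLM (𝕜 := ℂ) (fun _ : I => ℂ) 2 k).continuous

theorem hh76_cont_ev {κ : Type} (σ : Finset V) (x : X) (k : κ) :
    Continuous fun f : L2 (Jx C × κ) => ev f σ x k := by
  by_cases h : σ ⊆ C.lab x
  · simp only [ev_pos _ h]
    exact hh76_cont_ap _
  · simp only [ev_neg _ h]
    exact continuous_const

theorem hh76_closed_imp {I : Type} (k : I) (P : Prop) : IsClosed {f : L2 I | f k ≠ 0 → P} := by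
  by_cases h : P
  · have e : {f : L2 I | f k ≠ 0 → P} = Set.univ := by
      ext f
      exact ⟨fun _ => trivial, fun _ _ => h⟩
    rw [e]
    exact isClosed_univ
  · have e : {f : L2 I | f k ≠ 0 → P} = {f | f k = (0 : ℂ)} := by
      ext f
      constructor
      · intro hf
        by_contra h0
        exact h (hf h0)
      · intro hf h0
        exact absurd hf h0
    rw [e]
    exact isClosed_eq (hh76_cont_ap k) continuous_const

theorem isClosed_Ch (D : GD C Γ G) (T : ℂ) (i : ℕ) :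
    IsClosed (Ch D T i : Set (L2 (Jx C × G))) := by
  have e : (Ch D T i : Set (L2 (Jx C × G))) =
      {f | ∀ p g, f (p, g * D.z) = - f (p, g)} ∩
      ({f | ∀ p g, f (p, g) ≠ 0 → C.graph.IsClique (p.1.1 : Set V) ∧ p.1.1.card = i} ∩
      {f | ∀ σ x, σ ⊆ C.lab x → C.graph.IsClique (σ : Set V) → ∀ v ∈ σ, ∀ g,
        2 * T * ev f σ (C.nb v x) g =
          - (Np D (ev f σ x) v g + T ^ 2 * Nm D (ev f σ x) v g)}) := by
    ext f
    rfl
  rw [e]
  refine IsClosed.inter ?_ (IsClosed.inter ?_ ?_)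
  · simp only [Set.ofPred_forall]
    refine isClosed_iInter fun p => isClosed_iInter fun g => ?_
    exact isClosed_eq (hh76_cont_ap _) (hh76_cont_ap _).neg
  · simp only [Set.ofPred_forall]
    refine isClosed_iInter fun p => isClosed_iInter fun g => ?_
    exact hh76_closed_imp (p, g) _
  · simp only [Set.ofPred_forall]
    refine isClosed_iInter fun σ => isClosed_iInter fun x => isClosed_iInter fun _ =>
      isClosed_iInter fun _ => isClosed_iInter fun v => isClosed_iInter fun _ =>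
      isClosed_iInter fun g => ?_
    unfold Np Nm
    refine isClosed_eq (continuous_const.mul (hh76_cont_ev _ _ _)) ?_
    exact (((hh76_cont_ev _ _ _).add (continuous_const.mul (hh76_cont_ev _ _ _))).add
      (continuous_const.mul
        ((hh76_cont_ev _ _ _).sub (continuous_const.mul (hh76_cont_ev _ _ _))))).neg

theorem hh76_ev_U (D : GD C Γ G) (hΓ : IsGeom Γ C) (K : Cut Γ X) (ν : V → ℕ) (q : Γ × G)
    (f : L2 (Jx C × G)) (σ : Finset V) (x : X) (g : G) :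
    ev ((dimD D hΓ K ν).U q f) (q.1 • σ) (q.1 • x) (q.2 * g * (D.j q.1)⁻¹) =
      (sgi ν q.1 σ : ℂ) * ev f σ x g := by
  by_cases h : σ ⊆ C.lab x
  · rw [ev_pos _ (smul_sub hΓ q.1 h), ev_pos _ h]
    exact (dimD D hΓ K ν).U_smul q f (⟨(σ, x), h⟩, g)
  · rw [ev_neg _ h, ev_neg, mul_zero]
    intro h'
    exact h fun v hv => (hΓ.lab q.1 v x).1 (h' (Finset.smul_mem_smul_finset hv))

theorem hh76_sgi_sq (ν : V → ℕ) (g : Γ) (σ : Finset V) : sgi ν g σ * sgi ν g σ = 1 := by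
  unfold sgi
  rw [← mul_pow, neg_one_mul, neg_neg, one_pow]

theorem hh76_rel (D : GD C Γ G) (hΓ : IsGeom Γ C) {T : ℂ} {i : ℕ} {f f' : L2 (Jx C × G)}
    (γ : Γ) (u : G) (s : Finset V → ℤ)
    (h : ∀ σ x g, ev f' (γ • σ) (γ • x) (u * g * (D.j γ)⁻¹) = (s σ : ℂ) * ev f σ x g)
    (hf : f ∈ Ch D T i) : f' ∈ Ch D T i := by
  have h' : ∀ σ x g, ev f' σ x g =
      (s (γ⁻¹ • σ) : ℂ) * ev f (γ⁻¹ • σ) (γ⁻¹ • x) (u⁻¹ * g * D.j γ) := by
    intro σ x g
    have h1 := h (γ⁻¹ • σ) (γ⁻¹ • x) (u⁻¹ * g * D.j γ)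
    rwa [smul_inv_smul, smul_inv_smul,
      show u * (u⁻¹ * g * D.j γ) * (D.j γ)⁻¹ = g by group] at h1
  obtain ⟨h1, h2, h3⟩ := hf
  have h1' : ∀ σ x g, ev f σ x (g * D.z) = - ev f σ x g := by
    intro σ x g
    by_cases hσ : σ ⊆ C.lab x
    · rw [ev_pos _ hσ, ev_pos _ hσ]
      exact h1 _ _
    · rw [ev_neg _ hσ, ev_neg _ hσ, neg_zero]
  have h2' : ∀ σ x g, ev f σ x g ≠ 0 → C.graph.IsClique (σ : Set V) ∧ σ.card = i := by
    intro σ x g hne
    by_cases hσ : σ ⊆ C.lab x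
    · rw [ev_pos _ hσ] at hne
      exact h2 _ _ hne
    · exact absurd (ev_neg f hσ g) hne
  refine ⟨fun p g => ?_, fun p g hne => ?_, fun σ x hσ hc v hv g => ?_⟩
  · obtain ⟨⟨σ, x⟩, hp⟩ := p
    rw [← ev_pos f' hp, ← ev_pos f' hp, h', h',
      show u⁻¹ * (g * D.z) * D.j γ = (u⁻¹ * g * D.j γ) * D.z by
        rw [mul_assoc, mul_assoc, D.zj, ← mul_assoc, ← mul_assoc], h1']
    ring
  · obtain ⟨⟨σ, x⟩, hp⟩ := p
    rw [← ev_pos f' hp, h'] at hne
    obtain ⟨hc, hk⟩ := h2' _ _ _ (right_ne_zero_of_mul hne)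
    refine ⟨?_, ?_⟩
    · intro a ha b hb hab
      have ha' : γ⁻¹ • a ∈ ((γ⁻¹ • σ : Finset V) : Set V) :=
        Finset.mem_coe.2 (Finset.smul_mem_smul_finset (Finset.mem_coe.1 ha))
      have hb' : γ⁻¹ • b ∈ ((γ⁻¹ • σ : Finset V) : Set V) :=
        Finset.mem_coe.2 (Finset.smul_mem_smul_finset (Finset.mem_coe.1 hb))
      have hab' : γ⁻¹ • a ≠ γ⁻¹ • b := fun e => hab (MulAction.injective γ⁻¹ e)
      exact (hΓ.graph γ⁻¹ a b).1 (hc ha' hb' hab')
    · rwa [Finset.card_smul_finset] at hk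
  · have hv' : γ⁻¹ • v ∈ γ⁻¹ • σ := Finset.smul_mem_smul_finset hv
    have hσ' : γ⁻¹ • σ ⊆ C.lab (γ⁻¹ • x) := smul_sub hΓ γ⁻¹ hσ
    have hc' : C.graph.IsClique ((γ⁻¹ • σ : Finset V) : Set V) := by
      intro a ha b hb hab
      obtain ⟨a', ha', rfl⟩ := Finset.mem_smul_finset.1 (Finset.mem_coe.1 ha)
      obtain ⟨b', hb', rfl⟩ := Finset.mem_smul_finset.1 (Finset.mem_coe.1 hb)
      exact (hΓ.graph γ⁻¹ a' b').2 (hc (Finset.mem_coe.2 ha') (Finset.mem_coe.2 hb')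
        fun e => hab (by rw [e]))
    have e3 := h3 _ _ hσ' hc' _ hv' (u⁻¹ * g * D.j γ)
    rw [hΓ.nb γ⁻¹ v x (hσ hv)] at e3
    have eR : u⁻¹ * (g * D.R v) * D.j γ = u⁻¹ * g * D.j γ * D.R (γ⁻¹ • v) := by
      rw [mul_assoc (u⁻¹ * g), D.jR, smul_inv_smul]
      group
    have eB : u⁻¹ * (g * D.B v) * D.j γ = u⁻¹ * g * D.j γ * D.B (γ⁻¹ • v) := by
      rw [mul_assoc (u⁻¹ * g), D.jB, smul_inv_smul]
      group
    simp only [Np, Nm] at e3 ⊢
    rw [h', h' σ x (g * D.R v), h' σ x (g * D.B v), eR, eB]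
    linear_combination (s (γ⁻¹ • σ) : ℂ) * e3

theorem inv_Ch (D : GD C Γ G) (hΓ : IsGeom Γ C) (K : Cut Γ X) (ν : V → ℕ) (T : ℂ) (i : ℕ) :
    (dimD D hΓ K ν).Inv (Ch D T i) := by
  intro q f
  constructor
  · intro hf
    exact hh76_rel D hΓ q.1 q.2 (sgi ν q.1) (hh76_ev_U D hΓ K ν q f) hf
  · intro hf
    refine hh76_rel D hΓ q.1⁻¹ q.2⁻¹ (fun σ => sgi ν q.1 (q.1⁻¹ • σ)) ?_ hf
    intro σ x g
    have h := hh76_ev_U D hΓ K ν q f (q.1⁻¹ • σ) (q.1⁻¹ • x) (q.2⁻¹ * g * (D.j q.1⁻¹)⁻¹)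
    rw [smul_inv_smul, smul_inv_smul, map_inv, inv_inv,
      show q.2 * (q.2⁻¹ * g * D.j q.1) * (D.j q.1)⁻¹ = g by group] at h
    rw [map_inv, inv_inv, h, ← mul_assoc, sgn_mul (hh76_sgi_sq ν q.1 _), one_mul]

end Pool.Agent.H19.LI
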