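import Pool.Agent.H19.LI.CovE2
import Pool.Agent.H19.LI.VnC

/-!
# Project LI: harmonic chains of `C` give harmonic twisted chains

`C` is simply connected, so there are `m_x` in `ℓ²(G)` with `m_x (g z) = - m_x g`, `m_{x₁} = δ_1 - δ_z` and
`m_{nb v x} = r_v(T) m_x` for `v ∈ lab x` (`r_v(T) = T⁻¹ N⁺ + T N⁻` is a unitary involution for `|T| = 1`, and `r_u`, `r_v`
commute for adjacent `u`, `v`). Put `F (σ, x, g) = f σ x * m_x g`. For `y` in `Ch D T (i + 1)` the function
`y' σ x = ⟨m_x, y (σ, x, ·)⟩` is an `ℓ²`-chain of `C` and `⟨F, d y⟩ = ⟨f, bd y'⟩`.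
-/

set_option autoImplicit false

open Finset

namespace Pool.Agent.H19.LI

open Pool.Agent.H19.Cub Pool.Agent.H4.Singer

variable {V X : Type} [DecidableEq V] {C : CubeComplex V X} {Γ G : Type} [Group Γ]
  [MulAction Γ V] [Group G]

/-! ### the operators `r_v` -/

/-- right translation -/
private noncomputable def trl (b : G) : L2 G ≃ₗᵢ[ℂ] L2 G :=
  reix (Equiv.mulRight b) (fun _ => 1) fun _ => rfl

private theorem trl_apply (b : G) (m : L2 G) (g : G) : trl b m g = m (g * b) := by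
  unfold trl
  rw [reix_apply, Int.cast_one, one_mul]
  rfl

private theorem trl_trl (b c : G) (m : L2 G) : trl b (trl c m) = trl (b * c) m := by
  ext g
  rw [trl_apply, trl_apply, trl_apply, mul_assoc]

private theorem trl_one (m : L2 G) : trl (1 : G) m = m := by
  ext g
  rw [trl_apply, mul_one]

/-- the real numbers `cos θ`, `sin θ` with `T = exp (i θ)` -/
private noncomputable def al (T : ℂ) : ℂ := (T + T⁻¹) / 2

private noncomputable def be (T : ℂ) : ℂ := Complex.I * (T⁻¹ - T) / 2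

private theorem al_be (T : ℂ) (hT : T ≠ 0) : al T * al T + be T * be T = 1 := by
  unfold al be
  have h := Complex.I_mul_I
  field_simp
  linear_combination (1 - T ^ 2) ^ 2 * h

private theorem inv_eq_conj {T : ℂ} (hT : ‖T‖ = 1) : T⁻¹ = (starRingEnd ℂ) T := by
  rw [Complex.inv_def, Complex.normSq_eq_norm_sq, hT]
  simp

private theorem conj_al {T : ℂ} (hT : ‖T‖ = 1) : (starRingEnd ℂ) (al T) = al T := by
  unfold al
  rw [inv_eq_conj hT, map_div₀, map_add, Complex.conj_conj, map_ofNat]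
  ring

private theorem conj_be {T : ℂ} (hT : ‖T‖ = 1) : (starRingEnd ℂ) (be T) = be T := by
  unfold be
  rw [inv_eq_conj hT, map_div₀, map_mul, map_sub, Complex.conj_conj, Complex.conj_I, map_ofNat]
  ring

section

variable (D : GD C Γ G) (T : ℂ)

/-- `r_v(T)` -/
private noncomputable def rv (v : V) (m : L2 G) : L2 G :=
  al T • trl (D.R v) m + be T • trl (D.B v) m

private theorem rv_apply (v : V) (m : L2 G) (g : G) :
    rv D T v m g = al T * m (g * D.R v) + be T * m (g * D.B v) := by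
  show al T * (trl (D.R v) m g) + be T * (trl (D.B v) m g) = _
  rw [trl_apply, trl_apply]

private theorem rv_two (hT : T ≠ 0) (v : V) (m : L2 G) (g : G) :
    2 * T * rv D T v m g = Np D (m : G → ℂ) v g + T ^ 2 * Nm D (m : G → ℂ) v g := by
  rw [rv_apply]
  unfold al be Np Nm
  field_simp
  ring

private def An (m : L2 G) : Prop := ∀ g, m (g * D.z) = - m g

private theorem an_rv (v : V) (m : L2 G) (h : An D m) : An D (rv D T v m) := by
  intro g
  rw [rv_apply, rv_apply, mul_assoc, D.zR, mul_assoc g, D.zB, ← mul_assoc, ← mul_assoc, h, h]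
  ring

private theorem trl_R (v : V) (m : L2 G) : trl (D.R v) (trl (D.R v) m) = m := by
  rw [trl_trl, D.RR, trl_one]

private theorem trl_B (v : V) (m : L2 G) : trl (D.B v) (trl (D.B v) m) = m := by
  rw [trl_trl, D.BB, trl_one]

private theorem rv_rv (hT : T ≠ 0) (v : V) (m : L2 G) (h : An D m) : rv D T v (rv D T v m) = m := by
  ext g
  have e1 : g * D.R v * D.R v = g := by rw [mul_assoc, D.RR, mul_one]
  have e2 : g * D.B v * D.B v = g := by rw [mul_assoc, D.BB, mul_one]
  have e3 : m (g * D.R v * D.B v) = - m (g * D.B v * D.R v) := by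
    have h1 : g * D.R v * D.B v = g * D.B v * D.R v * D.z := by
      rw [mul_assoc, D.RB, mul_assoc g, mul_assoc g, mul_assoc (D.B v), ← D.zR,
        ← mul_assoc (D.B v), ← D.zB, mul_assoc D.z]
    rw [h1, h]
  rw [rv_apply, rv_apply, rv_apply, e1, e2, e3]
  linear_combination (m g) * al_be T hT

private theorem rv_comm {u v : V} (huv : C.graph.Adj u v) (m : L2 G) :
    rv D T u (rv D T v m) = rv D T v (rv D T u m) := by
  ext g
  have e1 : g * D.R u * D.R v = g * D.R v * D.R u := by rw [mul_assoc, D.cRR u v huv, mul_assoc]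
  have e2 : g * D.B u * D.B v = g * D.B v * D.B u := by rw [mul_assoc, D.cBB u v huv, mul_assoc]
  have e3 : g * D.R u * D.B v = g * D.B v * D.R u := by rw [mul_assoc, D.cRB u v huv, mul_assoc]
  have e4 : g * D.R v * D.B u = g * D.B u * D.R v := by
    rw [mul_assoc, D.cRB v u huv.symm, mul_assoc]
  rw [rv_apply, rv_apply, rv_apply, rv_apply, rv_apply, rv_apply, e1, e2, e3, e4]
  ring

private theorem inner_trl {b : G} (hb : b * b = 1) (m n : L2 G) :
    inner ℂ (trl b m) n = inner ℂ m (trl b n) := by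
  have h : n = trl b (trl b n) := by rw [trl_trl, hb, trl_one]
  conv_lhs => rw [h]
  exact (trl b).inner_map_map _ _

private theorem inner_rv (hT : ‖T‖ = 1) (v : V) (m n : L2 G) :
    inner ℂ (rv D T v m) n = inner ℂ m (rv D T v n) := by
  unfold rv
  rw [inner_add_left, inner_add_right, inner_smul_left, inner_smul_left, inner_smul_right,
    inner_smul_right, conj_al hT, conj_be hT, inner_trl (D.RR v), inner_trl (D.BB v)]

private theorem norm_rv (hT : ‖T‖ = 1) (v : V) (m : L2 G) (h : An D m) :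
    ‖rv D T v m‖ = ‖m‖ := by
  have hT0 : T ≠ 0 := by
    rintro rfl
    simp at hT
  have h1 : inner ℂ (rv D T v m) (rv D T v m) = inner ℂ m m := by
    rw [inner_rv D T hT, rv_rv D T hT0 v m h]
  rw [inner_self_eq_norm_sq_to_K, inner_self_eq_norm_sq_to_K] at h1
  have h2 : ‖rv D T v m‖ ^ 2 = ‖m‖ ^ 2 := by exact_mod_cast h1
  exact (sq_eq_sq₀ (norm_nonneg _) (norm_nonneg _)).1 h2

end

private theorem an_start (D : GD C Γ G) : An D (ee 1 - ee D.z : L2 G) := by
  intro g
  show (ee (1 : G) : L2 G) (g * D.z) - (ee D.z : L2 G) (g * D.z) =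
    - ((ee (1 : G) : L2 G) g - (ee D.z : L2 G) g)
  have hz1 : g * D.z = 1 ↔ g = D.z := by
    constructor
    · intro h
      have h1 : g * D.z * D.z = D.z := by rw [h, one_mul]
      rwa [mul_assoc, D.zz, mul_one] at h1
    · rintro rfl
      exact D.zz
  have hz2 : g * D.z = D.z ↔ g = 1 := by
    constructor
    · intro h
      exact mul_eq_right.1 h
    · rintro rfl
      exact one_mul _
  by_cases h1 : g = 1
  · subst h1
    rw [ee_apply_self, one_mul, ee_apply_self, ee_apply_ne D.z_ne, ee_apply_ne D.z_ne.symm]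
    ring
  · by_cases h2 : g = D.z
    · subst h2
      rw [D.zz, ee_apply_self, ee_apply_self, ee_apply_ne D.z_ne, ee_apply_ne D.z_ne.symm]
      ring
    · rw [ee_apply_ne (fun h => h2 (hz1.1 h)), ee_apply_ne (fun h => h1 (hz2.1 h)),
        ee_apply_ne h1, ee_apply_ne h2]
      ring

private theorem norm_start (D : GD C Γ G) : ‖(ee 1 - ee D.z : L2 G)‖ ^ 2 = 2 := by
  rw [@norm_sub_sq ℂ, norm_ee, norm_ee, inner_ee, ee_apply_ne D.z_ne.symm]
  norm_num

/-- **Harmonic chains give twisted harmonic chains.** -/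
theorem cover_end (hC : IsCAT0 C) (D : GD C Γ G) (ν : V → ℕ) (T : ℂ) (hT : ‖T‖ = 1) (i : ℕ)
    (d : L2 (Jx C × G) →L[ℂ] L2 (Jx C × G)) (hd : IsBd ν d) (N : ℕ)
    (hN : ∀ x, (C.lab x).card ≤ N) (f : Finset V → X → ℂ) (hf : IsChain C i f)
    (hz : bd C ν f = 0)
    (ho : ∀ y, IsChain C (i + 1) y →
      ∑' p : Finset V × X, (starRingEnd ℂ) (f p.1 p.2) * bd C ν y p.1 p.2 = 0)
    (σ₁ : Finset V) (x₁ : X) :
    ∃ F : L2 (Jx C × G), F ∈ Ch D T i ∧ d F = 0 ∧
      (∀ y ∈ Ch D T (i + 1), inner ℂ (d y) F = 0) ∧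
      ‖F‖ ^ 2 = 2 * ∑' p : Finset V × X, ‖f p.1 p.2‖ ^ 2 ∧ ev F σ₁ x₁ 1 = f σ₁ x₁ := by
  have hT0 : T ≠ 0 := by
    rintro rfl
    simp at hT
  -- the vectors `m_x`
  obtain ⟨m, hm1, hmP, hmr⟩ := exists_transport hC
    (fun m : L2 G => An D m ∧ ‖m‖ ^ 2 = 2) (fun v m => rv D T v m)
    (fun v a h => ⟨an_rv D T v a h.1, by rw [norm_rv D T hT v a h.1, h.2]⟩)
    (fun v a h => rv_rv D T hT0 v a h.1) (fun u v a huv _ => rv_comm D T huv a) x₁
    (ee 1 - ee D.z) ⟨an_start D, norm_start D⟩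
  -- `f` vanishes outside `Jx`
  have hf0 : ∀ σ x, ¬ σ ⊆ C.lab x → f σ x = 0 := by
    intro σ x h
    by_contra h0
    exact h (hf.supp σ x h0).1
  have hinj : Function.Injective (Subtype.val : Jx C → Finset V × X) := Subtype.val_injective
  -- the chain
  have hmS : ∀ x, HasSum (fun g => ‖m x g‖ ^ 2) 2 := by
    intro x
    have h1 := (hmP x).2
    rw [norm_sq_eq] at h1
    have h2 := (sum_sq (m x)).hasSum
    rwa [h1] at h2
  have hfS : Summable fun p : Jx C => ‖f p.1.1 p.1.2‖ ^ 2 := hf.l2.comp_injective hinj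
  have hrow : ∀ p : Jx C, HasSum (fun g => ‖f p.1.1 p.1.2 * m p.1.2 g‖ ^ 2)
      (‖f p.1.1 p.1.2‖ ^ 2 * 2) := by
    intro p
    have h := (hmS p.1.2).mul_left (‖f p.1.1 p.1.2‖ ^ 2)
    refine h.congr_fun fun g => ?_
    rw [norm_mul, mul_pow]
  have hFS : Summable fun s : Jx C × G => ‖f s.1.1.1 s.1.1.2 * m s.1.1.2 s.2‖ ^ 2 := by
    rw [summable_prod_of_nonneg (fun s => sq_nonneg _)]
    refine ⟨fun p => (hrow p).summable, ?_⟩
    refine (hfS.mul_right 2).congr fun p => ?_
    exact (hrow p).tsum_eq.symm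
  let F : L2 (Jx C × G) := mk2 (fun s => f s.1.1.1 s.1.1.2 * m s.1.1.2 s.2) hFS
  have hF : ∀ p g, F (p, g) = f p.1.1 p.1.2 * m p.1.2 g := fun p g => rfl
  have hFev : ∀ σ x g, ev F σ x g = f σ x * m x g := by
    intro σ x g
    by_cases h : σ ⊆ C.lab x
    · rw [ev_pos _ h]
      rfl
    · rw [ev_neg _ h, hf0 σ x h, zero_mul]
  refine ⟨F, ⟨?_, ?_, ?_⟩, ?_, ?_, ?_, ?_⟩
  · -- antisymmetry
    intro p g
    rw [hF, hF, (hmP _).1 g]
    ring
  · -- support
    intro p g h
    have h1 : f p.1.1 p.1.2 ≠ 0 := by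
      intro h0
      apply h
      rw [hF, h0, zero_mul]
    exact (hf.supp _ _ h1).2
  · -- twisted chain
    intro σ x hσ _ v hv g
    have h1 : ev F σ (C.nb v x) g = - (f σ x * rv D T v (m x) g) := by
      rw [hFev, hf.anti σ x hσ v hv, hmr v x (hσ hv)]
      ring
    have h2 := rv_two D T hT0 v (m x) g
    have h3 : Np D (ev F σ x) v g = f σ x * Np D (m x : G → ℂ) v g := by
      unfold Np
      rw [hFev, hFev]
      ring
    have h4 : Nm D (ev F σ x) v g = f σ x * Nm D (m x : G → ℂ) v g := by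
      unfold Nm
      rw [hFev, hFev]
      ring
    rw [h1, h3, h4]
    linear_combination (- f σ x) * h2
  · -- cycle
    ext s
    obtain ⟨⟨⟨τ, x⟩, hτ⟩, g⟩ := s
    have h1 := hd F τ x g
    rw [ev_pos _ hτ, if_pos hτ] at h1
    show (d F) (⟨(τ, x), hτ⟩, g) = 0
    rw [h1]
    have h2 : bd C ν f τ x = 0 := by
      rw [hz]
      rfl
    unfold bd at h2
    have h3 : ∑ v ∈ C.lab x \ τ, (sv ν v τ : ℂ) * ev F (insert v τ) x g =
        (∑ v ∈ C.lab x \ τ, (sv ν v τ : ℂ) * f (insert v τ) x) * m x g := by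
      rw [Finset.sum_mul]
      refine Finset.sum_congr rfl fun v _ => ?_
      rw [hFev]
      ring
    rw [h3, h2, zero_mul]
  · -- orthogonal to the boundaries
    intro y hy
    obtain ⟨hy1, hy2, hy3⟩ := hy
    have hyS := (summable_prod_of_nonneg (f := fun s : Jx C × G => ‖y s‖ ^ 2)
      (fun s => sq_nonneg _)).1 (sum_sq y)
    have hYS : ∀ σ x, Summable fun g => ‖ev y σ x g‖ ^ 2 := by
      intro σ x
      by_cases h : σ ⊆ C.lab x
      · refine (hyS.1 ⟨(σ, x), h⟩).congr fun g => ?_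
        rw [ev_pos _ h]
      · refine summable_zero.congr fun g => ?_
        rw [ev_neg _ h]
        simp
    let Y : Finset V → X → L2 G := fun σ x => mk2 (fun g => ev y σ x g) (hYS σ x)
    have hY : ∀ σ x g, Y σ x g = ev y σ x g := fun _ _ _ => rfl
    have hYan : ∀ σ x, An D (Y σ x) := by
      intro σ x g
      rw [hY, hY]
      by_cases h : σ ⊆ C.lab x
      · rw [ev_pos _ h, ev_pos _ h, hy1]
      · rw [ev_neg _ h, ev_neg _ h, neg_zero]
    have hYsupp : ∀ σ x, Y σ x ≠ 0 →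
        σ ⊆ C.lab x ∧ C.graph.IsClique (σ : Set V) ∧ σ.card = i + 1 := by
      intro σ x h
      by_cases hσ : σ ⊆ C.lab x
      · refine ⟨hσ, ?_⟩
        by_contra h0
        apply h
        ext g
        show ev y σ x g = 0
        rw [ev_pos _ hσ]
        by_contra h1
        exact h0 (hy2 _ g h1)
      · exfalso
        apply h
        ext g
        show ev y σ x g = 0
        rw [ev_neg _ hσ]
    have hYnb : ∀ σ x, σ ⊆ C.lab x → C.graph.IsClique (σ : Set V) → ∀ v ∈ σ,
        Y σ (C.nb v x) = - rv D T v (Y σ x) := by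
      intro σ x hσ hc v hv
      ext g
      show ev y σ (C.nb v x) g = - (rv D T v (Y σ x) g)
      have h1 := hy3 σ x hσ hc v hv g
      have h2 := rv_two D T hT0 v (Y σ x) g
      have h3 : Np D (Y σ x : G → ℂ) v g = Np D (ev y σ x) v g := rfl
      have h4 : Nm D (Y σ x : G → ℂ) v g = Nm D (ev y σ x) v g := rfl
      rw [h3, h4] at h2
      have h5 : (2 * T) * ev y σ (C.nb v x) g = (2 * T) * (- (rv D T v (Y σ x) g)) := by
        linear_combination h1 + h2
      exact mul_left_cancel₀ (mul_ne_zero two_ne_zero hT0) h5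
    let y' : Finset V → X → ℂ := fun σ x => inner ℂ (m x) (Y σ x)
    have hy' : ∀ σ x, y' σ x = inner ℂ (m x) (Y σ x) := fun _ _ => rfl
    have hy'0 : ∀ σ x, Y σ x = 0 → y' σ x = 0 := by
      intro σ x h
      rw [hy', h, inner_zero_right]
    have hchain : IsChain C (i + 1) y' := by
      refine ⟨fun σ x h => ?_, fun σ x hσ v hv => ?_, ?_⟩
      · exact hYsupp σ x fun h0 => h (hy'0 σ x h0)
      · by_cases hc : C.graph.IsClique (σ : Set V)
        · rw [hy', hy', hYnb σ x hσ hc v hv, hmr v x (hσ hv), inner_neg_right, inner_rv D T hT,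
            rv_rv D T hT0 v _ (hYan σ x)]
        · have h1 : ∀ x, Y σ x = 0 := by
            intro x
            by_contra h0
            exact hc (hYsupp σ x h0).2.1
          rw [hy'0 σ _ (h1 _), hy'0 σ _ (h1 _), neg_zero]
      · have h1 : Summable fun p : Finset V × X => ‖Y p.1 p.2‖ ^ 2 := by
          rw [← hinj.summable_iff]
          · refine hyS.2.congr fun p => ?_
            rw [Function.comp, norm_sq_eq]
            refine tsum_congr fun g => ?_
            rw [hY, ev_pos _ p.2]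
          · intro p hp
            have h2 : Y p.1 p.2 = 0 := by
              by_contra h0
              exact hp ⟨⟨p, (hYsupp _ _ h0).1⟩, rfl⟩
            rw [h2]
            simp
        refine Summable.of_nonneg_of_le (fun p => sq_nonneg _) (fun p => ?_) (h1.mul_left 2)
        rw [hy', ← (hmP p.2).2, ← mul_pow]
        exact pow_le_pow_left₀ (norm_nonneg _) (norm_inner_le_norm _ _) 2
    have hend := ho y' hchain
    -- the scalar product
    have hin := lp.hasSum_inner (𝕜 := ℂ) (G := fun _ : Jx C × G => ℂ) (d y) F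
    rw [← hin.tsum_eq, hin.summable.tsum_prod]
    have hp : ∀ p : Jx C, ∑' g, inner ℂ ((d y) (p, g)) (F (p, g)) =
        (starRingEnd ℂ) ((starRingEnd ℂ) (f p.1.1 p.1.2) * bd C ν y' p.1.1 p.1.2) := by
      rintro ⟨⟨τ, x⟩, hτ⟩
      have h1 : bd C ν y' τ x =
          inner ℂ (m x) (∑ v ∈ C.lab x \ τ, (sv ν v τ : ℂ) • Y (insert v τ) x) := by
        unfold bd
        rw [inner_sum]
        refine Finset.sum_congr rfl fun v _ => ?_
        rw [inner_smul_right]
      have h2 : ∀ g, (d y) (⟨(τ, x), hτ⟩, g) =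
          (∑ v ∈ C.lab x \ τ, (sv ν v τ : ℂ) • Y (insert v τ) x : L2 G) g := by
        intro g
        have h3 := hd y τ x g
        rw [ev_pos _ hτ, if_pos hτ] at h3
        rw [h3, lp.coeFn_sum, Finset.sum_apply]
        refine Finset.sum_congr rfl fun v _ => ?_
        show _ = (sv ν v τ : ℂ) * Y (insert v τ) x g
        rw [hY]
      have h4 := (lp.hasSum_inner (𝕜 := ℂ) (G := fun _ : G => ℂ) (m x)
        (∑ v ∈ C.lab x \ τ, (sv ν v τ : ℂ) • Y (insert v τ) x)).tsum_eq
      show _ = (starRingEnd ℂ) ((starRingEnd ℂ) (f τ x) * bd C ν y' τ x)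
      rw [h1, ← h4, map_mul, Complex.conj_conj, Complex.conj_tsum, ← tsum_mul_left]
      refine tsum_congr fun g => ?_
      rw [h2, hF]
      simp only [RCLike.inner_apply, map_mul, Complex.conj_conj]
      ring
    rw [tsum_congr hp, ← Complex.conj_tsum]
    have h6 : ∑' p : Jx C, (starRingEnd ℂ) (f p.1.1 p.1.2) * bd C ν y' p.1.1 p.1.2 = 0 := by
      rw [← hend]
      refine hinj.tsum_eq
        (f := fun p : Finset V × X => (starRingEnd ℂ) (f p.1 p.2) * bd C ν y' p.1 p.2)
        fun p hp => ?_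
      refine ⟨⟨p, ?_⟩, rfl⟩
      by_contra h0
      apply hp
      show (starRingEnd ℂ) (f p.1 p.2) * bd C ν y' p.1 p.2 = 0
      rw [hf0 _ _ h0, map_zero, zero_mul]
    rw [h6, map_zero]
  · -- norm
    have e1 : ‖F‖ ^ 2 = ∑' s : Jx C × G, ‖f s.1.1.1 s.1.1.2 * m s.1.1.2 s.2‖ ^ 2 := norm_sq_eq F
    rw [e1, hFS.tsum_prod, tsum_congr (fun p => (hrow p).tsum_eq), tsum_mul_right, mul_comm]
    congr 1
    refine hinj.tsum_eq (f := fun p : Finset V × X => ‖f p.1 p.2‖ ^ 2) fun p hp => ?_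
    refine ⟨⟨p, ?_⟩, rfl⟩
    by_contra h0
    apply hp
    show ‖f p.1 p.2‖ ^ 2 = 0
    rw [hf0 _ _ h0]
    simp
  · rw [hFev, hm1]
    show f σ₁ x₁ * ((ee (1 : G) : L2 G) 1 - (ee D.z : L2 G) 1) = f σ₁ x₁
    rw [ee_apply_self, ee_apply_ne D.z_ne.symm, sub_zero, mul_one]

end Pool.Agent.H19.LI
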