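import Pool.Agent.H19.LI.Ops

/-!
# Project LI: transport in a simply connected cube complex
-/

set_option autoImplicit false

open Finset

namespace Pool.Agent.H19.LI

open Pool.Agent.H19.Cub Pool.Agent.H4.Singer

variable {V X : Type} [DecidableEq V] {C : CubeComplex V X}

section Transport

variable {A : Type} (P : A → Prop) (r : V → A → A)

/-- transport along a path -/
private def h83t_tr (r : V → A → A) (l : List V) (a : A) : A := l.foldl (fun b v => r v b) a

omit [DecidableEq V] in
private theorem h83t_append (l l' : List V) (a : A) :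
    h83t_tr r (l ++ l') a = h83t_tr r l' (h83t_tr r l a) := by
  unfold h83t_tr
  rw [List.foldl_append]

omit [DecidableEq V] in
private theorem h83t_P (hP : ∀ v a, P a → P (r v a)) (l : List V) : ∀ a, P a → P (h83t_tr r l a) := by
  induction l with
  | nil => exact fun a ha => ha
  | cons v l ih => exact fun a ha => ih _ (hP v a ha)

omit [DecidableEq V] in
private theorem h83t_step {Gr : SimpleGraph V} (hP : ∀ v a, P a → P (r v a))
    (h2 : ∀ v a, P a → r v (r v a) = a)
    (hc : ∀ u v a, Gr.Adj u v → P a → r u (r v a) = r v (r u a)) {l l' : List V}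
    (h : Step Gr l l') (a : A) (ha : P a) : h83t_tr r l a = h83t_tr r l' a := by
  cases h with
  | back b c v =>
    rw [h83t_append, h83t_append]
    have h3 := h83t_P P r hP b a ha
    show h83t_tr r c (r v (r v (h83t_tr r b a))) = _
    rw [h2 v _ h3]
  | square b c u v huv =>
    rw [h83t_append, h83t_append]
    have h3 := h83t_P P r hP b a ha
    show h83t_tr r c (r v (r u (h83t_tr r b a))) = h83t_tr r c (r u (r v (h83t_tr r b a)))
    rw [hc u v _ huv h3]

end Transport

/-- transport in a simply connected cube complex -/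
theorem exists_transport (hC : IsCAT0 C) {A : Type} (P : A → Prop) (r : V → A → A)
    (hP : ∀ v a, P a → P (r v a)) (h2 : ∀ v a, P a → r v (r v a) = a)
    (hc : ∀ u v a, C.graph.Adj u v → P a → r u (r v a) = r v (r u a)) (x₁ : X) (a₁ : A)
    (h1 : P a₁) :
    ∃ m : X → A, m x₁ = a₁ ∧ (∀ x, P (m x)) ∧ ∀ v x, v ∈ C.lab x → m (C.nb v x) = r v (m x) := by
  classical
  obtain ⟨hinj, hsurj⟩ := hC x₁
  let F : C.Cover x₁ → A := Quot.lift (fun l => h83t_tr r l.1 a₁)
    fun l l' h => h83t_step P r hP h2 hc h a₁ h1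
  have hF : ∀ l : {l : List V // C.IsPath x₁ l}, F (Quot.mk _ l) = h83t_tr r l.1 a₁ :=
    fun _ => rfl
  choose g hg using hsurj
  refine ⟨fun x => F (g x), ?_, fun x => ?_, fun v x hv => ?_⟩
  · have h3 : g x₁ = Quot.mk _ ⟨[], trivial⟩ := hinj (by rw [hg]; rfl)
    show F (g x₁) = a₁
    rw [h3]
    rfl
  · show P (F (g x))
    induction g x using Quot.ind with
    | mk l =>
      rw [hF]
      exact h83t_P P r hP l.1 a₁ h1
  · show F (g (C.nb v x)) = r v (F (g x))
    obtain ⟨l, hl⟩ := Quot.exists_rep (g x)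
    have hx : C.fin x₁ l.1 = x := by
      have h3 := hg x
      rw [← hl] at h3
      exact h3
    have hv' : v ∈ C.lab (C.fin x₁ l.1) := by rw [hx]; exact hv
    have h4 : g (C.nb v x) =
        Quot.mk _ ⟨l.1 ++ [v], (C.isPath_append x₁ l.1 [v]).2 ⟨l.2, hv', trivial⟩⟩ := by
      refine hinj ?_
      rw [hg]
      show C.nb v x = C.fin x₁ (l.1 ++ [v])
      rw [CubeComplex.fin_append, hx]
      rfl
    rw [h4, ← hl, hF, hF, h83t_append]
    rfl

end Pool.Agent.H19.LI
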