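import Pool.Agent.H19.Cub.Stmt
import Pool.Agent.H4.Singer.TopDefs

/-!
# Project LI: definitions used in the statement

Cube complexes with labelled edges and infinitely many labels and vertices, geometric actions, `ℓ²`-chains.
A CAT(0) cube complex is a cube complex whose labels are its hyperplanes and which is connected and simply
connected.
-/

set_option autoImplicit false

open Finset

namespace Pool.Agent.H19.LI

open Pool.Agent.H19.Cub

variable {V X : Type} [DecidableEq V]

/-- `C` is connected and simply connected: the projections of the universal covers are bijective -/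
def IsCAT0 (C : CubeComplex V X) : Prop := ∀ x, Function.Bijective (C.proj x)

/-- The group `Γ` acts on `C` (on the labels and on the vertices) by automorphisms, properly and
cocompactly. -/
structure IsGeom (Γ : Type) [Group Γ] [MulAction Γ V] [MulAction Γ X] (C : CubeComplex V X) :
    Prop where
  graph : ∀ (g : Γ) u v, C.graph.Adj (g • u) (g • v) ↔ C.graph.Adj u v
  lab : ∀ (g : Γ) v x, g • v ∈ C.lab (g • x) ↔ v ∈ C.lab x
  nb : ∀ (g : Γ) v x, v ∈ C.lab x → C.nb (g • v) (g • x) = g • C.nb v x
  cocompact : ∃ F : Finset X, ∀ x, ∃ g : Γ, g • x ∈ F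
  proper : ∀ x : X, {g : Γ | g • x = x}.Finite

/-- `ℓ²`-chains of degree `i` -/
structure IsChain (C : CubeComplex V X) (i : ℕ) (f : Finset V → X → ℂ) : Prop where
  supp : ∀ σ x, f σ x ≠ 0 → σ ⊆ C.lab x ∧ C.graph.IsClique (σ : Set V) ∧ σ.card = i
  anti : ∀ σ x, σ ⊆ C.lab x → ∀ v ∈ σ, f σ (C.nb v x) = - f σ x
  l2 : Summable fun p : Finset V × X => ‖f p.1 p.2‖ ^ 2

/-- the sign of a new element -/
def sv (ν : V → ℕ) (v : V) (τ : Finset V) : ℤ := (-1) ^ (τ.filter fun u => ν u < ν v).card

/-- the cellular boundary; the signs come from the order of the labels by `ν` -/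
def bd (C : CubeComplex V X) (ν : V → ℕ) (f : Finset V → X → ℂ) (τ : Finset V) (x : X) : ℂ :=
  ∑ v ∈ C.lab x \ τ, (sv ν v τ : ℂ) * f (insert v τ) x

/-- The reduced `ℓ²`-homology vanishes in degree `i`: every `ℓ²`-cycle of degree `i` is a limit of
boundaries of `ℓ²`-chains. -/
def L2Zero (C : CubeComplex V X) (i : ℕ) : Prop :=
  ∀ ν : V → ℕ, Function.Injective ν → ∀ z, IsChain C i z → bd C ν z = 0 → ∀ ε : ℝ, 0 < ε →
    ∃ y, IsChain C (i + 1) y ∧
      (Summable fun p : Finset V × X => ‖z p.1 p.2 - bd C ν y p.1 p.2‖ ^ 2) ∧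
      ∑' p : Finset V × X, ‖z p.1 p.2 - bd C ν y p.1 p.2‖ ^ 2 < ε

/-- the graph on the labels at `x`; its flag complex is the link of `x` -/
abbrev lk (C : CubeComplex V X) (x : X) : SimpleGraph {v // v ∈ C.lab x} :=
  C.graph.comap (Subtype.val : {v // v ∈ C.lab x} → V)

end Pool.Agent.H19.LI
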