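import Pool.Agent.H19.LI.ChInv
import Pool.Agent.H19.LI.DimCh2

/-!
# Project LI: the dimension of the chain spaces

Let `p = (σ, x)` with `σ` a clique with `i` elements. On the vectors `f` with `f (p, g z) = - f (p, g)` which are
supported on the pairs `(σ, y)` (`σ ⊆ lab y`) let `J v` (`v ∈ σ`) be the involution `f ↦ - r_v(T) f (nb v ·)` if `|T| = 1`
(`r_v(T) = T⁻¹ N⁺ + T N⁻`), and `J v = - S v`, `S v = i R v B v`, if `T = 0` (`N⁺ = R (1 + S) / 2`, so
`N⁺ m = 0` iff `S m = - m`). These are commuting selfadjoint unitary involutions and the chains supported on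
`σ` are their common fixed vectors. For `A ⊆ σ` let `P_A` be the projection onto the common fixed vectors of the
`J v`, `v ∈ A`; then `P_{A ∪ v} = (1 + J v) / 2 * P_A`. The operator `L = S v` (if `|T| = 1`) or `L = R v` (if
`T = 0`) is, up to a phase, right multiplication by an element of `G`; it anticommutes with `J v` and
commutes with `J u`, `u ≠ v`, so `L* (J v P_A) L = - J v P_A`; as `J v P_A` commutes with the left
multiplications all its diagonal coefficients at `(σ, x, ·)` agree, hence they are 0. So the diagonal coefficients of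
`P_A` are `2 ^ (-|A|) / 2`.
-/

set_option autoImplicit false

open Finset

namespace Pool.Agent.H19.LI

open Pool.Agent.H19.Cub Pool.Agent.H4.Singer

variable {V X : Type} [DecidableEq V] {C : CubeComplex V X} {Γ G : Type} [Group Γ]
  [MulAction Γ V] [MulAction Γ X] [Group G]

open Classical in
theorem norm_proj_Ch (D : GD C Γ G) (T : ℂ) (hT : T = 0 ∨ ‖T‖ = 1) (i : ℕ) (p : Jx C) (g : G) :
    ‖(Ch D T i).topologicalClosure.starProjection (ee (p, g))‖ ^ 2 =
      if C.graph.IsClique (p.1.1 : Set V) ∧ p.1.1.card = i then (1 / 2 : ℝ) ^ (i + 1) else 0 :=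
  DimCh_main D T hT i p g

/-- the dimension does not depend on `T` -/
theorem dm_Ch (D : GD C Γ G) (hΓ : IsGeom Γ C) (K : Cut Γ X) (ν : V → ℕ) (T : ℂ) (hT : ‖T‖ = 1)
    (i : ℕ) : (dimD D hΓ K ν).dm (Ch D T i) = (dimD D hΓ K ν).dm (Ch D 0 i) := by
  unfold Dm.dm
  refine sum_congr rfl fun s _ => ?_
  obtain ⟨p, g⟩ := s
  rw [norm_proj_Ch D T (Or.inr hT), norm_proj_Ch D 0 (Or.inl rfl)]

end Pool.Agent.H19.LI
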