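import Pool.Agent.H19.LI.Ops
import Pool.Agent.H4.Singer.Levels

/-!
# Project LI: the auxiliary group exists

`W` = right-angled Coxeter group of `C.graph` (all labels), `Y = W × Bool × Finset V`, `G = Equiv.Perm Y`,
`R v (w, c, a) = (w v, c, a ∆ {v})`, `B v (w, c, a) = (w, xor c (v ∈ a), a)`, `z (w, c, a) = (w, !c, a)`,
`j γ (w, c, a) = (γ w, c, γ a)` (`γ` acts on `W` by `γ (w v) = γ w * (γ v)`); `κ x g` = the image under the
retraction `W → RGrp (lk C x)` (generators outside `lab x` go to 1) of the first component of `g⁻¹ (1, false, ∅)`.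
-/

set_option autoImplicit false

open Finset
open scoped Pointwise symmDiff

namespace Pool.Agent.H19.LI

open Pool.Agent.H19.Cub Pool.Agent.H4.Singer

variable {V X : Type} [DecidableEq V] {C : CubeComplex V X} {Γ : Type} [Group Γ]
  [MulAction Γ V] [MulAction Γ X]

/-- the set on which the auxiliary group acts -/
private abbrev gdY (H : SimpleGraph V) : Type := RGrp H × Bool × Finset V

private noncomputable def gdR0 (H : SimpleGraph V) (v : V) (p : gdY H) : gdY H :=
  (p.1 * gen H v, p.2.1, p.2.2 ∆ {v})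

private def gdB0 (H : SimpleGraph V) (v : V) (p : gdY H) : gdY H :=
  (p.1, xor p.2.1 (decide (v ∈ p.2.2)), p.2.2)

private def gdz0 (H : SimpleGraph V) (p : gdY H) : gdY H := (p.1, !p.2.1, p.2.2)

private theorem gdR_inv (H : SimpleGraph V) (v : V) : Function.Involutive (gdR0 H v) := by
  rintro ⟨w, c, a⟩
  simp only [gdR0, mul_assoc, gen_mul_gen, mul_one]
  rw [symmDiff_assoc, symmDiff_self]
  simp

private theorem gdB_inv (H : SimpleGraph V) (v : V) : Function.Involutive (gdB0 H v) := by
  rintro ⟨w, c, a⟩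
  by_cases h : v ∈ a <;> cases c <;> simp [gdB0, h]

omit [DecidableEq V] in
private theorem gdz_inv (H : SimpleGraph V) : Function.Involutive (gdz0 H) := by
  rintro ⟨w, c, a⟩
  simp [gdz0]

private noncomputable def gdR (H : SimpleGraph V) (v : V) : Equiv.Perm (gdY H) := (gdR_inv H v).toPerm
private def gdB (H : SimpleGraph V) (v : V) : Equiv.Perm (gdY H) := (gdB_inv H v).toPerm
private def gdz (H : SimpleGraph V) : Equiv.Perm (gdY H) := (gdz_inv H).toPerm

private theorem gd_mem_self (v : V) (a : Finset V) : v ∈ a ∆ {v} ↔ v ∉ a := by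
  simp [Finset.mem_symmDiff]

private theorem gd_mem_ne {u v : V} (h : v ≠ u) (a : Finset V) : v ∈ a ∆ {u} ↔ v ∈ a := by
  simp [Finset.mem_symmDiff, h]

theorem exists_GD (hΓ : IsGeom Γ C) : ∃ (G : Type) (_ : Group G), Nonempty (GD C Γ G) := by
  classical
  -- the action on the Coxeter group
  have hα : ∀ γ : Γ, ∃ φ : RGrp C.graph →* RGrp C.graph, ∀ v, φ (gen C.graph v) =
      gen C.graph (γ • v) := fun γ =>
    exists_lift C.graph (fun v => gen C.graph (γ • v)) (fun v => gen_mul_gen _ _)
      (fun u v h => gen_comm _ _ _ ((hΓ.graph γ u v).2 h))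
  choose α hα using hα
  have hext : ∀ φ ψ : RGrp C.graph →* RGrp C.graph,
      (∀ v, φ (gen C.graph v) = ψ (gen C.graph v)) → φ = ψ := fun φ ψ h =>
    (racg C.graph).toCoxeterSystem.ext_simple h
  have hα1 : α 1 = MonoidHom.id _ := hext _ _ fun v => by
    rw [hα, one_smul, MonoidHom.id_apply]
  have hαm : ∀ g h, α (g * h) = (α g).comp (α h) := fun g h => hext _ _ fun v => by
    rw [hα, MonoidHom.comp_apply, hα, hα, mul_smul]
  -- the retractions
  have hr : ∀ x : X, ∃ r : RGrp C.graph →* RGrp (lk C x), ∀ v (h : v ∈ C.lab x),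
      r (gen C.graph v) = gen (lk C x) ⟨v, h⟩ := by
    intro x
    obtain ⟨r, hr⟩ := exists_lift C.graph
      (fun v => if h : v ∈ C.lab x then gen (lk C x) ⟨v, h⟩ else 1)
      (fun v => by
        by_cases h : v ∈ C.lab x
        · simp only [dif_pos h]; exact gen_mul_gen _ _
        · simp only [dif_neg h, mul_one])
      (fun u v huv => by
        by_cases h : u ∈ C.lab x
        · by_cases h' : v ∈ C.lab x
          · simp only [dif_pos h, dif_pos h']
            exact gen_comm _ _ _ huv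
          · simp only [dif_neg h', mul_one, one_mul]
        · simp only [dif_neg h, mul_one, one_mul])
    exact ⟨r, fun v h => by rw [hr, dif_pos h]⟩
  choose r hr using hr
  let f : Γ →* Function.End (gdY C.graph) :=
    { toFun := fun γ p => (α γ p.1, p.2.1, γ • p.2.2)
      map_one' := by
        funext p
        show (α 1 p.1, p.2.1, (1 : Γ) • p.2.2) = p
        rw [hα1, one_smul]
        rfl
      map_mul' := fun g h => by
        funext p
        show (α (g * h) p.1, p.2.1, (g * h) • p.2.2) = (α g (α h p.1), p.2.1, g • (h • p.2.2))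
        rw [hαm, mul_smul]
        rfl }
  let j : Γ →* Equiv.Perm (gdY C.graph) := f.toHomPerm
  have hj : ∀ γ p, j γ p = (α γ p.1, p.2.1, γ • p.2.2) := fun γ p => rfl
  refine ⟨Equiv.Perm (gdY C.graph), inferInstance, ⟨{
    R := gdR C.graph
    B := gdB C.graph
    z := gdz C.graph
    j := j
    zz := ?_
    z_ne := ?_
    RR := ?_
    BB := ?_
    RB := ?_
    zR := ?_
    zB := ?_
    zj := ?_
    cRR := ?_
    cRB := ?_
    cBB := ?_
    jR := ?_
    jB := ?_
    κ := fun x g => r x ((g⁻¹ (1, false, ∅)).1)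
    κ_mul := ?_ }⟩⟩
  · ext1 p
    exact gdz_inv C.graph p
  · intro h
    have := congrArg (fun e : Equiv.Perm (gdY C.graph) => (e (1, false, ∅)).2.1) h
    exact Bool.noConfusion (this : (!false) = false)
  · intro v
    ext1 p
    exact gdR_inv C.graph v p
  · intro v
    ext1 p
    exact gdB_inv C.graph v p
  · rintro v
    ext1 ⟨w, c, a⟩
    show gdR0 C.graph v (gdB0 C.graph v (w, c, a)) =
      gdz0 C.graph (gdB0 C.graph v (gdR0 C.graph v (w, c, a)))
    simp only [gdR0, gdB0, gdz0, gd_mem_self]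
    refine Prod.ext rfl (Prod.ext ?_ rfl)
    by_cases h : v ∈ a <;> cases c <;> simp [h]
  · intro v
    ext1 ⟨w, c, a⟩
    rfl
  · intro v
    ext1 ⟨w, c, a⟩
    show gdz0 C.graph (gdB0 C.graph v (w, c, a)) = gdB0 C.graph v (gdz0 C.graph (w, c, a))
    simp only [gdB0, gdz0]
    refine Prod.ext rfl (Prod.ext ?_ rfl)
    by_cases h : v ∈ a <;> cases c <;> simp [h]
  · intro g
    ext1 ⟨w, c, a⟩
    rfl
  · intro u v h
    ext1 ⟨w, c, a⟩
    show gdR0 C.graph u (gdR0 C.graph v (w, c, a)) = gdR0 C.graph v (gdR0 C.graph u (w, c, a))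
    simp only [gdR0, mul_assoc]
    rw [gen_comm _ _ _ h, symmDiff_assoc, symmDiff_assoc, symmDiff_comm ({u} : Finset V) {v}]
  · intro u v h
    ext1 ⟨w, c, a⟩
    show gdR0 C.graph u (gdB0 C.graph v (w, c, a)) = gdB0 C.graph v (gdR0 C.graph u (w, c, a))
    simp only [gdR0, gdB0, gd_mem_ne h.ne']
  · intro u v h
    ext1 ⟨w, c, a⟩
    show gdB0 C.graph u (gdB0 C.graph v (w, c, a)) = gdB0 C.graph v (gdB0 C.graph u (w, c, a))
    simp only [gdB0]
    refine Prod.ext rfl (Prod.ext ?_ rfl)
    by_cases h : v ∈ a <;> by_cases h' : u ∈ a <;> cases c <;> simp [h, h']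
  · intro g v
    ext1 ⟨w, c, a⟩
    show (α g (w * gen C.graph v), c, g • (a ∆ {v})) = gdR0 C.graph (g • v) (α g w, c, g • a)
    simp only [gdR0, map_mul, hα, Finset.smul_finset_symmDiff, Finset.smul_finset_singleton]
  · intro g v
    ext1 ⟨w, c, a⟩
    show (α g w, xor c (decide (v ∈ a)), g • a) = gdB0 C.graph (g • v) (α g w, c, g • a)
    simp only [gdB0, Finset.smul_mem_smul_finset_iff]
  · intro x g v
    have h : (g * gdR C.graph v.1 * gdB C.graph v.1)⁻¹ (1, false, ∅) =
        gdB0 C.graph v.1 (gdR0 C.graph v.1 (g⁻¹ (1, false, ∅))) := by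
      rw [mul_inv_rev, mul_inv_rev]
      rfl
    simp only [h]
    show r x ((g⁻¹ (1, false, ∅)).1 * gen C.graph v.1) = _
    rw [map_mul, hr x v.1 v.2]

end Pool.Agent.H19.LI
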