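import Pool.Agent.H19.LI.Bd
import Pool.Agent.H19.LI.BdCh

/-!
# Project LI: the Hodge decomposition on `C`

The `ℓ²`-chains of `C` are a closed subspace of `L2 (Jx C × Unit)`; `d` from `exists_bd`, `d d = 0` by `bd_bd`. An `ℓ²`-cycle
is the sum of a limit of boundaries and of a cycle orthogonal to all boundaries, which is 0 by `h`.
-/

set_option autoImplicit false

open Finset

namespace Pool.Agent.H19.LI

open Pool.Agent.H19.Cub

variable {V X : Type} [DecidableEq V]

/-- the labels of a cube are labels at the other end of each of its edges -/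
private theorem h60_sub_nb (C : CubeComplex V X) (σ : Finset V) (x : X) (hσ : σ ⊆ C.lab x)
    (hc : C.graph.IsClique (σ : Set V)) (v : V) (hv : v ∈ σ) : σ ⊆ C.lab (C.nb v x) := by
  intro u hu
  by_cases huv : u = v
  · subst huv
    exact C.lab_nb u x (hσ hu)
  · exact C.lab_adj u v x (hc (by exact_mod_cast hu) (by exact_mod_cast hv) huv) (hσ hu) (hσ hv)

/-- the index of a basis vector -/
private def h60_e (C : CubeComplex V X) (s : Jx C × Unit) : Finset V × X := s.1.1

private theorem h60_e_inj (C : CubeComplex V X) : Function.Injective (h60_e C) := by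
  rintro ⟨p, a⟩ ⟨q, b⟩ h
  have h1 : p.1 = q.1 := h
  have h2 : p = q := Subtype.ext h1
  have h3 : a = b := rfl
  rw [h2, h3]

private theorem h60_not_range (C : CubeComplex V X) (p : Finset V × X)
    (h : p ∉ Set.range (h60_e C)) : ¬ p.1 ⊆ C.lab p.2 :=
  fun h1 => h ⟨(⟨p, h1⟩, ()), rfl⟩

/-- the function of a vector -/
private noncomputable def h60_fn {C : CubeComplex V X} (w : L2 (Jx C × Unit)) :
    Finset V → X → ℂ := fun σ x => ev w σ x ()

private theorem h60_fn_zero_of {C : CubeComplex V X} (w : L2 (Jx C × Unit)) (σ : Finset V)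
    (x : X) (h : ¬ σ ⊆ C.lab x) : h60_fn w σ x = 0 := ev_neg _ h _

private theorem h60_fn_e {C : CubeComplex V X} (w : L2 (Jx C × Unit)) (s : Jx C × Unit) :
    h60_fn w (h60_e C s).1 (h60_e C s).2 = w s := by
  obtain ⟨⟨⟨σ, x⟩, h⟩, a⟩ := s
  exact ev_pos w h ()

private theorem h60_fn_sum {C : CubeComplex V X} (w : L2 (Jx C × Unit)) :
    Summable fun p : Finset V × X => ‖h60_fn w p.1 p.2‖ ^ 2 := by
  refine ((h60_e_inj C).summable_iff ?_).1 ?_
  · intro p hp
    rw [h60_fn_zero_of w _ _ (h60_not_range C p hp)]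
    norm_num
  · refine (sum_sq w).congr fun s => ?_
    simp only [Function.comp]
    rw [h60_fn_e]

private theorem h60_fn_tsum {C : CubeComplex V X} (w : L2 (Jx C × Unit)) :
    ∑' p : Finset V × X, ‖h60_fn w p.1 p.2‖ ^ 2 = ‖w‖ ^ 2 := by
  rw [norm_sq_eq, ← (h60_e_inj C).tsum_eq]
  · refine tsum_congr fun s => ?_
    rw [h60_fn_e]
  · intro p hp
    by_contra h
    refine hp ?_
    show ‖h60_fn w p.1 p.2‖ ^ 2 = 0
    rw [h60_fn_zero_of w _ _ (h60_not_range C p h)]
    norm_num

/-- the vector of a function -/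
private theorem h60_vec_sum {C : CubeComplex V X} (f : Finset V → X → ℂ)
    (hf : Summable fun p : Finset V × X => ‖f p.1 p.2‖ ^ 2) :
    Summable fun s : Jx C × Unit => ‖f s.1.1.1 s.1.1.2‖ ^ 2 :=
  hf.comp_injective (h60_e_inj C)

private noncomputable def h60_vec (C : CubeComplex V X) (f : Finset V → X → ℂ)
    (hf : Summable fun p : Finset V × X => ‖f p.1 p.2‖ ^ 2) : L2 (Jx C × Unit) :=
  mk2 (fun s : Jx C × Unit => f s.1.1.1 s.1.1.2) (h60_vec_sum f hf)

private theorem h60_fn_vec (C : CubeComplex V X) (f : Finset V → X → ℂ)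
    (hf : Summable fun p : Finset V × X => ‖f p.1 p.2‖ ^ 2)
    (h0 : ∀ σ x, f σ x ≠ 0 → σ ⊆ C.lab x) : h60_fn (h60_vec C f hf) = f := by
  funext σ x
  by_cases h : σ ⊆ C.lab x
  · exact ev_pos _ h ()
  · rw [h60_fn_zero_of _ _ _ h]
    by_contra h1
    exact h (h0 σ x fun h2 => h1 h2.symm)

private theorem h60_ext {C : CubeComplex V X} (w w' : L2 (Jx C × Unit))
    (h : h60_fn w = h60_fn w') : w = w' := by
  ext s
  rw [← h60_fn_e, ← h60_fn_e w', h]

/-- the boundary of the function of a vector -/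
private theorem h60_bd {C : CubeComplex V X} (ν : V → ℕ)
    (d : L2 (Jx C × Unit) →L[ℂ] L2 (Jx C × Unit)) (hd : IsBd ν d) (w : L2 (Jx C × Unit)) :
    bd C ν (h60_fn w) = h60_fn (d w) := by
  funext τ x
  show _ = ev (d w) τ x ()
  rw [hd w τ x ()]
  by_cases h : τ ⊆ C.lab x
  · rw [if_pos h]
    rfl
  · rw [if_neg h]
    refine Finset.sum_eq_zero fun v hv => ?_
    rw [h60_fn_zero_of w _ _ fun h1 => h ((Finset.subset_insert v τ).trans h1), mul_zero]

private theorem h60_bd_chain (C : CubeComplex V X) (ν : V → ℕ) (i : ℕ) (y : Finset V → X → ℂ)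
    (hy : IsChain C (i + 1) y)
    (hs : Summable fun p : Finset V × X => ‖bd C ν y p.1 p.2‖ ^ 2) :
    IsChain C i (bd C ν y) := by
  classical
  refine ⟨?_, ?_, hs⟩
  · intro τ x h0
    obtain ⟨v, hv, hne⟩ := Finset.exists_ne_zero_of_sum_ne_zero h0
    have h1 : y (insert v τ) x ≠ 0 := fun h => hne (by rw [h, mul_zero])
    obtain ⟨ha, hc, hcard⟩ := hy.supp _ _ h1
    have hvτ : v ∉ τ := (Finset.mem_sdiff.1 hv).2
    rw [Finset.card_insert_of_notMem hvτ] at hcard
    refine ⟨(Finset.subset_insert v τ).trans ha, hc.subset (by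
      intro a ha
      exact_mod_cast Finset.mem_insert_of_mem (by exact_mod_cast ha)), by omega⟩
  · intro τ x hτ v hv
    have hsupp : ∀ x', ∑ u ∈ C.lab x' \ τ, (sv ν u τ : ℂ) * y (insert u τ) x' =
        ∑ u ∈ (C.lab x' \ τ).filter
          (fun u => C.graph.IsClique ((insert u τ : Finset V) : Set V)),
          (sv ν u τ : ℂ) * y (insert u τ) x' := by
      intro x'
      rw [Finset.sum_filter]
      refine Finset.sum_congr rfl fun u _ => ?_
      by_cases h : C.graph.IsClique ((insert u τ : Finset V) : Set V)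
      · rw [if_pos h]
      · rw [if_neg h]
        have h0 : y (insert u τ) x' = 0 := by
          by_contra h1
          exact h (hy.supp _ _ h1).2.1
        rw [h0, mul_zero]
    have hset : (C.lab (C.nb v x) \ τ).filter
        (fun u => C.graph.IsClique ((insert u τ : Finset V) : Set V)) =
        (C.lab x \ τ).filter (fun u => C.graph.IsClique ((insert u τ : Finset V) : Set V)) := by
      ext u
      simp only [Finset.mem_filter, Finset.mem_sdiff]
      constructor
      · rintro ⟨⟨h1, h2⟩, h3⟩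
        refine ⟨⟨?_, h2⟩, h3⟩
        have hc : C.graph.IsClique (τ : Set V) := h3.subset (by
          intro a ha
          exact_mod_cast Finset.mem_insert_of_mem (by exact_mod_cast ha))
        have hτ' : τ ⊆ C.lab (C.nb v x) := h60_sub_nb C τ x hτ hc v hv
        have hsub : insert u τ ⊆ C.lab (C.nb v x) := Finset.insert_subset h1 hτ'
        have h4 := h60_sub_nb C (insert u τ) (C.nb v x) hsub h3 v (Finset.mem_insert_of_mem hv)
          (Finset.mem_insert_self _ _)
        rwa [C.nb_nb v x (hτ hv)] at h4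
      · rintro ⟨⟨h1, h2⟩, h3⟩
        refine ⟨⟨?_, h2⟩, h3⟩
        have hsub : insert u τ ⊆ C.lab x := Finset.insert_subset h1 hτ
        exact h60_sub_nb C (insert u τ) x hsub h3 v (Finset.mem_insert_of_mem hv)
          (Finset.mem_insert_self _ _)
    show ∑ u ∈ C.lab (C.nb v x) \ τ, (sv ν u τ : ℂ) * y (insert u τ) (C.nb v x) =
      - ∑ u ∈ C.lab x \ τ, (sv ν u τ : ℂ) * y (insert u τ) x
    rw [hsupp, hsupp, hset, ← Finset.sum_neg_distrib]
    refine Finset.sum_congr rfl fun u hu => ?_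
    rw [Finset.mem_filter, Finset.mem_sdiff] at hu
    rw [hy.anti (insert u τ) x (Finset.insert_subset hu.1.1 hτ) v (Finset.mem_insert_of_mem hv)]
    ring

/-- the chains in `L2` -/
private noncomputable def h60_Ch (C : CubeComplex V X) (i : ℕ) :
    Submodule ℂ (L2 (Jx C × Unit)) where
  carrier := {w | IsChain C i (h60_fn w)}
  zero_mem' := by
    refine ⟨fun σ x h => absurd (ev_zero σ x ()) h, fun σ x _ v _ => ?_, h60_fn_sum 0⟩
    show ev (0 : L2 (Jx C × Unit)) σ _ () = - ev (0 : L2 (Jx C × Unit)) σ x ()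
    rw [ev_zero, ev_zero, neg_zero]
  add_mem' := by
    rintro f g hf hg
    refine ⟨fun σ x h => ?_, fun σ x hσ v hv => ?_, h60_fn_sum _⟩
    · by_cases h1 : h60_fn f σ x = 0
      · by_cases h2 : h60_fn g σ x = 0
        · refine absurd ?_ h
          show ev (f + g) σ x () = 0
          rw [ev_add]
          show h60_fn f σ x + h60_fn g σ x = 0
          rw [h1, h2, add_zero]
        · exact hg.supp σ x h2
      · exact hf.supp σ x h1
    · have e1 := hf.anti σ x hσ v hv
      have e2 := hg.anti σ x hσ v hv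
      show ev (f + g) σ _ () = - ev (f + g) σ x ()
      rw [ev_add, ev_add]
      have e1' : ev f σ (C.nb v x) () = - ev f σ x () := e1
      have e2' : ev g σ (C.nb v x) () = - ev g σ x () := e2
      rw [e1', e2']
      ring
  smul_mem' := by
    rintro c f hf
    refine ⟨fun σ x h => ?_, fun σ x hσ v hv => ?_, h60_fn_sum _⟩
    · refine hf.supp σ x fun h1 => h ?_
      show ev (c • f) σ x () = 0
      have h1' : ev f σ x () = 0 := h1
      rw [ev_smul, h1', mul_zero]
    · have e1 : ev f σ (C.nb v x) () = - ev f σ x () := hf.anti σ x hσ v hv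
      show ev (c • f) σ _ () = - ev (c • f) σ x ()
      rw [ev_smul, ev_smul, e1]
      ring

private theorem h60_cont_ev {C : CubeComplex V X} (σ : Finset V) (x : X) :
    Continuous fun w : L2 (Jx C × Unit) => ev w σ x () := by
  by_cases h : σ ⊆ C.lab x
  · have : (fun w : L2 (Jx C × Unit) => ev w σ x ()) = fun w => w (⟨(σ, x), h⟩, ()) := by
      funext w
      exact ev_pos w h ()
    rw [this]
    exact (continuous_apply ((⟨(σ, x), h⟩, ()) : Jx C × Unit)).comp
      (lp.uniformContinuous_coe).continuous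
  · have : (fun w : L2 (Jx C × Unit) => ev w σ x ()) = fun _ => 0 := by
      funext w
      exact ev_neg w h ()
    rw [this]
    exact continuous_const

private theorem h60_Ch_closed (C : CubeComplex V X) (i : ℕ) :
    IsClosed (h60_Ch C i : Set (L2 (Jx C × Unit))) := by
  have h : (h60_Ch C i : Set (L2 (Jx C × Unit))) =
      (⋂ (σ : Finset V) (x : X) (_ : ¬ (σ ⊆ C.lab x ∧ C.graph.IsClique (σ : Set V) ∧
        σ.card = i)), {w | ev w σ x () = 0}) ∩
      (⋂ (σ : Finset V) (x : X) (_ : σ ⊆ C.lab x) (v : V) (_ : v ∈ σ),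
        {w | ev w σ (C.nb v x) () = - ev w σ x ()}) := by
    ext w
    simp only [Set.mem_inter_iff, Set.mem_iInter, Set.mem_ofPred_eq]
    constructor
    · intro hw
      have hw' : IsChain C i (h60_fn w) := hw
      refine ⟨fun σ x h => ?_, fun σ x hσ v hv => hw'.anti σ x hσ v hv⟩
      by_contra h1
      exact h (hw'.supp σ x h1)
    · rintro ⟨h1, h2⟩
      refine ⟨fun σ x h => ?_, fun σ x hσ v hv => h2 σ x hσ v hv, h60_fn_sum w⟩
      by_contra h3
      exact h (h1 σ x h3)
  rw [h]
  refine IsClosed.inter ?_ ?_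
  · exact isClosed_iInter fun σ => isClosed_iInter fun x => isClosed_iInter fun _ =>
      isClosed_eq (h60_cont_ev σ x) continuous_const
  · exact isClosed_iInter fun σ => isClosed_iInter fun x => isClosed_iInter fun _ =>
      isClosed_iInter fun v => isClosed_iInter fun _ =>
      isClosed_eq (h60_cont_ev σ _) (h60_cont_ev σ x).neg

private theorem h60_inner {C : CubeComplex V X} (w u : L2 (Jx C × Unit)) :
    ∑' p : Finset V × X, (starRingEnd ℂ) (h60_fn w p.1 p.2) * h60_fn u p.1 p.2 =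
      inner ℂ w u := by
  rw [lp.inner_eq_tsum, ← (h60_e_inj C).tsum_eq]
  · refine tsum_congr fun s => ?_
    rw [h60_fn_e, h60_fn_e, RCLike.inner_apply, mul_comm]
  · intro p hp
    by_contra h
    refine hp ?_
    show (starRingEnd ℂ) (h60_fn w p.1 p.2) * h60_fn u p.1 p.2 = 0
    rw [h60_fn_zero_of u _ _ (h60_not_range C p h), mul_zero]

theorem l2zero_of_harm (C : CubeComplex V X) (N : ℕ) (hN : ∀ x, (C.lab x).card ≤ N) (i : ℕ)
    (h : ∀ ν : V → ℕ, Function.Injective ν → ∀ f, IsChain C i f → bd C ν f = 0 →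
      (∀ y, IsChain C (i + 1) y →
        ∑' p : Finset V × X, (starRingEnd ℂ) (f p.1 p.2) * bd C ν y p.1 p.2 = 0) → f = 0) :
    L2Zero C i := by
  intro ν hν z hz hz0 ε hε
  obtain ⟨d, hd⟩ := exists_bd C Unit ν N hN
  have hzc : h60_fn (h60_vec C z hz.l2) = z := h60_fn_vec C z hz.l2 fun σ x h1 => (hz.supp σ x h1).1
  set Z : L2 (Jx C × Unit) := h60_vec C z hz.l2 with hZ
  have hdZ : d Z = 0 := by
    refine h60_ext _ _ ?_
    rw [← h60_bd ν d hd, hzc, hz0]
    funext σ x
    exact (ev_zero σ x ()).symm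
  have hZc : Z ∈ h60_Ch C i := by
    show IsChain C i (h60_fn Z)
    rw [hzc]
    exact hz
  -- the boundaries
  set B : Submodule ℂ (L2 (Jx C × Unit)) := (h60_Ch C (i + 1)).map (d : L2 (Jx C × Unit) →ₗ[ℂ] L2 (Jx C × Unit)) with hB
  have hBc : B ≤ h60_Ch C i := by
    rintro _ ⟨y, hy, rfl⟩
    show IsChain C i (h60_fn (d y))
    rw [← h60_bd ν d hd]
    refine h60_bd_chain C ν i _ hy ?_
    rw [h60_bd ν d hd]
    exact h60_fn_sum _
  have hBd : B ≤ LinearMap.ker (d : L2 (Jx C × Unit) →ₗ[ℂ] L2 (Jx C × Unit)) := by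
    rintro _ ⟨y, hy, rfl⟩
    exact bd_bd ν hν d hd y
  have hBc' : B.topologicalClosure ≤ h60_Ch C i :=
    Submodule.topologicalClosure_minimal _ hBc (h60_Ch_closed C i)
  have hBd' : B.topologicalClosure ≤
      LinearMap.ker (d : L2 (Jx C × Unit) →ₗ[ℂ] L2 (Jx C × Unit)) :=
    Submodule.topologicalClosure_minimal _ hBd d.isClosed_ker
  set b : L2 (Jx C × Unit) := B.topologicalClosure.starProjection Z with hb
  have hbB : b ∈ B.topologicalClosure := Submodule.starProjection_apply_mem _ _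
  have hw : Z - b ∈ B.topologicalClosureᗮ := Submodule.sub_starProjection_mem_orthogonal _
  set w : L2 (Jx C × Unit) := Z - b with hwd
  have hwc : w ∈ h60_Ch C i := Submodule.sub_mem _ hZc (hBc' hbB)
  have hdw : d w = 0 := by
    have h1 : d b = 0 := hBd' hbB
    rw [hwd, map_sub, hdZ, h1, sub_zero]
  have hw0 : h60_fn w = 0 := by
    refine h ν hν _ hwc ?_ fun y hy => ?_
    · rw [h60_bd ν d hd, hdw]
      funext σ x
      exact ev_zero σ x ()
    · have hyc : h60_fn (h60_vec C y hy.l2) = y :=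
        h60_fn_vec C y hy.l2 fun σ x h1 => (hy.supp σ x h1).1
      have h2 : bd C ν y = h60_fn (d (h60_vec C y hy.l2)) := by
        rw [← h60_bd ν d hd, hyc]
      rw [h2, h60_inner]
      have h3 : d (h60_vec C y hy.l2) ∈ B.topologicalClosure := by
        refine B.le_topologicalClosure ⟨h60_vec C y hy.l2, ?_, rfl⟩
        show IsChain C (i + 1) (h60_fn (h60_vec C y hy.l2))
        rw [hyc]
        exact hy
      rw [← inner_conj_symm, Submodule.mem_orthogonal _ _ |>.1 hw _ h3, map_zero]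
  have hZb : Z = b := by
    have h1 : w = 0 := by
      refine h60_ext _ _ ?_
      rw [hw0]
      funext σ x
      exact (ev_zero σ x ()).symm
    exact sub_eq_zero.1 h1
  have hZB : Z ∈ closure (B : Set (L2 (Jx C × Unit))) := by
    have h1 : Z ∈ B.topologicalClosure := hZb ▸ hbB
    exact h1
  obtain ⟨u, huB, hu⟩ := Metric.mem_closure_iff.1 hZB (Real.sqrt ε) (Real.sqrt_pos.2 hε)
  obtain ⟨Y, hY, rfl⟩ := huB
  have hY' : IsChain C (i + 1) (h60_fn Y) := hY
  have hfun : (fun p : Finset V × X => ‖z p.1 p.2 - bd C ν (h60_fn Y) p.1 p.2‖ ^ 2) =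
      fun p : Finset V × X => ‖h60_fn (Z - d Y) p.1 p.2‖ ^ 2 := by
    funext p
    rw [h60_bd ν d hd]
    have h1 : h60_fn (Z - d Y) p.1 p.2 = z p.1 p.2 - h60_fn (d Y) p.1 p.2 := by
      have h2 : Z - d Y = Z + (-1 : ℂ) • d Y := by
        rw [neg_one_smul, sub_eq_add_neg]
      show ev (Z - d Y) p.1 p.2 () = _
      rw [h2, ev_add, ev_smul]
      have h3 : ev Z p.1 p.2 () = z p.1 p.2 := congrFun (congrFun hzc p.1) p.2
      rw [h3]
      show z p.1 p.2 + -1 * h60_fn (d Y) p.1 p.2 = _
      ring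
    rw [h1]
  refine ⟨h60_fn Y, hY', ?_, ?_⟩
  · rw [hfun]
    exact h60_fn_sum _
  · rw [hfun, h60_fn_tsum]
    have h1 : ‖Z - d Y‖ < Real.sqrt ε := by
      rw [← dist_eq_norm]
      exact hu
    calc ‖Z - d Y‖ ^ 2 < Real.sqrt ε ^ 2 := by
          exact pow_lt_pow_left₀ h1 (norm_nonneg _) two_ne_zero
      _ = ε := Real.sq_sqrt hε.le

end Pool.Agent.H19.LI
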