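import Pool.Agent.H19.LI.Ops

/-!
# Project LI: concrete semicontinuity
-/

set_option autoImplicit false

open Finset

namespace Pool.Agent.H19.LI

open Pool.Agent.H19.Cub Pool.Agent.H4.Singer

variable {V X : Type} [DecidableEq V] {C : CubeComplex V X} {Γ G : Type} [Group Γ]
  [MulAction Γ V] [Group G]

/-- `ev` as a linear map -/
noncomputable def evL {κ : Type} (σ : Finset V) (x : X) (k : κ) : L2 (Jx C × κ) →ₗ[ℂ] ℂ where
  toFun f := ev f σ x k
  map_add' f f' := ev_add f f' σ x k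
  map_smul' c f := ev_smul c f σ x k

theorem ev_sum {κ : Type} {n : ℕ} (c : Fin n → ℂ) (f : Fin n → L2 (Jx C × κ)) (σ : Finset V)
    (x : X) (k : κ) : ev (∑ j, c j • f j) σ x k = ∑ j, c j * ev (f j) σ x k := by
  show evL σ x k (∑ j, c j • f j) = ∑ j, c j * evL σ x k (f j)
  rw [map_sum]
  refine sum_congr rfl fun j _ => ?_
  rw [map_smul, smul_eq_mul]

theorem ev_mk {κ : Type} (f : L2 (Jx C × κ)) (p : Jx C) (k : κ) :
    f (p, k) = ev f p.1.1 p.1.2 k := (ev_pos f p.2 k).symm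

/-- twisted cycles -/
noncomputable def Zy (D : GD C Γ G) (d : L2 (Jx C × G) →L[ℂ] L2 (Jx C × G)) (T : ℂ) (i : ℕ) :
    Submodule ℂ (L2 (Jx C × G)) :=
  Ch D T i ⊓ LinearMap.ker (d : L2 (Jx C × G) →ₗ[ℂ] L2 (Jx C × G))

theorem mem_Zy (D : GD C Γ G) (d : L2 (Jx C × G) →L[ℂ] L2 (Jx C × G)) (T : ℂ) (i : ℕ)
    (f : L2 (Jx C × G)) : f ∈ Zy D d T i ↔ f ∈ Ch D T i ∧ d f = 0 := Iff.rfl

theorem semi_mem (D : GD C Γ G) (d : L2 (Jx C × G) →L[ℂ] L2 (Jx C × G)) (i : ℕ) {k : ℕ}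
    (T : Fin k → ℂ) (a : ℕ) (ha : a + 2 < k) (f : Fin k → L2 (Jx C × G))
    (hf : ∀ j, f j ∈ Zy D d (T j) i)
    (h0 : ∀ b, a < b → b < k → ∑ j, T j ^ b • f j = 0) :
    ∑ j, T j ^ a • f j ∈ Zy D d 0 i := by
  refine ⟨⟨fun p g => ?_, fun p g h => ?_, fun σ x hσ hc v hv g => ?_⟩, ?_⟩
  · rw [ev_mk, ev_mk, ev_sum, ev_sum, ← sum_neg_distrib]
    refine sum_congr rfl fun j _ => ?_
    have h1 := (hf j).1.1 p g
    rw [ev_mk, ev_mk] at h1
    rw [h1, mul_neg]
  · rw [ev_mk, ev_sum] at h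
    obtain ⟨j, -, hj⟩ := exists_ne_zero_of_sum_ne_zero h
    refine (hf j).1.2.1 p g ?_
    rw [ev_mk]
    exact right_ne_zero_of_mul hj
  · have e1 : ∑ j, T j ^ a * (2 * T j * ev (f j) σ (C.nb v x) g +
        (Np D (ev (f j) σ x) v g + T j ^ 2 * Nm D (ev (f j) σ x) v g)) = 0 := by
      refine sum_eq_zero fun j _ => ?_
      rw [(hf j).1.2.2 σ x hσ hc v hv g]
      ring
    have e2 : ∀ b, ∀ σ' x' g', a < b → b < k → ∑ j, T j ^ b * ev (f j) σ' x' g' = 0 := by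
      intro b σ' x' g' hb hb'
      rw [← ev_sum, h0 b hb hb', ev_zero]
    have e3 : Np D (ev (∑ j, T j ^ a • f j) σ x) v g = ∑ j, T j ^ a * Np D (ev (f j) σ x) v g := by
      simp only [Np, ev_sum, mul_add, sum_add_distrib, mul_sum]
      congr 1
      refine sum_congr rfl fun j _ => ?_
      ring
    have e4 : ∑ j, T j ^ (a + 2) * Nm D (ev (f j) σ x) v g = 0 := by
      have h1 := e2 (a + 2) σ x (g * D.R v) (by omega) ha
      have h2 := e2 (a + 2) σ x (g * D.B v) (by omega) ha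
      have h3 : ∑ j, T j ^ (a + 2) * Nm D (ev (f j) σ x) v g =
          ∑ j, T j ^ (a + 2) * ev (f j) σ x (g * D.R v) -
            Complex.I * ∑ j, T j ^ (a + 2) * ev (f j) σ x (g * D.B v) := by
        rw [mul_sum, ← sum_sub_distrib]
        refine sum_congr rfl fun j _ => ?_
        unfold Nm
        ring
      rw [h3, h1, h2, mul_zero, sub_zero]
    have e5 := e2 (a + 1) σ (C.nb v x) g (by omega) (by omega)
    have e6 : ∑ j, T j ^ a * (2 * T j * ev (f j) σ (C.nb v x) g +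
        (Np D (ev (f j) σ x) v g + T j ^ 2 * Nm D (ev (f j) σ x) v g)) =
        2 * ∑ j, T j ^ (a + 1) * ev (f j) σ (C.nb v x) g +
          (∑ j, T j ^ a * Np D (ev (f j) σ x) v g +
            ∑ j, T j ^ (a + 2) * Nm D (ev (f j) σ x) v g) := by
      rw [mul_sum, ← sum_add_distrib, ← sum_add_distrib]
      refine sum_congr rfl fun j _ => ?_
      ring
    rw [e6, e5, e4, ← e3] at e1
    linear_combination e1
  · show d (∑ j, T j ^ a • f j) = 0
    rw [map_sum]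
    refine sum_eq_zero fun j _ => ?_
    have hd : d (f j) = 0 := (hf j).2
    rw [map_smul, hd, smul_zero]

end Pool.Agent.H19.LI
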