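import Pool.Agent.H19.LI.Ops
import Pool.Agent.H19.LG.HarmZero

/-!
# Project LI: the degenerate complex

Let `f` be in `Ch D 0 i`, i.e. `S v f (σ, x) = - f (σ, x)` for `v ∈ σ`, where `(S v m) g = i m (g R_v B_v)`
(`Np = 0` iff `(1 + S v) m = 0`, replace `g` by `g R_v`), `d f = 0`, and orthogonal to all boundaries.
(1) For `x`, `σ'` put `ξ = ∑_{v ∈ σ'} ± (1 - S v) f (σ' \ v, x)`, a function on `G` with `S u ξ = - ξ` for `u ∈ σ'`.
The chain `Y` with the value `ξ` at `(σ', x)` and `0` elsewhere is in `Ch D 0 (i + 1)`, and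
`0 = 2 ⟨f, d Y⟩ = ⟨ξ, ξ⟩`, since `⟨(1 + S v) f, ξ⟩ = ⟨f, (1 + S v) ξ⟩ = 0`. So `ξ = 0`.
(2) There are `θ : W → G` and phases `p : W → ℂ` (`W` the right-angled Coxeter group of `lk C x`) with `θ 1 = 1`, `p 1 = 1`,
`κ x (g θ_w) = κ x g * w`, and `p_{w v} m (g θ_{w v}) = p_w (S v m) (g θ_w)` for all `m` with `m (g z) = - m g` (the involutions
`S v` define an action of `W`). For fixed `g` the function `F σ' w = p_w f (σ', x, g θ_w)` is an `ℓ²`-chain of the Davis
complex (`w ↦ g θ_w` is injective), a cycle, and `∑ ± (F (σ' \ v) w - F (σ' \ v) (w v)) = 0` by (1).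
(3) `L2HomologyZero` implies `F = 0` (see `H19/LG/HarmZero.lean` and `H85/LG/Bridge.lean`), so `f = 0`.
-/

set_option autoImplicit false

open Finset

namespace Pool.Agent.H19.LI

open Pool.Agent.H19.Cub Pool.Agent.H4.Singer

variable {V X : Type} [DecidableEq V] {C : CubeComplex V X} {Γ G : Type} [Group Γ]
  [MulAction Γ V] [Group G]

/-! ### harmonic chains of the Davis complex -/

private theorem Star_harm {U : Type} [Fintype U] [DecidableEq U] (H : SimpleGraph U) (i : ℕ)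
    (h : Pool.Agent.H4.Singer.L2HomologyZero H i) (ν : U → ℕ) (hν : Function.Injective ν)
    (F : Finset U → RGrp H → ℂ) (hF : IsHarm H ν i F) : F = 0 := by
  classical
  obtain ⟨fE, hfE⟩ : ∃ fE : lp (fun _ : Finset U × RGrp H => ℂ) 2, ∀ σ w, fE (σ, w) = F σ w :=
    ⟨⟨fun p => F p.1 p.2, l2h_prod F hF.chain.l2⟩, fun _ _ => rfl⟩
  have key : ∀ ε : ℝ, 0 < ε → ‖fE‖ ^ 2 < ε := by
    intro ε hε
    obtain ⟨y, hy, hye⟩ := h ν hν F hF.chain hF.cyc ε hε
    obtain ⟨bE, hbE⟩ : ∃ bE : lp (fun _ : Finset U × RGrp H => ℂ) 2,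
        ∀ σ w, bE (σ, w) = dbd ν y σ w :=
      ⟨⟨fun p => dbd ν y p.1 p.2, l2h_prod (dbd ν y) fun τ => l2h_dbd_l2 ν hy.l2 τ⟩,
        fun _ _ => rfl⟩
    have hin : inner ℂ fE bE = 0 := by
      rw [l2h_inner]
      have hadj := adj_identity (fun v (w : RGrp H) => w * gen H v)
        (fun v w => by rw [mul_assoc, l2h_gen_sq, mul_one]) ν F y hF.chain.l2 hy.l2 hy.anti
      have e1 : ∑ τ : Finset U, ∑' w, (starRingEnd ℂ) (fE (τ, w)) * bE (τ, w) =
          ∑ τ : Finset U, ∑' w, (starRingEnd ℂ) (F τ w) *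
            (∑ v ∈ τᶜ, (-1 : ℂ) ^ (τ.filter fun u => ν u < ν v).card * y (insert v τ) w) := by
        refine Finset.sum_congr rfl fun τ _ => tsum_congr fun w => ?_
        rw [hfE, hbE]
        rfl
      rw [e1, hadj]
      have e2 : ∀ (ρ : Finset U) (w : RGrp H), (starRingEnd ℂ)
          (∑ v ∈ ρ, (-1 : ℂ) ^ ((ρ.erase v).filter fun u => ν u < ν v).card *
            (F (ρ.erase v) w - F (ρ.erase v) (w * gen H v))) * y ρ w = 0 := by
        intro ρ w
        by_cases h0 : y ρ w = 0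
        · rw [h0, mul_zero]
        · obtain ⟨h1, h2⟩ := hy.supp ρ w h0
          rw [hF.cocyc ρ w h1 h2, map_zero, zero_mul]
      simp only [e2, tsum_zero, Finset.sum_const_zero, mul_zero]
    have hsub := norm_sub_sq (𝕜 := ℂ) fE bE
    rw [hin] at hsub
    simp only [map_zero, mul_zero, sub_zero] at hsub
    have hn := l2h_norm (fE - bE)
    have e3 : ∑ σ, ∑' w, ‖(fE - bE) (σ, w)‖ ^ 2 = ∑ σ, ∑' w, ‖F σ w - dbd ν y σ w‖ ^ 2 := by
      refine Finset.sum_congr rfl fun σ _ => tsum_congr fun w => ?_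
      have e4 : (fE - bE) (σ, w) = fE (σ, w) - bE (σ, w) := rfl
      rw [e4, hfE, hbE]
    rw [e3] at hn
    have hb := sq_nonneg ‖bE‖
    linarith
  have h0 : ‖fE‖ ^ 2 ≤ 0 := le_of_forall_pos_le_add fun ε hε => by
    rw [zero_add]
    exact (key ε hε).le
  have h1 : fE = 0 := by
    have h2 : ‖fE‖ = 0 := by
      have := sq_nonneg ‖fE‖
      exact pow_eq_zero_iff two_ne_zero |>.1 (le_antisymm h0 this)
    exact norm_eq_zero.1 h2
  funext σ w
  rw [← hfE, h1]
  rfl

/-! ### the involutions -/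

private theorem Star_RBRB (D : GD C Γ G) (v : V) : D.R v * D.B v * (D.R v * D.B v) = D.z := by
  calc D.R v * D.B v * (D.R v * D.B v) = (D.R v * D.B v) * D.R v * D.B v := by group
    _ = D.z * (D.B v * D.R v) * D.R v * D.B v := by rw [D.RB]
    _ = D.z * D.B v * (D.R v * D.R v) * D.B v := by group
    _ = D.z * (D.B v * D.B v) := by rw [D.RR, mul_one]; group
    _ = D.z := by rw [D.BB, mul_one]

private theorem Star_zRB (D : GD C Γ G) (v : V) :
    D.z * (D.R v * D.B v) = D.R v * D.B v * D.z := by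
  rw [← mul_assoc, D.zR, mul_assoc, D.zB, mul_assoc]

private theorem Star_comm (D : GD C Γ G) {u v : V} (h : C.graph.Adj u v) :
    D.R u * D.B u * (D.R v * D.B v) = D.R v * D.B v * (D.R u * D.B u) := by
  calc D.R u * D.B u * (D.R v * D.B v) = D.R u * (D.B u * D.R v) * D.B v := by group
    _ = D.R u * (D.R v * D.B u) * D.B v := by rw [D.cRB v u h.symm]
    _ = (D.R u * D.R v) * (D.B u * D.B v) := by group
    _ = (D.R v * D.R u) * (D.B v * D.B u) := by rw [D.cRR u v h, D.cBB u v h]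
    _ = D.R v * (D.R u * D.B v) * D.B u := by group
    _ = D.R v * (D.B v * D.R u) * D.B u := by rw [D.cRB u v h]
    _ = D.R v * D.B v * (D.R u * D.B u) := by group

/-- the functions with `m (g z) = - m g` -/
private def Star_M (D : GD C Γ G) : Submodule ℂ (G → ℂ) where
  carrier := {m | ∀ g, m (g * D.z) = - m g}
  zero_mem' g := by
    show (0 : ℂ) = - 0
    rw [neg_zero]
  add_mem' {a b} ha hb g := by
    show a (g * D.z) + b (g * D.z) = - (a g + b g)
    rw [ha, hb, neg_add]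
  smul_mem' c a ha g := by
    show c * a (g * D.z) = - (c * a g)
    rw [ha]
    ring

/-- the involution `S v` -/
private noncomputable def Star_S (D : GD C Γ G) (v : V) : Star_M D →ₗ[ℂ] Star_M D where
  toFun m := ⟨fun g => Complex.I * m.1 (g * (D.R v * D.B v)), fun g => by
    show Complex.I * m.1 (g * D.z * (D.R v * D.B v)) = - (Complex.I * m.1 (g * (D.R v * D.B v)))
    rw [mul_assoc g, Star_zRB, ← mul_assoc, m.2]
    ring⟩
  map_add' a b := Subtype.ext (funext fun g => by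
    show Complex.I * (a.1 _ + b.1 _) = Complex.I * a.1 _ + Complex.I * b.1 _
    ring)
  map_smul' c a := Subtype.ext (funext fun g => by
    show Complex.I * (c * a.1 _) = c * (Complex.I * a.1 _)
    ring)

private theorem Star_S_apply (D : GD C Γ G) (v : V) (m : Star_M D) (g : G) :
    (Star_S D v m).1 g = Complex.I * m.1 (g * (D.R v * D.B v)) := rfl

private theorem Star_SS (D : GD C Γ G) (v : V) (m : Star_M D) : Star_S D v (Star_S D v m) = m := by
  refine Subtype.ext (funext fun g => ?_)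
  rw [Star_S_apply, Star_S_apply, mul_assoc g, Star_RBRB, m.2]
  linear_combination (- m.1 g) * Complex.I_mul_I

private theorem Star_S_comm (D : GD C Γ G) {u v : V} (h : C.graph.Adj u v) (m : Star_M D) :
    Star_S D u (Star_S D v m) = Star_S D v (Star_S D u m) := by
  refine Subtype.ext (funext fun g => ?_)
  rw [Star_S_apply, Star_S_apply, Star_S_apply, Star_S_apply, mul_assoc g, mul_assoc g,
    Star_comm D h]

/-- the functions which describe the action of the Coxeter group -/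
private theorem Star_theta (D : GD C Γ G) (x : X) :
    ∃ (θ : RGrp (lk C x) → G) (p : RGrp (lk C x) → ℂ), (∀ w, ‖p w‖ = 1) ∧
      (∀ g w, D.κ x (g * θ w) = D.κ x g * w) ∧
      (∀ m : Star_M D, ∀ g, p 1 * m.1 (g * θ 1) = m.1 g) ∧
      ∀ (v : {v // v ∈ C.lab x}) (w : RGrp (lk C x)) (m : Star_M D) (g : G),
        p (w * gen (lk C x) v) * m.1 (g * θ (w * gen (lk C x) v)) =
          p w * (Star_S D v.1 m).1 (g * θ w) := by
  obtain ⟨Φ, hΦ⟩ := exists_lift (lk C x) (P := Star_M D ≃ₗ[ℂ] Star_M D)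
    (fun v => LinearEquiv.ofInvolutive (Star_S D v.1) (Star_SS D v.1))
    (fun v => LinearEquiv.ext fun m => Star_SS D v.1 m)
    (fun u v huv => LinearEquiv.ext fun m => Star_S_comm D huv m)
  have hstep : ∀ w v (m : Star_M D), Φ (w * gen (lk C x) v) m = Φ w (Star_S D v.1 m) := by
    intro w v m
    rw [map_mul, hΦ]
    rfl
  have key : ∀ w : RGrp (lk C x), ∃ (t : G) (p : ℂ), ‖p‖ = 1 ∧
      (∀ (m : Star_M D) g, (Φ w m).1 g = p * m.1 (g * t)) ∧
      ∀ g, D.κ x (g * t) = D.κ x g * w := by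
    intro w
    have hs : ∀ (w : RGrp (lk C x)) (v : {v // v ∈ C.lab x}), (∃ (t : G) (p : ℂ), ‖p‖ = 1 ∧
        (∀ (m : Star_M D) g, (Φ w m).1 g = p * m.1 (g * t)) ∧
        ∀ g, D.κ x (g * t) = D.κ x g * w) → ∃ (t : G) (p : ℂ), ‖p‖ = 1 ∧
        (∀ (m : Star_M D) g, (Φ (w * gen (lk C x) v) m).1 g = p * m.1 (g * t)) ∧
        ∀ g, D.κ x (g * t) = D.κ x g * (w * gen (lk C x) v) := by
      rintro w v ⟨t, p, hp, h1, h2⟩
      refine ⟨t * (D.R v.1 * D.B v.1), p * Complex.I, ?_, fun m g => ?_, fun g => ?_⟩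
      · rw [norm_mul, hp, Complex.norm_I, one_mul]
      · rw [hstep, h1, Star_S_apply, mul_assoc g]
        ring
      · rw [← mul_assoc, ← mul_assoc, D.κ_mul, h2, mul_assoc]
    have hw : w ∈ Subgroup.closure (Set.range (gen (lk C x))) := by
      have h1 := (racg (lk C x)).toCoxeterSystem.subgroup_closure_range_simple
      have h2 : Set.range (racg (lk C x)).toCoxeterSystem.simple = Set.range (gen (lk C x)) := by
        congr 1
      rw [← h2, h1]
      exact Subgroup.mem_top w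
    induction hw using Subgroup.closure_induction_right with
    | one =>
      refine ⟨1, 1, norm_one, fun m g => ?_, fun g => by rw [mul_one, mul_one]⟩
      rw [map_one, mul_one, one_mul]
      rfl
    | mul_right w _ g hg ih =>
      obtain ⟨v, rfl⟩ := hg
      exact hs w v ih
    | mul_inv_cancel w _ g hg ih =>
      obtain ⟨v, rfl⟩ := hg
      rw [gen_inv]
      exact hs w v ih
  choose θ p hp h1 h2 using key
  refine ⟨θ, p, hp, fun g w => h2 w g, fun m g => ?_, fun v w m g => ?_⟩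
  · rw [← h1, map_one]
    rfl
  · rw [← h1, ← h1, hstep]

/-! ### the Davis complex at a vertex -/

omit [DecidableEq V] in
private theorem Star_sv (ν : V → ℕ) {S : Finset V} (v : {v // v ∈ S}) (τ : Finset {v // v ∈ S}) :
    ((sv ν v.1 (τ.map (Function.Embedding.subtype _)) : ℤ) : ℂ) =
      (-1 : ℂ) ^ (τ.filter fun u => ν u.1 < ν v.1).card := by
  unfold sv
  rw [filter_map, card_map]
  push_cast
  rfl

private theorem Star_end3 (D : GD C Γ G) (ν : V → ℕ) (hν : Function.Injective ν) (i : ℕ) (x : X)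
    (h : Pool.Agent.H4.Singer.L2HomologyZero (lk C x) i) (m : Finset V → G → ℂ)
    (hz : ∀ σ g, m σ (g * D.z) = - m σ g)
    (hsupp : ∀ σ g, m σ g ≠ 0 → C.graph.IsClique (σ : Set V) ∧ σ.card = i)
    (hS : ∀ σ, σ ⊆ C.lab x → C.graph.IsClique (σ : Set V) → ∀ v ∈ σ, ∀ g,
      Complex.I * m σ (g * (D.R v * D.B v)) = - m σ g)
    (hl2 : ∀ σ, Summable fun g => ‖m σ g‖ ^ 2)
    (hcyc : ∀ τ, τ ⊆ C.lab x → ∀ g, ∑ v ∈ C.lab x \ τ, (sv ν v τ : ℂ) * m (insert v τ) g = 0)
    (hcoc : ∀ ρ, ρ ⊆ C.lab x → C.graph.IsClique (ρ : Set V) → ρ.card = i + 1 → ∀ g,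
      ∑ v ∈ ρ, (sv ν v (ρ.erase v) : ℂ) *
        (m (ρ.erase v) g - Complex.I * m (ρ.erase v) (g * (D.R v * D.B v))) = 0)
    (σ : Finset V) (hσ : σ ⊆ C.lab x) (g : G) : m σ g = 0 := by
  obtain ⟨θ, p, hp, hκ, h1, hstep⟩ := Star_theta D x
  let emb : {v // v ∈ C.lab x} ↪ V := Function.Embedding.subtype _
  have hsub : ∀ σ' : Finset {v // v ∈ C.lab x}, σ'.map emb ⊆ C.lab x := by
    intro σ' v hv
    obtain ⟨u, -, rfl⟩ := mem_map.1 hv
    exact u.2
  have hcl : ∀ σ' : Finset {v // v ∈ C.lab x}, C.graph.IsClique ((σ'.map emb : Finset V) : Set V) ↔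
      (lk C x).IsClique (σ' : Set {v // v ∈ C.lab x}) := by
    intro σ'
    constructor
    · intro hc a ha b hb hab
      exact hc (mem_coe.2 (mem_map_of_mem emb (mem_coe.1 ha)))
        (mem_coe.2 (mem_map_of_mem emb (mem_coe.1 hb))) fun h => hab (Subtype.ext h)
    · intro hc a ha b hb hab
      obtain ⟨a', ha', rfl⟩ := mem_map.1 (mem_coe.1 ha)
      obtain ⟨b', hb', rfl⟩ := mem_map.1 (mem_coe.1 hb)
      exact hc (mem_coe.2 ha') (mem_coe.2 hb') fun h => hab (congrArg _ h)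
  -- the step
  have hst : ∀ σ (v : {v // v ∈ C.lab x}) w,
      p (w * gen (lk C x) v) * m σ (g * θ (w * gen (lk C x) v)) =
        p w * (Complex.I * m σ (g * θ w * (D.R v.1 * D.B v.1))) := fun σ v w =>
    hstep v w ⟨m σ, hz σ⟩ g
  have hinj : Function.Injective fun w => g * θ w := by
    intro a b hab
    have h2 : D.κ x (g * θ a) = D.κ x (g * θ b) := congrArg (D.κ x) hab
    rw [hκ, hκ] at h2
    exact mul_left_cancel h2
  let F : Finset {v // v ∈ C.lab x} → RGrp (lk C x) → ℂ := fun σ' w =>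
    p w * m (σ'.map emb) (g * θ w)
  have hF : IsHarm (lk C x) (fun v => ν v.1) i F := by
    refine ⟨⟨fun σ' w hne => ?_, fun σ' v hv w => ?_, fun σ' => ?_⟩, ?_, fun ρ' w hc hcard => ?_⟩
    · obtain ⟨h2, h3⟩ := hsupp _ _ (right_ne_zero_of_mul hne)
      rw [card_map] at h3
      exact ⟨(hcl σ').1 h2, h3⟩
    · show p (w * gen (lk C x) v) * m (σ'.map emb) (g * θ (w * gen (lk C x) v)) =
        - (p w * m (σ'.map emb) (g * θ w))
      rw [hst]
      by_cases hc : C.graph.IsClique ((σ'.map emb : Finset V) : Set V)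
      · rw [hS _ (hsub σ') hc v.1 (mem_map_of_mem emb hv)]
        ring
      · have h0 : ∀ k, m (σ'.map emb) k = 0 := fun k => by
          by_contra hne
          exact hc (hsupp _ _ hne).1
        rw [h0, h0, mul_zero, mul_zero, neg_zero]
    · have h2 : (fun w => ‖F σ' w‖ ^ 2) = (fun k => ‖m (σ'.map emb) k‖ ^ 2) ∘ fun w => g * θ w := by
        funext w
        show ‖p w * m (σ'.map emb) (g * θ w)‖ ^ 2 = ‖m (σ'.map emb) (g * θ w)‖ ^ 2
        rw [norm_mul, hp, one_mul]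
      rw [h2]
      exact (hl2 _).comp_injective hinj
    · funext τ' w
      show ∑ v ∈ τ'ᶜ, (-1) ^ (τ'.filter fun u => ν u.1 < ν v.1).card *
        (p w * m ((insert v τ').map emb) (g * θ w)) = 0
      have h2 := hcyc (τ'.map emb) (hsub τ') (g * θ w)
      have h3 : C.lab x \ τ'.map emb = τ'ᶜ.map emb := by
        ext v
        rw [mem_sdiff, mem_map, mem_map]
        constructor
        · rintro ⟨h4, h5⟩
          exact ⟨⟨v, h4⟩, mem_compl.2 fun h6 => h5 ⟨⟨v, h4⟩, h6, rfl⟩, rfl⟩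
        · rintro ⟨a, h4, rfl⟩
          refine ⟨a.2, ?_⟩
          rintro ⟨b, h5, h6⟩
          rw [emb.injective h6] at h5
          exact (mem_compl.1 h4) h5
      rw [h3, sum_map] at h2
      have h4 : ∑ v ∈ τ'ᶜ, (-1) ^ (τ'.filter fun u => ν u.1 < ν v.1).card *
          (p w * m ((insert v τ').map emb) (g * θ w)) =
          p w * ∑ v ∈ τ'ᶜ, (sv ν (emb v) (τ'.map emb) : ℂ) *
            m (insert (emb v) (τ'.map emb)) (g * θ w) := by
        rw [mul_sum]
        refine sum_congr rfl fun v _ => ?_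
        rw [map_insert, ← Star_sv ν v τ']
        show (sv ν v.1 (τ'.map emb) : ℂ) * _ = p w * ((sv ν v.1 (τ'.map emb) : ℂ) * _)
        ring
      rw [h4, h2, mul_zero]
    · have h2 := hcoc (ρ'.map emb) (hsub ρ') ((hcl ρ').2 hc) (by rw [card_map, hcard]) (g * θ w)
      rw [sum_map] at h2
      have h4 : ∑ v ∈ ρ', (-1) ^ ((ρ'.erase v).filter fun u => ν u.1 < ν v.1).card *
          (F (ρ'.erase v) w - F (ρ'.erase v) (w * gen (lk C x) v)) =
          p w * ∑ v ∈ ρ', (sv ν (emb v) ((ρ'.map emb).erase (emb v)) : ℂ) *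
            (m ((ρ'.map emb).erase (emb v)) (g * θ w) - Complex.I *
              m ((ρ'.map emb).erase (emb v)) (g * θ w * (D.R (emb v) * D.B (emb v)))) := by
        rw [mul_sum]
        refine sum_congr rfl fun v _ => ?_
        rw [← map_erase, ← Star_sv ν v (ρ'.erase v)]
        show (sv ν v.1 ((ρ'.erase v).map emb) : ℂ) * (p w * m ((ρ'.erase v).map emb) (g * θ w) -
          p (w * gen (lk C x) v) * m ((ρ'.erase v).map emb) (g * θ (w * gen (lk C x) v))) =
          p w * ((sv ν v.1 ((ρ'.erase v).map emb) : ℂ) * (m ((ρ'.erase v).map emb) (g * θ w) -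
            Complex.I * m ((ρ'.erase v).map emb) (g * θ w * (D.R v.1 * D.B v.1))))
        rw [hst]
        ring
      rw [h4, h2, mul_zero]
  have hF0 := Star_harm (lk C x) i h (fun v => ν v.1) (fun a b hab => Subtype.ext (hν hab)) F hF
  have h2 : F (σ.subtype (· ∈ C.lab x)) 1 = 0 := by
    rw [hF0]
    rfl
  have h3 : (σ.subtype (· ∈ C.lab x)).map emb = σ := Finset.subtype_map_of_mem hσ
  have h4 : p 1 * m σ (g * θ 1) = 0 := by
    rw [← h3]
    exact h2
  exact (h1 ⟨m σ, hz σ⟩ g).symm.trans h4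

/-! ### the orthogonality to the boundaries -/

/-- the vector with the coordinates `m` at `p` -/
private noncomputable def Star_em (p : Jx C) (m : L2 G) : L2 (Jx C × G) := by
  classical
  exact mk2 (fun q => if q.1 = p then m q.2 else 0) (by
    have hi : Function.Injective fun g : G => (p, g) := fun a b h => (Prod.ext_iff.1 h).2
    refine (hi.summable_iff fun q hq => ?_).1 ?_
    · have h : q.1 ≠ p := fun h => hq ⟨q.2, Prod.ext h.symm rfl⟩
      rw [if_neg h, norm_zero, zero_pow two_ne_zero]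
    · refine (sum_sq m).congr fun g => ?_
      show _ = ‖(if p = p then m g else 0)‖ ^ 2
      rw [if_pos rfl])

omit [Group G] in
open Classical in
private theorem Star_em_apply (p : Jx C) (m : L2 G) (q : Jx C × G) :
    Star_em p m q = if q.1 = p then m q.2 else 0 := by
  unfold Star_em
  rfl

/-- the coordinates at `p` -/
private noncomputable def Star_rs (f : L2 (Jx C × G)) (p : Jx C) : L2 G :=
  mk2 (fun g => f (p, g)) (by
    have hi : Function.Injective fun g : G => (p, g) := fun a b h => (Prod.ext_iff.1 h).2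
    exact (sum_sq f).comp_injective hi)

omit [Group G] in
private theorem Star_inner (p : Jx C) (m : L2 G) (f : L2 (Jx C × G)) :
    inner ℂ (Star_em p m) f = inner ℂ m (Star_rs f p) := by
  classical
  have h1 : inner ℂ (Star_em p m) f = ∑' q, inner ℂ (Star_em p m q) (f q) := lp.inner_eq_tsum _ _
  have h2 : inner ℂ m (Star_rs f p) = ∑' g, inner ℂ (m g) (Star_rs f p g) := lp.inner_eq_tsum _ _
  rw [h1, h2]
  have hi : Function.Injective fun g : G => (p, g) := fun a b h => (Prod.ext_iff.1 h).2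
  rw [← hi.tsum_eq]
  · refine tsum_congr fun g => ?_
    rw [Star_em_apply, if_pos rfl]
    rfl
  · intro q hq
    by_contra hn
    refine hq ?_
    have h : q.1 ≠ p := fun h => hn ⟨q.2, Prod.ext h.symm rfl⟩
    show inner ℂ (Star_em p m q) (f q) = 0
    rw [Star_em_apply, if_neg h, inner_zero_left]

/-- `S v` on `ℓ²` -/
private noncomputable def Star_T (D : GD C Γ G) (v : V) : L2 G →ₗ[ℂ] L2 G :=
  Complex.I • (reix (Equiv.mulRight (D.R v * D.B v)) (fun _ => 1)
    (fun _ => mul_one 1)).toLinearEquiv.toLinearMap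

private theorem Star_T_apply (D : GD C Γ G) (v : V) (m : L2 G) (g : G) :
    Star_T D v m g = Complex.I * m (g * (D.R v * D.B v)) := by
  show Complex.I * (((1 : ℤ) : ℂ) * m (g * (D.R v * D.B v))) = _
  rw [Int.cast_one, one_mul]

private theorem Star_T_inner (D : GD C Γ G) (v : V) (a b : L2 G) :
    inner ℂ (Star_T D v a) (Star_T D v b) = inner ℂ a b := by
  show inner ℂ (Complex.I • reix (Equiv.mulRight (D.R v * D.B v)) (fun _ => 1) _ a)
    (Complex.I • reix (Equiv.mulRight (D.R v * D.B v)) (fun _ => 1) _ b) = _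
  rw [inner_smul_left, inner_smul_right, LinearIsometryEquiv.inner_map_map, Complex.conj_I]
  linear_combination (- inner ℂ a b) * Complex.I_mul_I

private theorem Star_T_T (D : GD C Γ G) (v : V) (a : L2 G) (ha : ∀ g, a (g * D.z) = - a g) :
    Star_T D v (Star_T D v a) = a := by
  ext g
  rw [Star_T_apply, Star_T_apply, mul_assoc g, Star_RBRB, ha]
  linear_combination (- a g) * Complex.I_mul_I

private theorem Star_T_comm (D : GD C Γ G) {u v : V} (h : C.graph.Adj u v) (a : L2 G) :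
    Star_T D u (Star_T D v a) = Star_T D v (Star_T D u a) := by
  ext g
  rw [Star_T_apply, Star_T_apply, Star_T_apply, Star_T_apply, mul_assoc g, mul_assoc g,
    Star_comm D h]

private theorem Star_T_z (D : GD C Γ G) (v : V) (a : L2 G) (ha : ∀ g, a (g * D.z) = - a g)
    (g : G) : Star_T D v a (g * D.z) = - Star_T D v a g := by
  rw [Star_T_apply, Star_T_apply, mul_assoc g, Star_zRB, ← mul_assoc, ha]
  ring

private theorem Star_orth (D : GD C Γ G) (ν : V → ℕ) (i : ℕ)
    (d : L2 (Jx C × G) →L[ℂ] L2 (Jx C × G)) (hd : IsBd ν d) (f : L2 (Jx C × G))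
    (hf : f ∈ Ch D 0 i) (ho : ∀ y ∈ Ch D 0 (i + 1), inner ℂ (d y) f = 0) (x : X) (ρ : Finset V)
    (hρ : ρ ⊆ C.lab x) (hc : C.graph.IsClique (ρ : Set V)) (hcard : ρ.card = i + 1) (g : G) :
    ∑ v ∈ ρ, (sv ν v (ρ.erase v) : ℂ) * (ev f (ρ.erase v) x g -
      Complex.I * ev f (ρ.erase v) x (g * (D.R v * D.B v))) = 0 := by
  classical
  have hsub : ∀ v, ρ.erase v ⊆ C.lab x := fun v => (erase_subset v ρ).trans hρ
  obtain ⟨a, ha⟩ : ∃ a : V → L2 G, ∀ v, a v = Star_rs f ⟨(ρ.erase v, x), hsub v⟩ :=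
    ⟨_, fun _ => rfl⟩
  have hev : ∀ v g, ev f (ρ.erase v) x g = a v g := fun v g => by
    rw [ev_pos f (hsub v), ha]
    rfl
  obtain ⟨hf1, -, hf3⟩ := hf
  have haz : ∀ v g, a v (g * D.z) = - a v g := fun v g => by
    rw [ha]
    exact hf1 _ g
  have haS : ∀ v, ∀ u ∈ ρ.erase v, Star_T D u (a v) = - a v := by
    intro v u hu
    ext g
    have h1 := hf3 (ρ.erase v) x (hsub v)
      (hc.subset (Finset.coe_subset.2 (erase_subset v ρ))) u hu (g * D.R u)
    simp only [Np, hev] at h1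
    rw [mul_assoc g (D.R u) (D.R u), D.RR, mul_one, mul_assoc g (D.R u) (D.B u)] at h1
    rw [Star_T_apply]
    show Complex.I * a v (g * (D.R u * D.B u)) = - a v g
    linear_combination h1
  obtain ⟨ξ, hξ⟩ : ∃ ξ : L2 G, ξ = ∑ v ∈ ρ, (sv ν v (ρ.erase v) : ℂ) • (a v - Star_T D v (a v)) :=
    ⟨_, rfl⟩
  have hξg : ∀ g, ξ g = ∑ v ∈ ρ, (sv ν v (ρ.erase v) : ℂ) *
      (a v g - Complex.I * a v (g * (D.R v * D.B v))) := by
    intro g
    rw [hξ, lp.coeFn_sum, Finset.sum_apply]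
    refine sum_congr rfl fun v _ => ?_
    rw [← Star_T_apply]
    rfl
  have hξz : ∀ g, ξ (g * D.z) = - ξ g := by
    intro g
    rw [hξg, hξg, ← sum_neg_distrib]
    refine sum_congr rfl fun v _ => ?_
    rw [← Star_T_apply, ← Star_T_apply, haz, Star_T_z D v (a v) (haz v)]
    ring
  have hξS : ∀ u ∈ ρ, Star_T D u ξ = - ξ := by
    intro u hu
    rw [hξ, map_sum, ← sum_neg_distrib]
    refine sum_congr rfl fun v hv => ?_
    rw [map_smul, map_sub, ← smul_neg]
    congr 1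
    by_cases huv : u = v
    · subst huv
      rw [Star_T_T D u (a u) (haz u), neg_sub]
    · have h1 : u ∈ ρ.erase v := mem_erase.2 ⟨huv, hu⟩
      rw [Star_T_comm D (hc (mem_coe.2 hu) (mem_coe.2 hv) huv), haS v u h1, map_neg]
      abel
  have hY : Star_em ⟨(ρ, x), hρ⟩ ξ ∈ Ch D 0 (i + 1) := by
    refine ⟨fun p k => ?_, fun p k hne => ?_, fun σ x' hσ hcσ v hv k => ?_⟩
    · rw [Star_em_apply, Star_em_apply]
      show (if p = _ then ξ (k * D.z) else 0) = - (if p = _ then ξ k else 0)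
      split_ifs
      · exact hξz k
      · rw [neg_zero]
    · rw [Star_em_apply] at hne
      have h1 : p = ⟨(ρ, x), hρ⟩ := by
        by_contra h
        exact hne (if_neg h)
      rw [h1]
      exact ⟨hc, hcard⟩
    · have h1 : ∀ k, ev (Star_em ⟨(ρ, x), hρ⟩ ξ) σ x' k =
          if (⟨(σ, x'), hσ⟩ : Jx C) = ⟨(ρ, x), hρ⟩ then ξ k else 0 := by
        intro k
        rw [ev_pos _ hσ, Star_em_apply]
      simp only [Np, h1]
      by_cases h2 : (⟨(σ, x'), hσ⟩ : Jx C) = ⟨(ρ, x), hρ⟩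
      · simp only [h2, if_true]
        have h3 : σ = ρ := congrArg (fun q : Jx C => q.1.1) h2
        have h4 : Star_T D v ξ (k * D.R v) = - ξ (k * D.R v) := by
          rw [hξS v (h3 ▸ hv)]
          rfl
        rw [Star_T_apply, mul_assoc k, ← mul_assoc (D.R v), D.RR, one_mul] at h4
        linear_combination h4
      · simp only [h2, if_false]
        ring
  have hdY : d (Star_em ⟨(ρ, x), hρ⟩ ξ) =
      ∑ v ∈ ρ, (sv ν v (ρ.erase v) : ℂ) • Star_em ⟨(ρ.erase v, x), hsub v⟩ ξ := by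
    ext ⟨⟨⟨τ, x'⟩, hτ⟩, k⟩
    have h1 := hd (Star_em ⟨(ρ, x), hρ⟩ ξ) τ x' k
    rw [ev_pos _ hτ, if_pos hτ] at h1
    rw [h1, lp.coeFn_sum, Finset.sum_apply]
    have h2 : ∀ v ∈ C.lab x' \ τ, (sv ν v τ : ℂ) * ev (Star_em ⟨(ρ, x), hρ⟩ ξ) (insert v τ) x' k =
        if insert v τ = ρ ∧ x' = x then (sv ν v τ : ℂ) * ξ k else 0 := by
      intro v hv
      have h3 : insert v τ ⊆ C.lab x' := insert_subset (mem_sdiff.1 hv).1 hτ
      rw [ev_pos _ h3, Star_em_apply, mul_ite, mul_zero]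
      refine if_congr ?_ rfl rfl
      rw [Subtype.mk_eq_mk, Prod.mk_inj]
    have h3 : ∀ v ∈ ρ, ((sv ν v (ρ.erase v) : ℂ) • Star_em ⟨(ρ.erase v, x), hsub v⟩ ξ :
        L2 (Jx C × G)) (⟨(τ, x'), hτ⟩, k) =
        if τ = ρ.erase v ∧ x' = x then (sv ν v (ρ.erase v) : ℂ) * ξ k else 0 := by
      intro v _
      rw [lp.coeFn_smul, Pi.smul_apply, Star_em_apply, smul_eq_mul, mul_ite, mul_zero]
      refine if_congr ?_ rfl rfl
      rw [Subtype.mk_eq_mk, Prod.mk_inj]
    rw [sum_congr rfl h2, sum_congr rfl h3, ← sum_filter, ← sum_filter]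
    refine sum_congr ?_ fun v hv => ?_
    · ext v
      rw [mem_filter, mem_filter, mem_sdiff]
      constructor
      · rintro ⟨⟨h4, h5⟩, h6, h7⟩
        refine ⟨?_, ?_, h7⟩
        · rw [← h6]
          exact mem_insert_self v τ
        · rw [← h6, erase_insert h5]
      · rintro ⟨h4, h5, h6⟩
        subst h6
        refine ⟨⟨hρ h4, ?_⟩, ?_, rfl⟩
        · rw [h5]
          exact notMem_erase v ρ
        · rw [h5, insert_erase h4]
    · rw [← (mem_filter.1 hv).2.1]
  have h0 : ∑ v ∈ ρ, (sv ν v (ρ.erase v) : ℂ) * inner ℂ ξ (a v) = 0 := by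
    have h1 := ho _ hY
    rw [hdY, sum_inner] at h1
    rw [← h1]
    refine sum_congr rfl fun v _ => ?_
    rw [inner_smul_left, Star_inner, ← ha, map_intCast]
  have h1 : inner ℂ ξ ξ = 2 * ∑ v ∈ ρ, (sv ν v (ρ.erase v) : ℂ) * inner ℂ ξ (a v) := by
    have h2 : inner ℂ ξ ξ = inner ℂ ξ (∑ v ∈ ρ, (sv ν v (ρ.erase v) : ℂ) •
        (a v - Star_T D v (a v))) := congrArg (fun b => inner ℂ ξ b) hξ
    rw [h2, inner_sum, mul_sum]
    refine sum_congr rfl fun v hv => ?_
    have h3 : inner ℂ ξ (Star_T D v (a v)) = - inner ℂ ξ (a v) := by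
      rw [← Star_T_inner D v ξ (Star_T D v (a v)), Star_T_T D v (a v) (haz v), hξS v hv,
        inner_neg_left]
    rw [inner_smul_right, inner_sub_right, h3]
    ring
  have hξ0 : ξ = 0 := by
    rw [h0, mul_zero] at h1
    exact inner_self_eq_zero.1 h1
  have h2 := hξg g
  rw [hξ0] at h2
  simp only [hev]
  exact h2.symm

/-- **The degenerate complex has no homology.** -/
theorem star_end (D : GD C Γ G) (ν : V → ℕ) (hν : Function.Injective ν) (i : ℕ)
    (h : ∀ x, Pool.Agent.H4.Singer.L2HomologyZero (lk C x) i)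
    (d : L2 (Jx C × G) →L[ℂ] L2 (Jx C × G)) (hd : IsBd ν d) (f : L2 (Jx C × G))
    (hf : f ∈ Ch D 0 i) (hdf : d f = 0) (ho : ∀ y ∈ Ch D 0 (i + 1), inner ℂ (d y) f = 0) :
    f = 0 := by
  have hz : ∀ (σ : Finset V) (x : X) (g : G), ev f σ x (g * D.z) = - ev f σ x g := by
    intro σ x g
    by_cases hσ : σ ⊆ C.lab x
    · rw [ev_pos f hσ, ev_pos f hσ]
      exact hf.1 _ g
    · rw [ev_neg f hσ, ev_neg f hσ, neg_zero]
  ext ⟨⟨⟨σ, x⟩, hσ⟩, g⟩
  have key := Star_end3 D ν hν i x (h x) (fun τ k => ev f τ x k) (fun τ k => hz τ x k)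
    (fun τ k hne => ?_) (fun τ hτ hc v hv k => ?_) (fun τ => ?_) (fun τ hτ k => ?_)
    (fun ρ hρ hc hcard k => Star_orth D ν i d hd f hf ho x ρ hρ hc hcard k) σ hσ g
  · show f (⟨(σ, x), hσ⟩, g) = 0
    rw [← ev_pos f hσ]
    exact key
  · have hτ : τ ⊆ C.lab x := by
      by_contra hn
      exact hne (ev_neg f hn k)
    refine hf.2.1 ⟨(τ, x), hτ⟩ k ?_
    rw [← ev_pos f hτ]
    exact hne
  · have h1 := hf.2.2 τ x hτ hc v hv (k * D.R v)
    simp only [Np] at h1
    rw [mul_assoc k (D.R v) (D.R v), D.RR, mul_one, mul_assoc k (D.R v) (D.B v)] at h1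
    show Complex.I * ev f τ x (k * (D.R v * D.B v)) = - ev f τ x k
    linear_combination h1
  · by_cases hτ : τ ⊆ C.lab x
    · have h1 : (fun k => ‖ev f τ x k‖ ^ 2) = fun k => ‖Star_rs f ⟨(τ, x), hτ⟩ k‖ ^ 2 := by
        funext k
        rw [ev_pos f hτ]
        rfl
      show Summable fun k => ‖ev f τ x k‖ ^ 2
      rw [h1]
      exact sum_sq _
    · have h1 : (fun k => ‖ev f τ x k‖ ^ 2) = fun _ => (0 : ℝ) := by
        funext k
        rw [ev_neg f hτ, norm_zero, zero_pow two_ne_zero]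
      show Summable fun k => ‖ev f τ x k‖ ^ 2
      rw [h1]
      exact summable_zero
  · have h1 := hd f τ x k
    rw [hdf, ev_zero, if_pos hτ] at h1
    exact h1.symm

end Pool.Agent.H19.LI
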