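import Pool.Agent.H19.LI.VnE
import Pool.Agent.H19.LI.DimCh
import Pool.Agent.H19.LI.BdCh
import Pool.Agent.H19.LI.Semi
import Pool.Agent.H19.LI.Star
import Pool.Agent.H19.LI.CovE
import Pool.Agent.H19.LI.Hodge
import Pool.Agent.H19.LI.GDex

/-!
# Project LI: the local-to-global theorem for CAT(0) cube complexes
-/

set_option autoImplicit false

open Finset

namespace Pool.Agent.H19.LI

open Pool.Agent.H19.Cub Pool.Agent.H4.Singer

variable {V X : Type} [DecidableEq V] {C : CubeComplex V X} {Γ G : Type} [Group Γ]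
  [MulAction Γ V] [MulAction Γ X] [Group G]

/-- boundaries -/
noncomputable def By (D : GD C Γ G) (d : L2 (Jx C × G) →L[ℂ] L2 (Jx C × G)) (T : ℂ) (i : ℕ) :
    Submodule ℂ (L2 (Jx C × G)) :=
  (Ch D T (i + 1)).map (d : L2 (Jx C × G) →ₗ[ℂ] L2 (Jx C × G))

theorem isClosed_Zy (D : GD C Γ G) (d : L2 (Jx C × G) →L[ℂ] L2 (Jx C × G)) (T : ℂ) (i : ℕ) :
    IsClosed (Zy D d T i : Set (L2 (Jx C × G))) :=
  (isClosed_Ch D T i).inter (ContinuousLinearMap.isClosed_ker d)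

section

variable (D : GD C Γ G) (hΓ : IsGeom Γ C) (K : Cut Γ X) (ν : V → ℕ) (hν : Function.Injective ν)
  (d : L2 (Jx C × G) →L[ℂ] L2 (Jx C × G)) (hd : IsBd ν d)

include hν hd

theorem inv_Zy (T : ℂ) (i : ℕ) : (dimD D hΓ K ν).Inv (Zy D d T i) :=
  inv_inf _ (inv_Ch D hΓ K ν T i) (inv_ker _ _ d (eqv_bd D hΓ K ν hν d hd))

theorem inv_By (T : ℂ) (i : ℕ) : (dimD D hΓ K ν).Inv (By D d T i) :=
  inv_map _ _ (inv_Ch D hΓ K ν T (i + 1)) d (eqv_bd D hΓ K ν hν d hd)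

/-- the dimension of the homology -/
theorem dm_hom (T : ℂ) (i : ℕ) :
    (dimD D hΓ K ν).dm (Zy D d T i ⊓ (By D d T i)ᗮ) =
      (dimD D hΓ K ν).dm (Zy D d T i) + (dimD D hΓ K ν).dm (Zy D d T (i + 1)) -
        (dimD D hΓ K ν).dm (Ch D T (i + 1)) := by
  have h1 : By D d T i ≤ Zy D d T i := by
    rintro _ ⟨f, hf, rfl⟩
    exact ⟨bd_mem D ν d hd T i f hf, bd_bd ν hν d hd f⟩
  have h2 : (By D d T i).topologicalClosure ≤ Zy D d T i :=
    Submodule.topologicalClosure_minimal _ h1 (isClosed_Zy D d T i)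
  have h3 := dm_add (dimD D hΓ K ν) (Submodule.isClosed_topologicalClosure _)
    (isClosed_Zy D d T i) h2
  have h4 := dm_rank (dimD D hΓ K ν) (dimD D hΓ K ν) (isClosed_Ch D T (i + 1))
    (inv_Ch D hΓ K ν T (i + 1)) d (eqv_bd D hΓ K ν hν d hd)
  rw [dm_closure, Submodule.orthogonal_closure] at h3
  have h5 : (dimD D hΓ K ν).dm (Ch D T (i + 1)) =
      (dimD D hΓ K ν).dm (Zy D d T (i + 1)) + (dimD D hΓ K ν).dm (By D d T i) := h4
  linarith

/-- The dimensions of the homology groups for different parameters of absolute value 1 are bounded on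
average. -/
theorem dm_sum (i : ℕ) (h : ∀ x, Pool.Agent.H4.Singer.L2HomologyZero (lk C x) i) {k : ℕ}
    (T : Fin k → ℂ) (hT : Function.Injective T) (hT1 : ∀ j, ‖T j‖ = 1) :
    ∑ j, (dimD D hΓ K ν).dm (Zy D d (T j) i ⊓ (By D d (T j) i)ᗮ) ≤
      4 * (dimD D hΓ K ν).dm ⊤ := by
  have h0 : Zy D d 0 i ⊓ (By D d 0 i)ᗮ = ⊥ := by
    rw [Submodule.eq_bot_iff]
    rintro f ⟨⟨h1, h2⟩, h3⟩
    refine star_end D ν hν i h d hd f h1 h2 fun y hy => ?_
    exact h3 _ ⟨y, hy, rfl⟩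
  have h1 := dm_hom D hΓ K ν hν d hd 0 i
  rw [h0, dm_bot] at h1
  have h2 : ∀ l, ∑ j, (dimD D hΓ K ν).dm (Zy D d (T j) l) ≤
      2 * (dimD D hΓ K ν).dm ⊤ + k * (dimD D hΓ K ν).dm (Zy D d 0 l) := fun l =>
    semicont (dimD D hΓ K ν) T hT (fun j => Zy D d (T j) l) (fun j => isClosed_Zy D d (T j) l)
      (fun j => inv_Zy D hΓ K ν hν d hd (T j) l) (Zy D d 0 l)
      fun a ha f hf hf0 => semi_mem D d l T a ha f hf hf0
  have h3 : ∑ j, (dimD D hΓ K ν).dm (Zy D d (T j) i ⊓ (By D d (T j) i)ᗮ) =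
      ∑ j, (dimD D hΓ K ν).dm (Zy D d (T j) i) +
        ∑ j, (dimD D hΓ K ν).dm (Zy D d (T j) (i + 1)) -
          k * (dimD D hΓ K ν).dm (Ch D 0 (i + 1)) := by
    have e : (k : ℝ) * (dimD D hΓ K ν).dm (Ch D 0 (i + 1)) =
        ∑ _j : Fin k, (dimD D hΓ K ν).dm (Ch D 0 (i + 1)) := by
      rw [sum_const, Finset.card_univ, Fintype.card_fin, nsmul_eq_mul]
    rw [e, ← sum_add_distrib, ← sum_sub_distrib]
    refine sum_congr rfl fun j _ => ?_
    rw [dm_hom D hΓ K ν hν d hd (T j) i, dm_Ch D hΓ K ν (T j) (hT1 j)]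
  have h4 := h2 i
  have h5 := h2 (i + 1)
  have h6 : (k : ℝ) * ((dimD D hΓ K ν).dm (Zy D d 0 i) + (dimD D hΓ K ν).dm (Zy D d 0 (i + 1)) -
      (dimD D hΓ K ν).dm (Ch D 0 (i + 1))) = 0 := by
    rw [← h1, mul_zero]
  linarith

end

/-- There are `k` different complex numbers of absolute value 1. -/
theorem exists_T (k : ℕ) : ∃ T : Fin k → ℂ, Function.Injective T ∧ ∀ j, ‖T j‖ = 1 := by
  rcases Nat.eq_zero_or_pos k with rfl | hk
  · exact ⟨fun j => 1, fun a => a.elim0, fun a => a.elim0⟩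
  · have h := Complex.isPrimitiveRoot_exp k hk.ne'
    refine ⟨fun j => Complex.exp (2 * Real.pi * Complex.I / k) ^ (j : ℕ), fun a b hab => ?_,
      fun j => ?_⟩
    · exact Fin.ext (h.pow_inj a.2 b.2 hab)
    · rw [norm_pow, h.norm'_eq_one hk.ne', one_pow]

/-- **The local-to-global theorem for CAT(0) cube complexes.** Let the group `Γ` act properly and
cocompactly on the CAT(0) cube complex `C`. If the reduced `ℓ²`-homology of the Davis complexes of the right-angled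
Coxeter groups of the links of all vertices vanishes in degree `i`, then so does the reduced
`ℓ²`-homology of `C`. -/
theorem local_global_cat0 (hC : IsCAT0 C) (hΓ : IsGeom Γ C) (i : ℕ)
    (h : ∀ x, Pool.Agent.H4.Singer.L2HomologyZero (lk C x) i) : L2Zero C i := by
  obtain ⟨N, hN⟩ := exists_card hΓ
  obtain ⟨K⟩ := exists_cut hΓ
  obtain ⟨G, _, ⟨D⟩⟩ := exists_GD hΓ
  refine l2zero_of_harm C N hN i fun ν hν f hf hz ho => ?_
  obtain ⟨d, hd⟩ := exists_bd C G ν N hN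
  by_contra hne
  obtain ⟨σ₁, x₁, hf1⟩ : ∃ σ x, f σ x ≠ 0 := by
    by_contra hcon
    push Not at hcon
    exact hne (funext fun σ => funext fun x => hcon σ x)
  have hσ₁ : σ₁ ⊆ C.lab x₁ := (hf.supp σ₁ x₁ hf1).1
  -- a translate with positive weight
  obtain ⟨γ, hγ⟩ : ∃ γ : Γ, K.c (γ • x₁) ≠ 0 := by
    by_contra hcon
    push Not at hcon
    have h1 := K.sum x₁
    simp only [hcon] at h1
    exact zero_ne_one (hasSum_zero.unique h1)
  have hγ0 : 0 < K.c (γ • x₁) := lt_of_le_of_ne (K.nonneg _) (Ne.symm hγ)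
  obtain ⟨S, hS⟩ : ∃ S, S = ∑' p : Finset V × X, ‖f p.1 p.2‖ ^ 2 := ⟨_, rfl⟩
  have hS0 : 0 < S := by
    rw [hS]
    refine hf.l2.tsum_pos (fun _ => by positivity) (σ₁, x₁) ?_
    have := norm_pos_iff.2 hf1
    positivity
  obtain ⟨δ, hδ⟩ : ∃ δ, δ = K.c (γ • x₁) * ‖f σ₁ x₁‖ ^ 2 / (2 * S) := ⟨_, rfl⟩
  have hδ0 : 0 < δ := by
    have := norm_pos_iff.2 hf1
    rw [hδ]
    positivity
  -- the lower bound
  have key : ∀ T : ℂ, ‖T‖ = 1 →
      δ ≤ (dimD D hΓ K ν).dm (Zy D d T i ⊓ (By D d T i)ᗮ) := by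
    intro T hT
    obtain ⟨F, hF, hdF, hoF, hnF, hF1⟩ := cover_end hC D ν T hT i d hd N hN f hf hz ho σ₁ x₁
    have hm : F ∈ Zy D d T i ⊓ (By D d T i)ᗮ := by
      refine ⟨⟨hF, hdF⟩, ?_⟩
      rintro _ ⟨y, hy, rfl⟩
      exact hoF y hy
    have hinv := inv_inf _ (inv_Zy D hΓ K ν hν d hd T i) (inv_orth _ (inv_By D hΓ K ν hν d hd T i))
    have hm' := (hinv (γ, D.j γ) F).1 hm
    have h1 := dm_lower (dimD D hΓ K ν) _ hm'
      ((dimD D hΓ K ν).a (γ, D.j γ) (⟨(σ₁, x₁), hσ₁⟩, 1))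
    rw [Dm.U_smul, norm_mul, norm_sgn ((dimD D hΓ K ν).sg_sq _ _), one_mul,
      LinearIsometryEquiv.norm_map, hnF, ← hS] at h1
    have h2 : F (⟨(σ₁, x₁), hσ₁⟩, 1) = f σ₁ x₁ := by
      rw [← hF1, ev_pos F hσ₁]
    have h3 : (dimD D hΓ K ν).c ((dimD D hΓ K ν).a (γ, D.j γ) (⟨(σ₁, x₁), hσ₁⟩, 1)) =
        K.c (γ • x₁) := by
      show cI C G K (permJ hΓ γ ⟨(σ₁, x₁), hσ₁⟩, D.j γ * 1 * (D.j γ)⁻¹) = _
      unfold cI
      rw [if_pos (by rw [mul_one, mul_inv_cancel])]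
      rfl
    rw [h2, h3] at h1
    rw [hδ, div_le_iff₀ (by positivity)]
    linarith
  -- the contradiction
  obtain ⟨k, hk⟩ := exists_nat_gt (4 * (dimD D hΓ K ν).dm ⊤ / δ)
  obtain ⟨T, hT, hT1⟩ := exists_T k
  have h1 := dm_sum D hΓ K ν hν d hd i h T hT hT1
  have h2 : (k : ℝ) * δ ≤ ∑ j, (dimD D hΓ K ν).dm (Zy D d (T j) i ⊓ (By D d (T j) i)ᗮ) := by
    calc (k : ℝ) * δ = ∑ _j : Fin k, δ := by
          rw [sum_const, Finset.card_univ, Fintype.card_fin, nsmul_eq_mul]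
      _ ≤ _ := sum_le_sum fun j _ => key (T j) (hT1 j)
  rw [div_lt_iff₀ hδ0] at hk
  linarith

end Pool.Agent.H19.LI
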