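import Mathlib

/-!
# Project LI: von Neumann dimension for a group which permutes an orthonormal basis up to signs

`Q` acts on the index set `I`; `c` is a cutoff function (`∑ q, c (q s) = 1`, finite support). The
dimension of a closed invariant subspace `K` of `ℓ²(I)` is `∑ s, c s * ‖P_K e_s‖ ^ 2`.
-/

set_option autoImplicit false

open Finset

namespace Pool.Agent.H19.LI

/-- `ℓ²(I)` -/
abbrev L2 (I : Type) : Type := lp (fun _ : I => ℂ) 2

open Classical in
/-- the basis vectors -/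
noncomputable def ee {I : Type} (s : I) : L2 I := lp.single 2 s (1 : ℂ)

/-- dimension data -/
structure Dm (Q I : Type) [Group Q] where
  /-- the action of `Q` on the basis -/
  a : Q →* Equiv.Perm I
  /-- a finite set which contains the support of `c` -/
  F : Finset I
  /-- the cutoff function -/
  c : I → ℝ
  nonneg : ∀ s, 0 ≤ c s
  supp : ∀ s, s ∉ F → c s = 0
  sum : ∀ s, HasSum (fun q : Q => c (a q s)) 1
  /-- the signs -/
  sg : Q → I → ℤ
  sg_sq : ∀ q s, sg q s * sg q s = 1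

theorem norm_sgn {a : ℤ} (h : a * a = 1) : ‖(a : ℂ)‖ = 1 := by
  have h1 : ‖(a : ℂ)‖ * ‖(a : ℂ)‖ = 1 := by
    rw [← norm_mul, ← Int.cast_mul, h, Int.cast_one, norm_one]
  nlinarith [norm_nonneg (a : ℂ)]

theorem sgn_mul {a : ℤ} (h : a * a = 1) : (a : ℂ) * (a : ℂ) = 1 := by
  rw [← Int.cast_mul, h, Int.cast_one]

theorem memℓp_two {I : Type} (f : I → ℂ) : Memℓp f 2 ↔ Summable fun s => ‖f s‖ ^ 2 := by
  rw [memℓp_gen_iff (by norm_num)]
  norm_num

theorem sum_sq {I : Type} (f : L2 I) : Summable fun s => ‖f s‖ ^ 2 := (memℓp_two f).1 (lp.memℓp f)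

theorem norm_sq_eq {I : Type} (f : L2 I) : ‖f‖ ^ 2 = ∑' s, ‖f s‖ ^ 2 := by
  have h := lp.norm_rpow_eq_tsum (p := 2) (by norm_num) f
  simpa using h

/-- the vector with the coordinates `f` -/
def mk2 {I : Type} (f : I → ℂ) (h : Summable fun s => ‖f s‖ ^ 2) : L2 I :=
  ⟨f, (memℓp_two f).2 h⟩

theorem mk2_apply {I : Type} (f : I → ℂ) (h : Summable fun s => ‖f s‖ ^ 2) (s : I) :
    mk2 f h s = f s := rfl

theorem sum_reix {I : Type} (e : I ≃ I) (a : I → ℤ) (ha : ∀ s, a s * a s = 1) (f : L2 I) :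
    Summable fun t => ‖(a t : ℂ) * f (e t)‖ ^ 2 := by
  have h := (e.summable_iff (f := fun s => ‖f s‖ ^ 2)).2 (sum_sq f)
  refine h.congr fun t => ?_
  simp only [Function.comp, norm_mul, norm_sgn (ha t), one_mul]

/-- the signed permutation of the basis -/
noncomputable def reix {I : Type} (e : I ≃ I) (a : I → ℤ) (ha : ∀ s, a s * a s = 1) :
    L2 I ≃ₗᵢ[ℂ] L2 I where
  toFun f := mk2 (fun t => (a t : ℂ) * f (e t)) (sum_reix e a ha f)
  invFun f := mk2 (fun s => (a (e.symm s) : ℂ) * f (e.symm s))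
    (sum_reix e.symm (fun s => a (e.symm s)) (fun _ => ha _) f)
  left_inv f := by
    ext s
    show (a (e.symm s) : ℂ) * ((a (e.symm s) : ℂ) * f (e (e.symm s))) = f s
    rw [← mul_assoc, sgn_mul (ha _), one_mul, e.apply_symm_apply]
  right_inv f := by
    ext s
    show (a s : ℂ) * ((a (e.symm (e s)) : ℂ) * f (e.symm (e s))) = f s
    rw [e.symm_apply_apply, ← mul_assoc, sgn_mul (ha _), one_mul]
  map_add' f g := by
    ext s
    show (a s : ℂ) * (f (e s) + g (e s)) = (a s : ℂ) * f (e s) + (a s : ℂ) * g (e s)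
    ring
  map_smul' r f := by
    ext s
    show (a s : ℂ) * (r * f (e s)) = r * ((a s : ℂ) * f (e s))
    ring
  norm_map' f := by
    have h : ‖mk2 (fun t => (a t : ℂ) * f (e t)) (sum_reix e a ha f)‖ ^ 2 = ‖f‖ ^ 2 := by
      rw [norm_sq_eq, norm_sq_eq, ← e.tsum_eq (fun s => ‖f s‖ ^ 2)]
      refine tsum_congr fun t => ?_
      rw [mk2_apply, norm_mul, norm_sgn (ha t), one_mul]
    exact (sq_eq_sq₀ (norm_nonneg _) (norm_nonneg _)).1 h

theorem reix_apply {I : Type} (e : I ≃ I) (a : I → ℤ) (ha : ∀ s, a s * a s = 1) (f : L2 I)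
    (t : I) : reix e a ha f t = (a t : ℂ) * f (e t) := rfl

namespace Dm

variable {Q I : Type} [Group Q] (D : Dm Q I)

/-- the unitary operator `e_s ↦ ± e_{q s}` -/
noncomputable def U (q : Q) : L2 I ≃ₗᵢ[ℂ] L2 I :=
  reix (D.a q)⁻¹ (fun t => D.sg q ((D.a q)⁻¹ t)) fun _ => D.sg_sq _ _

theorem U_apply (q : Q) (f : L2 I) (t : I) :
    D.U q f t = (D.sg q ((D.a q)⁻¹ t) : ℂ) * f ((D.a q)⁻¹ t) := rfl

theorem U_smul (q : Q) (f : L2 I) (s : I) : D.U q f (D.a q s) = (D.sg q s : ℂ) * f s := by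
  have h : (D.a q)⁻¹ (D.a q s) = s := (D.a q).symm_apply_apply s
  rw [U_apply, h]

/-- invariant subspaces -/
def Inv (K : Submodule ℂ (L2 I)) : Prop := ∀ q f, f ∈ K ↔ D.U q f ∈ K

/-- the trace -/
noncomputable def tr (A : L2 I →L[ℂ] L2 I) : ℂ := ∑ s ∈ D.F, (D.c s : ℂ) * A (ee s) s

/-- the dimension of the closure of a subspace -/
noncomputable def dm (K : Submodule ℂ (L2 I)) : ℝ :=
  ∑ s ∈ D.F, D.c s * ‖K.topologicalClosure.starProjection (ee s)‖ ^ 2

end Dm

/-- equivariant operators -/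
def Eqv {Q I I' : Type} [Group Q] (D : Dm Q I) (D' : Dm Q I') (A : L2 I →L[ℂ] L2 I') : Prop :=
  ∀ q f, A (D.U q f) = D'.U q (A f)

end Pool.Agent.H19.LI
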