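import Pool.Agent.H19.LI.Defs
import Pool.Agent.H19.LI.Vn

/-!
# Project LI: the auxiliary group, the index set, twisted chains
-/

set_option autoImplicit false

open Finset
open scoped Pointwise

namespace Pool.Agent.H19.LI

open Pool.Agent.H19.Cub Pool.Agent.H4.Singer

variable {V X : Type} [DecidableEq V]

/-- The auxiliary group. -/
structure GD (C : CubeComplex V X) (Γ G : Type) [Group Γ] [MulAction Γ V] [Group G] where
  R : V → G
  B : V → G
  z : G
  j : Γ →* G
  zz : z * z = 1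
  z_ne : z ≠ 1
  RR : ∀ v, R v * R v = 1
  BB : ∀ v, B v * B v = 1
  RB : ∀ v, R v * B v = z * (B v * R v)
  zR : ∀ v, z * R v = R v * z
  zB : ∀ v, z * B v = B v * z
  zj : ∀ g, z * j g = j g * z
  cRR : ∀ u v, C.graph.Adj u v → R u * R v = R v * R u
  cRB : ∀ u v, C.graph.Adj u v → R u * B v = B v * R u
  cBB : ∀ u v, C.graph.Adj u v → B u * B v = B v * B u
  jR : ∀ g v, j g * R v = R (g • v) * j g
  jB : ∀ g v, j g * B v = B (g • v) * j g
  κ : ∀ x, G → RGrp (lk C x)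
  κ_mul : ∀ x g (v : {v // v ∈ C.lab x}), κ x (g * R v.1 * B v.1) = κ x g * gen (lk C x) v

/-- the cubes with a chosen vertex, and all other sets of labels at a vertex -/
abbrev Jx (C : CubeComplex V X) : Type := {p : Finset V × X // p.1 ⊆ C.lab p.2}

/-- the coefficient of `(σ, x)` -/
noncomputable def ev {C : CubeComplex V X} {κ : Type} (f : L2 (Jx C × κ)) (σ : Finset V) (x : X)
    (k : κ) : ℂ := by
  classical exact if h : σ ⊆ C.lab x then f (⟨(σ, x), h⟩, k) else 0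

theorem ev_pos {C : CubeComplex V X} {κ : Type} (f : L2 (Jx C × κ)) {σ : Finset V} {x : X}
    (h : σ ⊆ C.lab x) (k : κ) : ev f σ x k = f (⟨(σ, x), h⟩, k) := dif_pos h

theorem ev_neg {C : CubeComplex V X} {κ : Type} (f : L2 (Jx C × κ)) {σ : Finset V} {x : X}
    (h : ¬ σ ⊆ C.lab x) (k : κ) : ev f σ x k = 0 := dif_neg h

theorem ev_zero {C : CubeComplex V X} {κ : Type} (σ : Finset V) (x : X) (k : κ) :
    ev (0 : L2 (Jx C × κ)) σ x k = 0 := by
  by_cases h : σ ⊆ C.lab x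
  · rw [ev_pos _ h]
    rfl
  · exact ev_neg _ h k

theorem ev_add {C : CubeComplex V X} {κ : Type} (f g : L2 (Jx C × κ)) (σ : Finset V) (x : X)
    (k : κ) : ev (f + g) σ x k = ev f σ x k + ev g σ x k := by
  by_cases h : σ ⊆ C.lab x
  · rw [ev_pos _ h, ev_pos _ h, ev_pos _ h]
    rfl
  · rw [ev_neg _ h, ev_neg _ h, ev_neg _ h, add_zero]

theorem ev_smul {C : CubeComplex V X} {κ : Type} (c : ℂ) (f : L2 (Jx C × κ)) (σ : Finset V)
    (x : X) (k : κ) : ev (c • f) σ x k = c * ev f σ x k := by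
  by_cases h : σ ⊆ C.lab x
  · rw [ev_pos _ h, ev_pos _ h]
    rfl
  · rw [ev_neg _ h, ev_neg _ h, mul_zero]

section

variable {C : CubeComplex V X} {Γ G : Type} [Group Γ] [MulAction Γ V] [Group G] (D : GD C Γ G)

/-- `2 N⁺ m` at `g`, `N⁺ = (R + i B) / 2` -/
noncomputable def Np (m : G → ℂ) (v : V) (g : G) : ℂ :=
  m (g * D.R v) + Complex.I * m (g * D.B v)

/-- `2 N⁻ m` at `g`, `N⁻ = (R - i B) / 2` -/
noncomputable def Nm (m : G → ℂ) (v : V) (g : G) : ℂ :=
  m (g * D.R v) - Complex.I * m (g * D.B v)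

/-- Twisted chains of degree `i` with the parameter `T`. -/
noncomputable def Ch (T : ℂ) (i : ℕ) : Submodule ℂ (L2 (Jx C × G)) where
  carrier := {f | (∀ p g, f (p, g * D.z) = - f (p, g)) ∧
    (∀ p g, f (p, g) ≠ 0 → C.graph.IsClique (p.1.1 : Set V) ∧ p.1.1.card = i) ∧
    ∀ σ x, σ ⊆ C.lab x → C.graph.IsClique (σ : Set V) → ∀ v ∈ σ, ∀ g,
      2 * T * ev f σ (C.nb v x) g =
        - (Np D (ev f σ x) v g + T ^ 2 * Nm D (ev f σ x) v g)}
  zero_mem' := by
    refine ⟨fun p g => ?_, fun p g h => absurd rfl h, fun σ x _ _ v _ g => ?_⟩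
    · show (0 : ℂ) = - 0
      rw [neg_zero]
    · simp only [Np, Nm, ev_zero]
      ring
  add_mem' := by
    rintro f f' ⟨h1, h2, h3⟩ ⟨h1', h2', h3'⟩
    refine ⟨fun p g => ?_, fun p g h => ?_, fun σ x hσ hc v hv g => ?_⟩
    · show f (p, g * D.z) + f' (p, g * D.z) = - (f (p, g) + f' (p, g))
      rw [h1, h1', neg_add]
    · by_cases hf : f (p, g) = 0
      · by_cases hf' : f' (p, g) = 0
        · refine absurd ?_ h
          show f (p, g) + f' (p, g) = 0
          rw [hf, hf', add_zero]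
        · exact h2' p g hf'
      · exact h2 p g hf
    · have e1 := h3 σ x hσ hc v hv g
      have e2 := h3' σ x hσ hc v hv g
      simp only [Np, Nm, ev_add] at e1 e2 ⊢
      linear_combination e1 + e2
  smul_mem' := by
    rintro c f ⟨h1, h2, h3⟩
    refine ⟨fun p g => ?_, fun p g h => ?_, fun σ x hσ hc v hv g => ?_⟩
    · show c * f (p, g * D.z) = - (c * f (p, g))
      rw [h1]
      ring
    · refine h2 p g fun h0 => h ?_
      show c * f (p, g) = 0
      rw [h0, mul_zero]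
    · have e1 := h3 σ x hσ hc v hv g
      simp only [Np, Nm, ev_smul] at e1 ⊢
      linear_combination c * e1

end

/-- a cutoff function on the vertices -/
structure Cut (Γ X : Type) [Group Γ] [MulAction Γ X] where
  F : Finset X
  c : X → ℝ
  nonneg : ∀ x, 0 ≤ c x
  supp : ∀ x, x ∉ F → c x = 0
  sum : ∀ x, HasSum (fun g : Γ => c (g • x)) 1

/-- the sign of the permutation by which `g` changes the order of `σ` -/
def sgi {Γ : Type} [Group Γ] [MulAction Γ V] (ν : V → ℕ) (g : Γ) (σ : Finset V) : ℤ :=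
  (-1) ^ ((σ ×ˢ σ).filter fun p => ν p.1 < ν p.2 ∧ ν (g • p.2) < ν (g • p.1)).card

/-- the boundary operator on `ℓ²` -/
def IsBd {C : CubeComplex V X} {κ : Type} (ν : V → ℕ)
    (d : L2 (Jx C × κ) →L[ℂ] L2 (Jx C × κ)) : Prop :=
  ∀ f τ x k, ev (d f) τ x k = if τ ⊆ C.lab x then
    ∑ v ∈ C.lab x \ τ, (sv ν v τ : ℂ) * ev f (insert v τ) x k else 0

end Pool.Agent.H19.LI
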