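import Pool.Agent.H19.LI.VnC

/-!
# Project LI: the trace property

Matrix entries `F s t = (A e_s) t * (B e_t) s` satisfy `F (q s) (q t) = F s t`
(`A e_{q s} = ± A U_q e_s = ± U'_q A e_s`, the signs cancel); `(B A e_s) s = ∑ t, F s t` and
`(A B e_t) t = ∑ s, F s t` (absolutely convergent: `(B e_t) s = conj ((B† e_s) t)`). Mass transport:
`∑ s, c s ∑ t, F s t = ∑ s, ∑ t, ∑ q, c s c' (q t) F s t = ∑ s, ∑ t', c s c' t' ∑ q, F s (q⁻¹ t')`
and symmetrically for the other side; `F s (q⁻¹ t) = F (q s) t`, substitute `q ↦ q⁻¹`.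
-/

set_option autoImplicit false

open Finset ContinuousLinearMap

namespace Pool.Agent.H19.LI

variable {Q I I' : Type} [Group Q]

private theorem vnA_aux (D : Dm Q I) (D' : Dm Q I') (f : I → I' → ℂ) (h1 : ∀ i, Summable (f i)) :
    Summable (fun p : (I × I') × Q =>
      (D.c p.1.1 : ℂ) * (D'.c (D'.a p.2 p.1.2) : ℂ) * f p.1.1 p.1.2) ∧
    ∑' p : (I × I') × Q, (D.c p.1.1 : ℂ) * (D'.c (D'.a p.2 p.1.2) : ℂ) * f p.1.1 p.1.2 =
      ∑' i, (D.c i : ℂ) * ∑' j, f i j := by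
  have hq : ∀ i j, HasSum (fun q : Q => (D.c i : ℂ) * (D'.c (D'.a q j) : ℂ) * f i j)
      ((D.c i : ℂ) * f i j) := by
    intro i j
    have h := ((Complex.hasSum_ofReal.2 (D'.sum j)).mul_left (D.c i : ℂ)).mul_right (f i j)
    simpa using h
  have hqn : ∀ i j, HasSum (fun q : Q => ‖(D.c i : ℂ) * (D'.c (D'.a q j) : ℂ) * f i j‖)
      (D.c i * ‖f i j‖) := by
    intro i j
    have h := ((D'.sum j).mul_left (D.c i)).mul_right ‖f i j‖
    rw [mul_one] at h
    refine h.congr_fun fun q => ?_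
    rw [norm_mul, norm_mul, Complex.norm_real, Complex.norm_real, Real.norm_of_nonneg (D.nonneg i),
      Real.norm_of_nonneg (D'.nonneg _)]
  have hs : Summable (fun p : I × I' => D.c p.1 * ‖f p.1 p.2‖) := by
    rw [summable_prod_of_nonneg (fun p => mul_nonneg (D.nonneg _) (norm_nonneg _))]
    refine ⟨fun i => (h1 i).norm.mul_left (D.c i), ?_⟩
    refine summable_of_hasFiniteSupport (D.F.finite_toSet.subset fun i hi => ?_)
    rw [Function.mem_support] at hi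
    by_contra h0
    apply hi
    simp [D.supp i h0]
  have hsum : Summable (fun p : (I × I') × Q =>
      (D.c p.1.1 : ℂ) * (D'.c (D'.a p.2 p.1.2) : ℂ) * f p.1.1 p.1.2) := by
    rw [← summable_norm_iff, summable_prod_of_nonneg (fun p => norm_nonneg _)]
    refine ⟨fun p => (hqn p.1 p.2).summable, ?_⟩
    refine hs.congr fun p => ?_
    exact (hqn p.1 p.2).tsum_eq.symm
  refine ⟨hsum, ?_⟩
  rw [hsum.tsum_prod]
  have h2 : ∀ p : I × I', ∑' q : Q, (D.c p.1 : ℂ) * (D'.c (D'.a q p.2) : ℂ) * f p.1 p.2 =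
      (D.c p.1 : ℂ) * f p.1 p.2 := fun p => (hq p.1 p.2).tsum_eq
  simp_rw [h2]
  have h3 : Summable (fun p : I × I' => (D.c p.1 : ℂ) * f p.1 p.2) := by
    rw [← summable_norm_iff]
    refine hs.congr fun p => ?_
    rw [norm_mul, Complex.norm_real, Real.norm_of_nonneg (D.nonneg _)]
  rw [h3.tsum_prod]
  exact tsum_congr fun i => tsum_mul_left (a := (D.c i : ℂ)) (f := f i)

/-- **Mass transport.** -/
theorem mass_transport (D : Dm Q I) (D' : Dm Q I') (f : I → I' → ℂ)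
    (hf : ∀ (q : Q) i j, f (D.a q i) (D'.a q j) = f i j) (h1 : ∀ i, Summable (f i))
    (h2 : ∀ j, Summable fun i => f i j) :
    ∑' i, (D.c i : ℂ) * ∑' j, f i j = ∑' j, (D'.c j : ℂ) * ∑' i, f i j := by
  obtain ⟨-, e1⟩ := vnA_aux D D' f h1
  obtain ⟨-, e2⟩ := vnA_aux D' D (fun j i => f i j) h2
  rw [← e1, ← e2]
  have hi : ∀ (q : Q) i, D.a q⁻¹ (D.a q i) = i := by
    intro q i
    rw [map_inv]
    exact (D.a q).symm_apply_apply i
  have hi' : ∀ (q : Q) i, D'.a q⁻¹ (D'.a q i) = i := by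
    intro q i
    rw [map_inv]
    exact (D'.a q).symm_apply_apply i
  let e : (I × I') × Q ≃ (I' × I) × Q :=
    { toFun := fun p => ((D'.a p.2 p.1.2, D.a p.2 p.1.1), p.2⁻¹)
      invFun := fun p => ((D.a p.2 p.1.2, D'.a p.2 p.1.1), p.2⁻¹)
      left_inv := fun p => by
        simp only [hi, hi', inv_inv]
      right_inv := fun p => by
        simp only [hi, hi', inv_inv] }
  rw [← e.tsum_eq]
  refine tsum_congr fun p => ?_
  show (D.c p.1.1 : ℂ) * (D'.c (D'.a p.2 p.1.2) : ℂ) * f p.1.1 p.1.2 =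
    (D'.c (D'.a p.2 p.1.2) : ℂ) * (D.c (D.a p.2⁻¹ (D.a p.2 p.1.1)) : ℂ) *
      f (D.a p.2 p.1.1) (D'.a p.2 p.1.2)
  rw [hf, hi]
  ring

private theorem vnA_entry (D : Dm Q I) (D' : Dm Q I') {A : L2 I →L[ℂ] L2 I'} (hA : Eqv D D' A)
    (q : Q) (s : I) (t : I') :
    (A (ee (D.a q s))) (D'.a q t) = (D.sg q s : ℂ) * ((D'.sg q t : ℂ) * (A (ee s)) t) := by
  have h1 : ee (D.a q s) = (D.sg q s : ℂ) • D.U q (ee s) := by
    rw [U_ee, smul_smul, sgn_mul (D.sg_sq q s), one_smul]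
  rw [h1, map_smul, hA]
  show (D.sg q s : ℂ) * (D'.U q (A (ee s))) (D'.a q t) = _
  rw [Dm.U_smul]

private theorem vnA_sum (A : L2 I →L[ℂ] L2 I') (B : L2 I' →L[ℂ] L2 I) (s : I) :
    HasSum (fun t => (A (ee s)) t * (B (ee t)) s) ((B (A (ee s))) s) := by
  have h := lp.hasSum_inner (𝕜 := ℂ) (G := fun _ : I' => ℂ) (adjoint B (ee s)) (A (ee s))
  have h1 : inner ℂ (adjoint B (ee s)) (A (ee s)) = (B (A (ee s))) s := by
    rw [adjoint_inner_left, inner_ee]
  rw [h1] at h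
  refine h.congr_fun fun t => ?_
  have h2 : (adjoint B (ee s)) t = (starRingEnd ℂ) ((B (ee t)) s) := by
    rw [← inner_ee t (adjoint B (ee s)), adjoint_inner_right, ← inner_ee s (B (ee t)),
      inner_conj_symm]
  rw [h2]
  show _ = (A (ee s)) t * (starRingEnd ℂ) ((starRingEnd ℂ) ((B (ee t)) s))
  rw [Complex.conj_conj]

/-- **The trace property.** -/
theorem tr_comm (D : Dm Q I) (D' : Dm Q I') (A : L2 I →L[ℂ] L2 I') (B : L2 I' →L[ℂ] L2 I)
    (hA : Eqv D D' A) (hB : Eqv D' D B) : D.tr (B ∘L A) = D'.tr (A ∘L B) := by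
  have h1 := fun s => vnA_sum A B s
  have h2 := fun t => vnA_sum B A t
  have key := mass_transport D D' (fun s t => (A (ee s)) t * (B (ee t)) s)
    (by
      intro q s t
      show (A (ee (D.a q s))) (D'.a q t) * (B (ee (D'.a q t))) (D.a q s) = _
      rw [vnA_entry D D' hA, vnA_entry D' D hB]
      have e1 := sgn_mul (D.sg_sq q s)
      have e2 := sgn_mul (D'.sg_sq q t)
      linear_combination ((A (ee s)) t * (B (ee t)) s) * ((D'.sg q t : ℂ) * (D'.sg q t : ℂ)) * e1 +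
        ((A (ee s)) t * (B (ee t)) s) * e2)
    (fun s => (h1 s).summable)
    (fun t => (h2 t).summable.congr fun s => mul_comm _ _)
  have h3 : ∀ s, ∑' t, (A (ee s)) t * (B (ee t)) s = (B (A (ee s))) s :=
    fun s => (h1 s).tsum_eq
  have h4 : ∀ t, ∑' s, (A (ee s)) t * (B (ee t)) s = (A (B (ee t))) t := by
    intro t
    rw [← (h2 t).tsum_eq]
    exact tsum_congr fun s => mul_comm _ _
  simp_rw [h3, h4] at key
  have t1 : D.tr (B ∘L A) = ∑' s, (D.c s : ℂ) * (B (A (ee s))) s := by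
    rw [tsum_eq_sum (s := D.F)]
    · rfl
    · intro s hs
      rw [D.supp s hs]
      simp
  have t2 : D'.tr (A ∘L B) = ∑' t, (D'.c t : ℂ) * (A (B (ee t))) t := by
    rw [tsum_eq_sum (s := D'.F)]
    · rfl
    · intro s hs
      rw [D'.supp s hs]
      simp
  rw [t1, t2, key]

end Pool.Agent.H19.LI
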