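import Pool.Agent.H19.LI.VnA
import Pool.Agent.H19.LI.VnC

/-!
# Project LI: kernel and range

Let `c ≥ ‖A‖ ^ 2`, `c > 0`, `S = 1 - A† A / c` on `L2 I`, `S' = 1 - A A† / c` on `L2 I'`. Then
`‖S x‖ ≤ ‖x‖` (`‖S x‖² = ‖x‖² - 2 ‖A x‖² / c + ‖A† A x‖² / c² ≤ ‖x‖²`), the fixed vectors of `S` are
`ker A`, and `tr (1 - S ^ n) = tr (1 - S' ^ n)` by `tr_comm`; the same holds for the Birkhoff averages, and by the
mean ergodic theorem (`ContinuousLinearMap.tendsto_birkhoffAverage_orthogonalProjection`) they converge to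
`dm (ker A)ᗮ` and `dm (ker A†)ᗮ = dm (range A)`.
-/

set_option autoImplicit false

open Finset ContinuousLinearMap Filter Topology

namespace Pool.Agent.H19.LI

variable {Q I I' : Type} [Group Q]

private noncomputable def vnS (s : ℝ) (A : L2 I →L[ℂ] L2 I') : L2 I →L[ℂ] L2 I :=
  1 - ((s⁻¹ : ℝ) : ℂ) • ((adjoint A) ∘L A)

private theorem vnS_apply (s : ℝ) (A : L2 I →L[ℂ] L2 I') (x : L2 I) :
    vnS s A x = x - ((s⁻¹ : ℝ) : ℂ) • adjoint A (A x) := rfl

private theorem vnS_norm {s : ℝ} (hs0 : 0 < s) (A : L2 I →L[ℂ] L2 I') (hs : ‖A‖ ^ 2 ≤ s) :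
    ‖vnS s A‖ ≤ 1 := by
  refine opNorm_le_bound _ zero_le_one fun x => ?_
  rw [one_mul, vnS_apply]
  refine (sq_le_sq₀ (norm_nonneg _) (norm_nonneg _)).1 ?_
  rw [@norm_sub_sq ℂ, inner_smul_right, adjoint_inner_right, inner_self_eq_norm_sq_to_K, norm_smul]
  have h1 : RCLike.re (((s⁻¹ : ℝ) : ℂ) * ((‖A x‖ : ℂ) ^ 2)) = s⁻¹ * ‖A x‖ ^ 2 := by
    rw [← Complex.ofReal_pow, ← Complex.ofReal_mul]
    exact Complex.ofReal_re _
  have h2 : ‖((s⁻¹ : ℝ) : ℂ)‖ = s⁻¹ := by
    rw [Complex.norm_real, Real.norm_of_nonneg (by positivity)]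
  have h3 : ‖adjoint A (A x)‖ ≤ ‖A‖ * ‖A x‖ := by
    have := (adjoint A).le_opNorm (A x)
    rwa [LinearIsometryEquiv.norm_map] at this
  have h4 : ‖adjoint A (A x)‖ ^ 2 ≤ s * ‖A x‖ ^ 2 := by
    calc ‖adjoint A (A x)‖ ^ 2 ≤ (‖A‖ * ‖A x‖) ^ 2 := pow_le_pow_left₀ (norm_nonneg _) h3 2
      _ = ‖A‖ ^ 2 * ‖A x‖ ^ 2 := by ring
      _ ≤ s * ‖A x‖ ^ 2 := mul_le_mul_of_nonneg_right hs (by positivity)
  have h5 : (s⁻¹ * ‖adjoint A (A x)‖) ^ 2 ≤ s⁻¹ * ‖A x‖ ^ 2 := by
    rw [mul_pow]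
    calc s⁻¹ ^ 2 * ‖adjoint A (A x)‖ ^ 2 ≤ s⁻¹ ^ 2 * (s * ‖A x‖ ^ 2) :=
          mul_le_mul_of_nonneg_left h4 (by positivity)
      _ = s⁻¹ * ‖A x‖ ^ 2 := by
        field_simp
  have h6 : 0 ≤ s⁻¹ * ‖A x‖ ^ 2 := by positivity
  have h7 : (RCLike.re (((s⁻¹ : ℝ) : ℂ) * (((‖A x‖ : ℝ) : ℂ) ^ 2)) : ℝ) = s⁻¹ * ‖A x‖ ^ 2 := h1
  rw [h2]
  simp only [Complex.coe_algebraMap] at *
  rw [h7]
  linarith

private theorem vnS_fix {s : ℝ} (hs0 : 0 < s) (A : L2 I →L[ℂ] L2 I') (x : L2 I) :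
    vnS s A x = x ↔ A x = 0 := by
  rw [vnS_apply, sub_eq_self, smul_eq_zero]
  constructor
  · rintro (h | h)
    · rw [Complex.ofReal_eq_zero, inv_eq_zero] at h
      exact absurd h hs0.ne'
    · have h1 : inner ℂ (adjoint A (A x)) x = inner ℂ (A x) (A x) := adjoint_inner_left _ _ _
      rw [h, inner_zero_left] at h1
      exact inner_self_eq_zero.1 h1.symm
  · intro h
    rw [h, map_zero]
    exact Or.inr rfl

private theorem vnB_lim (D : Dm Q I) {s : ℝ} (hs0 : 0 < s) (A : L2 I →L[ℂ] L2 I')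
    (hs : ‖A‖ ^ 2 ≤ s) :
    Tendsto (fun n : ℕ => (n : ℂ)⁻¹ * ∑ k ∈ range n, D.tr (1 - vnS s A ^ k)) atTop
      (𝓝 (D.dm (LinearMap.ker (A : L2 I →ₗ[ℂ] L2 I'))ᗮ : ℂ)) := by
  set K : Submodule ℂ (L2 I) := LinearMap.ker (A : L2 I →ₗ[ℂ] L2 I') with hK
  have hKc : IsClosed (K : Set (L2 I)) := A.isClosed_ker
  have : CompleteSpace K := hKc.completeSpace_coe
  -- the limit of the averages
  have h1 : ∀ x : L2 I, Tendsto (fun n : ℕ => birkhoffAverage ℂ (vnS s A) _root_.id n x) atTop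
      (𝓝 (K.starProjection x)) := by
    intro x
    have h := tendsto_birkhoffAverage_orthogonalProjection (vnS s A) (vnS_norm hs0 A hs) x
    have hL : ∀ y, y ∈ (vnS s A).eqLocus (1 : L2 I →L[ℂ] L2 I) ↔ y ∈ K := by
      intro y
      rw [hK, LinearMap.mem_ker, coe_coe, ← vnS_fix hs0 A y]
      rfl
    have h2 : K.starProjection x =
        (((vnS s A).eqLocus (1 : L2 I →L[ℂ] L2 I)).orthogonalProjectionOnto x : L2 I) := by
      refine Submodule.eq_starProjection_of_mem_orthogonal ?_ ?_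
      · exact (hL _).1 (Submodule.coe_mem _)
      · have h3 : Kᗮ = ((vnS s A).eqLocus (1 : L2 I →L[ℂ] L2 I))ᗮ := by
          congr 1
          ext y
          exact (hL y).symm
        rw [h3]
        exact Submodule.sub_starProjection_mem_orthogonal x
    rw [h2]
    exact h
  have h2 : ∀ t : I, Tendsto (fun n : ℕ => (n : ℂ)⁻¹ * ∑ k ∈ range n,
      ((1 - vnS s A ^ k) (ee t)) t) atTop (𝓝 (1 - (K.starProjection (ee t)) t)) := by
    intro t
    have h3 : Tendsto (fun n : ℕ => 1 - inner ℂ (ee t) (birkhoffAverage ℂ (vnS s A) _root_.id n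
        (ee t))) atTop (𝓝 (1 - inner ℂ (ee t) (K.starProjection (ee t)))) :=
      tendsto_const_nhds.sub (Filter.Tendsto.inner tendsto_const_nhds (h1 (ee t)))
    rw [inner_ee] at h3
    refine h3.congr' ?_
    filter_upwards [eventually_gt_atTop 0] with n hn
    have hn0 : (n : ℂ) ≠ 0 := by
      rw [Nat.cast_ne_zero]
      exact hn.ne'
    rw [birkhoffAverage, birkhoffSum, inner_smul_right, inner_sum]
    have h4 : ∀ k ∈ range n, ((1 - vnS s A ^ k) (ee t)) t =
        1 - inner ℂ (ee t) (_root_.id ((vnS s A)^[k] (ee t))) := by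
      intro k _
      rw [inner_ee]
      show (ee t : L2 I) t - ((vnS s A ^ k) (ee t)) t = _
      rw [ee_apply_self, FunLike.coe_pow_eq_iterate]
      rfl
    rw [Finset.sum_congr rfl h4, Finset.sum_sub_distrib, mul_sub, Finset.sum_const, card_range,
      nsmul_eq_mul, mul_one, inv_mul_cancel₀ hn0]
  have h3 : (D.dm Kᗮ : ℂ) = ∑ t ∈ D.F, (D.c t : ℂ) * (1 - (K.starProjection (ee t)) t) := by
    unfold Dm.dm
    rw [Complex.ofReal_sum]
    refine Finset.sum_congr rfl fun t _ => ?_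
    rw [Complex.ofReal_mul]
    congr 1
    have h4 : Kᗮ.topologicalClosure.starProjection (ee t) = ee t - K.starProjection (ee t) := by
      have h5 : Kᗮ.topologicalClosure = Kᗮ :=
        IsClosed.submodule_topologicalClosure_eq (Submodule.isClosed_orthogonal K)
      refine Submodule.eq_starProjection_of_mem_orthogonal ?_ ?_
      · rw [h5]
        exact Submodule.sub_starProjection_mem_orthogonal _
      · rw [h5, sub_sub_cancel, Submodule.orthogonal_orthogonal]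
        exact Submodule.starProjection_apply_mem K _
    rw [h4]
    have h6 : inner ℂ (ee t - K.starProjection (ee t)) (ee t - K.starProjection (ee t)) =
        (1 - (K.starProjection (ee t)) t : ℂ) := by
      rw [inner_sub_left]
      have h7 : inner ℂ (K.starProjection (ee t)) (ee t - K.starProjection (ee t)) = 0 :=
        (Submodule.mem_orthogonal K _).1 (Submodule.sub_starProjection_mem_orthogonal _) _
          (Submodule.starProjection_apply_mem K _)
      rw [h7, sub_zero, inner_ee]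
      show (ee t : L2 I) t - (K.starProjection (ee t)) t = _
      rw [ee_apply_self]
    rw [← h6, inner_self_eq_norm_sq_to_K]
    rw [Complex.ofReal_pow]
    rfl
  rw [h3]
  have h5 : (fun n : ℕ => (n : ℂ)⁻¹ * ∑ k ∈ range n, D.tr (1 - vnS s A ^ k)) =
      fun n : ℕ => ∑ t ∈ D.F, (D.c t : ℂ) * ((n : ℂ)⁻¹ * ∑ k ∈ range n,
        ((1 - vnS s A ^ k) (ee t)) t) := by
    funext n
    unfold Dm.tr
    rw [Finset.sum_comm, Finset.mul_sum]
    refine Finset.sum_congr rfl fun t _ => ?_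
    rw [← Finset.mul_sum]
    ring
  rw [h5]
  exact tendsto_finsetSum _ fun t _ => (h2 t).const_mul _

private theorem vnB_tr (D : Dm Q I) (D' : Dm Q I') (s : ℝ) (A : L2 I →L[ℂ] L2 I')
    (hA : Eqv D D' A) (k : ℕ) :
    D.tr (1 - vnS s A ^ k) = D'.tr (1 - vnS s (adjoint A) ^ k) := by
  have hA' : Eqv D' D (adjoint A) := eqv_adjoint D D' hA
  have hSA : A ∘L vnS s A = vnS s (adjoint A) ∘L A := by
    ext1 x
    rw [comp_apply, comp_apply, vnS_apply, vnS_apply, adjoint_adjoint, map_sub, map_smul]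
  have hSk : ∀ k, A ∘L (vnS s A ^ k) = (vnS s (adjoint A) ^ k) ∘L A := by
    intro k
    induction k with
    | zero => rfl
    | succ k ih =>
      rw [pow_succ, pow_succ, ContinuousLinearMap.mul_def, ContinuousLinearMap.mul_def, ← comp_assoc, ih, comp_assoc, hSA, comp_assoc]
  have hSe : Eqv D' D' (vnS s (adjoint A)) := by
    intro q x
    rw [vnS_apply, vnS_apply, adjoint_adjoint, hA', hA, map_sub, map_smul]
  have hSke : ∀ k, Eqv D' D' (vnS s (adjoint A) ^ k) := by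
    intro k
    induction k with
    | zero =>
      intro q x
      rfl
    | succ k ih =>
      rw [pow_succ]
      exact eqv_comp _ _ ih hSe
  have hadd : ∀ (E F : L2 I →L[ℂ] L2 I), D.tr (E + F) = D.tr E + D.tr F := by
    intro E F
    unfold Dm.tr
    rw [← Finset.sum_add_distrib]
    refine Finset.sum_congr rfl fun t _ => ?_
    show (D.c t : ℂ) * (E (ee t) t + F (ee t) t) = _
    ring
  have hadd' : ∀ (E F : L2 I' →L[ℂ] L2 I'), D'.tr (E + F) = D'.tr E + D'.tr F := by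
    intro E F
    unfold Dm.tr
    rw [← Finset.sum_add_distrib]
    refine Finset.sum_congr rfl fun t _ => ?_
    show (D'.c t : ℂ) * (E (ee t) t + F (ee t) t) = _
    ring
  have hsm : ∀ (r : ℂ) (E : L2 I →L[ℂ] L2 I), D.tr (r • E) = r * D.tr E := by
    intro r E
    unfold Dm.tr
    rw [Finset.mul_sum]
    refine Finset.sum_congr rfl fun t _ => ?_
    show (D.c t : ℂ) * (r * E (ee t) t) = _
    ring
  have hsm' : ∀ (r : ℂ) (E : L2 I' →L[ℂ] L2 I'), D'.tr (r • E) = r * D'.tr E := by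
    intro r E
    unfold Dm.tr
    rw [Finset.mul_sum]
    refine Finset.sum_congr rfl fun t _ => ?_
    show (D'.c t : ℂ) * (r * E (ee t) t) = _
    ring
  induction k with
  | zero =>
    rw [pow_zero, pow_zero, sub_self, sub_self]
    unfold Dm.tr
    simp
  | succ k ih =>
    have e1 : 1 - vnS s A ^ (k + 1) = (1 - vnS s A ^ k) +
        ((s⁻¹ : ℝ) : ℂ) • (((vnS s A ^ k) ∘L adjoint A) ∘L A) := by
      have : vnS s A ^ (k + 1) = vnS s A ^ k -
          ((s⁻¹ : ℝ) : ℂ) • (((vnS s A ^ k) ∘L adjoint A) ∘L A) := by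
        rw [pow_succ]
        ext1 x
        show (vnS s A ^ k) (vnS s A x) = _
        rw [vnS_apply, map_sub, map_smul]
        rfl
      rw [this]
      abel
    have e2 : 1 - vnS s (adjoint A) ^ (k + 1) = (1 - vnS s (adjoint A) ^ k) +
        ((s⁻¹ : ℝ) : ℂ) • (A ∘L ((vnS s A ^ k) ∘L adjoint A)) := by
      have : vnS s (adjoint A) ^ (k + 1) = vnS s (adjoint A) ^ k -
          ((s⁻¹ : ℝ) : ℂ) • (A ∘L ((vnS s A ^ k) ∘L adjoint A)) := by
        rw [← comp_assoc, hSk, pow_succ]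
        ext1 x
        show (vnS s (adjoint A) ^ k) (vnS s (adjoint A) x) = _
        rw [vnS_apply, adjoint_adjoint, map_sub, map_smul]
        rfl
      rw [this]
      abel
    rw [e1, e2, hadd, hadd', ih, hsm, hsm']
    congr 2
    refine tr_comm D D' A ((vnS s A ^ k) ∘L adjoint A) hA ?_
    have hSe1 : Eqv D D (vnS s A) := by
      intro q x
      rw [vnS_apply, vnS_apply, hA, hA', map_sub, map_smul]
    have hSk1 : ∀ k, Eqv D D (vnS s A ^ k) := by
      intro k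
      induction k with
      | zero =>
        intro q x
        rfl
      | succ k ih =>
        rw [pow_succ]
        exact eqv_comp _ _ ih hSe1
    exact eqv_comp _ _ (hSk1 k) hA'

/-- **Kernel and range.** -/
theorem dm_ker_orth (D : Dm Q I) (D' : Dm Q I') (A : L2 I →L[ℂ] L2 I') (hA : Eqv D D' A) :
    D.dm (LinearMap.ker (A : L2 I →ₗ[ℂ] L2 I'))ᗮ =
      D'.dm (LinearMap.range (A : L2 I →ₗ[ℂ] L2 I')) := by
  have hs0 : 0 < ‖A‖ ^ 2 + 1 := by positivity
  have h1 := vnB_lim D hs0 A (by linarith)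
  have h2 := vnB_lim D' hs0 (adjoint A) (by
    rw [LinearIsometryEquiv.norm_map]
    linarith)
  have h3 : (fun n : ℕ => (n : ℂ)⁻¹ * ∑ k ∈ range n, D.tr (1 - vnS (‖A‖ ^ 2 + 1) A ^ k)) =
      fun n : ℕ => (n : ℂ)⁻¹ * ∑ k ∈ range n, D'.tr (1 - vnS (‖A‖ ^ 2 + 1) (adjoint A) ^ k) := by
    funext n
    congr 1
    exact Finset.sum_congr rfl fun k _ => vnB_tr D D' _ A hA k
  rw [h3] at h1
  have h4 := Complex.ofReal_injective (tendsto_nhds_unique h1 h2)
  rw [h4]
  have h5 : (LinearMap.ker ((adjoint A : L2 I' →L[ℂ] L2 I) : L2 I' →ₗ[ℂ] L2 I))ᗮ =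
      (LinearMap.range (A : L2 I →ₗ[ℂ] L2 I')).topologicalClosure := by
    rw [← Submodule.orthogonal_orthogonal_eq_closure]
    congr 1
    exact (A.orthogonal_range).symm
  rw [h5, dm_closure]

end Pool.Agent.H19.LI
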