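import Pool.Agent.H19.LI.VnB

/-!
# Project LI: the dimension formula

Apply `dm_ker_orth` to `A ∘ P` (`P` the projection onto `K`, equivariant by `proj_U`): `range (A ∘ P) = K.map A`,
`ker (A ∘ P) = Kᗮ + (K ⊓ ker A)`, so `(ker (A ∘ P))ᗮ = K ⊓ (K ⊓ ker A)ᗮ`; then `dm_add`.
-/

set_option autoImplicit false

open Finset ContinuousLinearMap

namespace Pool.Agent.H19.LI

variable {Q I I' : Type} [Group Q] (D : Dm Q I) (D' : Dm Q I')

/-- **The dimension formula.** -/
theorem dm_rank {K : Submodule ℂ (L2 I)} (hK : IsClosed (K : Set (L2 I))) (iK : D.Inv K)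
    (A : L2 I →L[ℂ] L2 I') (hA : Eqv D D' A) :
    D.dm K = D.dm (K ⊓ LinearMap.ker (A : L2 I →ₗ[ℂ] L2 I')) +
      D'.dm (K.map (A : L2 I →ₗ[ℂ] L2 I')) := by
  have hKc : K.topologicalClosure = K := IsClosed.submodule_topologicalClosure_eq hK
  set P : L2 I →L[ℂ] L2 I := K.topologicalClosure.starProjection with hP
  have hPmem : ∀ x, P x ∈ K := fun x =>
    hKc.le (Submodule.starProjection_apply_mem K.topologicalClosure x)
  have hPid : ∀ x ∈ K, P x = x := fun x hx =>
    Submodule.starProjection_eq_self_iff.2 (hKc.ge hx)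
  have hPorth : ∀ x, x - P x ∈ Kᗮ := by
    intro x
    have := Submodule.sub_starProjection_mem_orthogonal (K := K.topologicalClosure) x
    rwa [Submodule.orthogonal_closure] at this
  have hAP : Eqv D D' (A ∘L P) := eqv_comp D D hA (proj_U D iK)
  have hker : IsClosed ((LinearMap.ker (A : L2 I →ₗ[ℂ] L2 I') : Submodule ℂ (L2 I)) :
      Set (L2 I)) := A.isClosed_ker
  have hKA : IsClosed ((K ⊓ LinearMap.ker (A : L2 I →ₗ[ℂ] L2 I') : Submodule ℂ (L2 I)) :
      Set (L2 I)) := by
    rw [Submodule.coe_inf]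
    exact hK.inter hker
  have h1 := dm_ker_orth D D' (A ∘L P) hAP
  have h2 : LinearMap.range ((A ∘L P : L2 I →L[ℂ] L2 I') : L2 I →ₗ[ℂ] L2 I') =
      K.map (A : L2 I →ₗ[ℂ] L2 I') := by
    ext y
    constructor
    · rintro ⟨x, rfl⟩
      exact ⟨P x, hPmem x, rfl⟩
    · rintro ⟨x, hx, rfl⟩
      refine ⟨x, ?_⟩
      show A (P x) = A x
      rw [hPid x hx]
  have h3 : (LinearMap.ker ((A ∘L P : L2 I →L[ℂ] L2 I') : L2 I →ₗ[ℂ] L2 I'))ᗮ =
      K ⊓ (K ⊓ LinearMap.ker (A : L2 I →ₗ[ℂ] L2 I'))ᗮ := by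
    ext y
    constructor
    · intro hy
      have hyK : y ∈ K := by
        have h4 : y - P y = 0 := by
          have h5 : y - P y ∈ LinearMap.ker ((A ∘L P : L2 I →L[ℂ] L2 I') : L2 I →ₗ[ℂ] L2 I') := by
            rw [LinearMap.mem_ker]
            show A (P (y - P y)) = 0
            rw [map_sub, hPid _ (hPmem y), sub_self, map_zero]
          have h6 := (Submodule.mem_orthogonal _ _).1 hy _ h5
          have h7 : inner ℂ (y - P y) (P y) = 0 :=
            (Submodule.mem_orthogonal' K _).1 (hPorth y) _ (hPmem y)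
          have h8 : inner ℂ (y - P y) (y - P y) = 0 := by
            rw [inner_sub_right, h6, h7, sub_zero]
          exact inner_self_eq_zero.1 h8
        rw [sub_eq_zero.1 h4]
        exact hPmem y
      refine ⟨hyK, (Submodule.mem_orthogonal _ _).2 fun z hz => ?_⟩
      refine (Submodule.mem_orthogonal _ _).1 hy z ?_
      rw [LinearMap.mem_ker]
      show A (P z) = 0
      rw [hPid z hz.1]
      exact LinearMap.mem_ker.1 hz.2
    · rintro ⟨hyK, hy⟩
      rw [Submodule.mem_orthogonal]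
      intro z hz
      have hz' : A (P z) = 0 := LinearMap.mem_ker.1 hz
      have h4 : inner ℂ (P z) y = 0 := (Submodule.mem_orthogonal _ _).1 hy (P z)
        ⟨hPmem z, LinearMap.mem_ker.2 hz'⟩
      have h5 : inner ℂ (z - P z) y = 0 := (Submodule.mem_orthogonal' K _).1 (hPorth z) y hyK
      have h6 : z = (z - P z) + P z := by abel
      rw [h6, inner_add_left, h5, h4, add_zero]
  rw [dm_add D hKA hK inf_le_left, ← h3, h1, h2]

end Pool.Agent.H19.LI
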