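import Pool.Agent.H19.LI.VnD

/-!
# Project LI: semicontinuity

`H^k = L2 (Fin k × I)` with the dimension data `D.pow k` (`c (j, s) = c s`). `∑ dm (Z j)` is the dimension of
`P = {f | every slice f (j, ·) is in Z j}`. Let `G a f = ∑ j, T j ^ a • slice j f` (equivariant) and
`P_a = P ⊓ ⨅ b ≥ a, ker (G b)` (`b < k`). By `dm_rank`, `dm P_{a+1} ≤ dm P_a + dm (P_{a+1}.map (G a))`, and
`P_{a+1}.map (G a) ≤ Z0` if `a + 2 < k` by `h`; for the two largest `a` it is `≤ ⊤`. Finally
`P_0 = ⊥` (Vandermonde matrix).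
-/

set_option autoImplicit false

open Finset ContinuousLinearMap

namespace Pool.Agent.H19.LI

variable {Q I : Type} [Group Q] (D : Dm Q I)

/-- the dimension data of the power -/
noncomputable def Dm.pow (k : ℕ) : Dm Q (Fin k × I) where
  a :=
    { toFun := fun q => (Equiv.refl (Fin k)).prodCongr (D.a q)
      map_one' := by
        ext p
        · rfl
        · show D.a 1 p.2 = p.2
          rw [map_one]
          rfl
      map_mul' := fun q q' => by
        ext p
        · rfl
        · show D.a (q * q') p.2 = D.a q (D.a q' p.2)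
          rw [map_mul]
          rfl }
  F := Finset.univ ×ˢ D.F
  c p := D.c p.2
  nonneg p := D.nonneg p.2
  supp p hp := by
    refine D.supp p.2 fun h => hp ?_
    rw [Finset.mem_product]
    exact ⟨Finset.mem_univ _, h⟩
  sum p := D.sum p.2
  sg q p := D.sg q p.2
  sg_sq q p := D.sg_sq q p.2

section slices

variable {k : ℕ}

private theorem slice_sum (j : Fin k) (f : L2 (Fin k × I)) : Summable fun s => ‖f (j, s)‖ ^ 2 :=
  (sum_sq f).comp_injective (i := fun s : I => (j, s)) fun _ _ h => (Prod.ext_iff.1 h).2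

/-- the slices -/
noncomputable def slice (j : Fin k) : L2 (Fin k × I) →L[ℂ] L2 I :=
  LinearMap.mkContinuous
    { toFun := fun f => mk2 (fun s => f (j, s)) (slice_sum j f)
      map_add' := fun f g => by
        ext s
        rfl
      map_smul' := fun r f => by
        ext s
        rfl } 1 fun f => by
    rw [one_mul]
    refine (sq_le_sq₀ (norm_nonneg _) (norm_nonneg _)).1 ?_
    rw [norm_sq_eq f]
    show ‖mk2 (fun s => f (j, s)) (slice_sum j f)‖ ^ 2 ≤ _
    rw [norm_sq_eq]
    exact (slice_sum j f).tsum_le_tsum_of_inj (fun s : I => (j, s))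
      (fun _ _ h => (Prod.ext_iff.1 h).2) (fun _ _ => by positivity) (fun _ => le_rfl) (sum_sq f)

theorem slice_apply (j : Fin k) (f : L2 (Fin k × I)) (s : I) : slice j f s = f (j, s) := rfl

private theorem emb_sum (j : Fin k) (x : L2 I) :
    HasSum (fun p : Fin k × I => ‖(if p.1 = j then x p.2 else 0 : ℂ)‖ ^ 2) (‖x‖ ^ 2) := by
  have hinj : Function.Injective (fun s : I => (j, s)) := fun _ _ h => (Prod.ext_iff.1 h).2
  rw [norm_sq_eq x]
  rw [← hinj.hasSum_iff]
  · have : (fun p : Fin k × I => ‖(if p.1 = j then x p.2 else 0 : ℂ)‖ ^ 2) ∘ (fun s : I => (j, s)) =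
        fun s => ‖x s‖ ^ 2 := by
      funext s
      simp
    rw [this]
    exact (sum_sq x).hasSum
  · rintro ⟨j', s⟩ hp
    have : j' ≠ j := by
      rintro rfl
      exact hp ⟨s, rfl⟩
    simp [this]

/-- the inclusions -/
noncomputable def emb (j : Fin k) (x : L2 I) : L2 (Fin k × I) :=
  mk2 (fun p => if p.1 = j then x p.2 else 0) (emb_sum j x).summable

theorem norm_emb (j : Fin k) (x : L2 I) : ‖emb j x‖ ^ 2 = ‖x‖ ^ 2 := by
  rw [norm_sq_eq]
  exact (emb_sum j x).tsum_eq

theorem slice_emb (j j' : Fin k) (x : L2 I) : slice j' (emb j x) = if j' = j then x else 0 := by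
  ext s
  rw [slice_apply]
  show (if j' = j then x s else 0 : ℂ) = _
  split_ifs <;> rfl

theorem emb_ee (j : Fin k) (s : I) : emb j (ee s) = ee (j, s) := by
  ext p
  obtain ⟨j', t⟩ := p
  show (if j' = j then (ee s : L2 I) t else 0 : ℂ) = _
  by_cases hj : j' = j
  · subst hj
    rw [if_pos rfl]
    by_cases ht : t = s
    · subst ht
      rw [ee_apply_self, ee_apply_self]
    · rw [ee_apply_ne ht, ee_apply_ne]
      intro h
      exact ht (Prod.ext_iff.1 h).2
  · rw [if_neg hj, ee_apply_ne]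
    intro h
    exact hj (Prod.ext_iff.1 h).1

theorem inner_slices (f g : L2 (Fin k × I)) :
    inner ℂ f g = ∑ j, inner ℂ (slice j f) (slice j g) := by
  have h1 := lp.summable_inner (𝕜 := ℂ) (G := fun _ : Fin k × I => ℂ) f g
  rw [lp.inner_eq_tsum, h1.tsum_prod, tsum_fintype]
  refine Finset.sum_congr rfl fun j _ => ?_
  rw [lp.inner_eq_tsum]
  rfl

theorem slice_ext {f g : L2 (Fin k × I)} (h : ∀ j, slice j f = slice j g) : f = g := by
  ext p
  obtain ⟨j, s⟩ := p
  rw [← slice_apply, ← slice_apply, h]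

theorem eqv_slice (j : Fin k) : Eqv (D.pow k) D (slice j : L2 (Fin k × I) →L[ℂ] L2 I) := by
  intro q f
  ext s
  rfl

end slices

/-- the families with values in the subspaces `Z j` -/
noncomputable def fam {k : ℕ} (Z : Fin k → Submodule ℂ (L2 I)) : Submodule ℂ (L2 (Fin k × I)) :=
  ⨅ j, (Z j).comap (slice j : L2 (Fin k × I) →L[ℂ] L2 I).toLinearMap

theorem mem_fam {k : ℕ} {Z : Fin k → Submodule ℂ (L2 I)} {f : L2 (Fin k × I)} :
    f ∈ fam Z ↔ ∀ j, slice j f ∈ Z j := by
  unfold fam
  rw [Submodule.mem_iInf]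
  rfl

theorem isClosed_fam {k : ℕ} {Z : Fin k → Submodule ℂ (L2 I)}
    (hZ : ∀ j, IsClosed (Z j : Set (L2 I))) : IsClosed (fam Z : Set (L2 (Fin k × I))) := by
  have : (fam Z : Set (L2 (Fin k × I))) = ⋂ j, (slice j : L2 (Fin k × I) →L[ℂ] L2 I) ⁻¹' (Z j) := by
    ext f
    rw [SetLike.mem_coe, mem_fam, Set.mem_iInter]
    rfl
  rw [this]
  exact isClosed_iInter fun j => (hZ j).preimage (slice j : L2 (Fin k × I) →L[ℂ] L2 I).continuous

theorem inv_fam {k : ℕ} {Z : Fin k → Submodule ℂ (L2 I)} (iZ : ∀ j, D.Inv (Z j)) :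
    (D.pow k).Inv (fam Z) := by
  intro q f
  rw [mem_fam, mem_fam]
  refine forall_congr' fun j => ?_
  rw [eqv_slice D j q f]
  exact iZ j q _

theorem dm_fam {k : ℕ} {Z : Fin k → Submodule ℂ (L2 I)} (hZ : ∀ j, IsClosed (Z j : Set (L2 I))) :
    (D.pow k).dm (fam Z) = ∑ j, D.dm (Z j) := by
  have hZc : ∀ j, (Z j).topologicalClosure = Z j := fun j =>
    IsClosed.submodule_topologicalClosure_eq (hZ j)
  have hFc : (fam Z).topologicalClosure = fam Z :=
    IsClosed.submodule_topologicalClosure_eq (isClosed_fam hZ)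
  unfold Dm.dm
  show ∑ p ∈ Finset.univ ×ˢ D.F, D.c p.2 * _ = _
  rw [Finset.sum_product]
  refine Finset.sum_congr rfl fun j _ => Finset.sum_congr rfl fun s _ => ?_
  show D.c s * ‖(fam Z).topologicalClosure.starProjection (ee (j, s))‖ ^ 2 =
    D.c s * ‖(Z j).topologicalClosure.starProjection (ee s)‖ ^ 2
  congr 1
  have h1 : (fam Z).topologicalClosure.starProjection (ee (j, s)) =
      emb j ((Z j).topologicalClosure.starProjection (ee s)) := by
    refine Submodule.eq_starProjection_of_mem_orthogonal ?_ ?_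
    · refine hFc.ge (mem_fam.2 fun j' => ?_)
      rw [slice_emb]
      split_ifs with hj
      · subst hj
        exact (hZc j').le (Submodule.starProjection_apply_mem _ _)
      · exact (Z j').zero_mem
    · rw [hFc, Submodule.mem_orthogonal]
      intro f hf
      rw [inner_slices]
      refine Finset.sum_eq_zero fun j' _ => ?_
      rw [map_sub, ← emb_ee, slice_emb, slice_emb]
      split_ifs with hj
      · subst hj
        have h2 := Submodule.sub_starProjection_mem_orthogonal (K := (Z j').topologicalClosure)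
          (ee s)
        exact (Submodule.mem_orthogonal _ _).1 h2 _ ((hZc j').ge (mem_fam.1 hf j'))
      · rw [sub_zero, inner_zero_right]
  rw [h1, norm_emb]

/-- **Semicontinuity.** -/
theorem semicont {k : ℕ} (T : Fin k → ℂ) (hT : Function.Injective T)
    (Z : Fin k → Submodule ℂ (L2 I)) (hZ : ∀ j, IsClosed (Z j : Set (L2 I)))
    (iZ : ∀ j, D.Inv (Z j)) (Z0 : Submodule ℂ (L2 I))
    (h : ∀ a : ℕ, a + 2 < k → ∀ f : Fin k → L2 I, (∀ j, f j ∈ Z j) →
      (∀ b, a < b → b < k → ∑ j, T j ^ b • f j = 0) → ∑ j, T j ^ a • f j ∈ Z0) :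
    ∑ j, D.dm (Z j) ≤ 2 * D.dm ⊤ + k * D.dm Z0 := by
  let G : ℕ → L2 (Fin k × I) →L[ℂ] L2 I := fun a => ∑ j, T j ^ a • slice j
  have hG : ∀ a f, G a f = ∑ j, T j ^ a • slice j f := by
    intro a f
    show (∑ j, T j ^ a • slice j) f = _
    rw [_root_.sum_apply]
    rfl
  have eG : ∀ a, Eqv (D.pow k) D (G a) := by
    intro a q f
    rw [hG, hG, map_sum]
    refine Finset.sum_congr rfl fun j _ => ?_
    rw [eqv_slice D j q f, map_smul]
  let P : ℕ → Submodule ℂ (L2 (Fin k × I)) := fun m =>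
    fam Z ⊓ ⨅ b : {b : ℕ // m ≤ b ∧ b < k}, LinearMap.ker (G b : L2 (Fin k × I) →ₗ[ℂ] L2 I)
  have mP : ∀ m f, f ∈ P m ↔ (∀ j, slice j f ∈ Z j) ∧ ∀ b, m ≤ b → b < k → G b f = 0 := by
    intro m f
    show f ∈ fam Z ⊓ _ ↔ _
    rw [Submodule.mem_inf, mem_fam, Submodule.mem_iInf]
    refine and_congr_right fun _ => ?_
    constructor
    · intro h1 b hb hb'
      exact h1 ⟨b, hb, hb'⟩
    · intro h1 b
      exact h1 b.1 b.2.1 b.2.2
  have cP : ∀ m, IsClosed (P m : Set (L2 (Fin k × I))) := by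
    intro m
    show IsClosed ((fam Z ⊓ _ : Submodule ℂ (L2 (Fin k × I))) : Set (L2 (Fin k × I)))
    rw [Submodule.coe_inf, Submodule.coe_iInf]
    exact (isClosed_fam hZ).inter (isClosed_iInter fun b => (G b).isClosed_ker)
  have iP : ∀ m, (D.pow k).Inv (P m) := by
    intro m q f
    rw [mP, mP]
    refine and_congr ?_ ?_
    · have := inv_fam D iZ q f
      rwa [mem_fam, mem_fam] at this
    · refine forall_congr' fun b => forall_congr' fun _ => forall_congr' fun _ => ?_
      rw [eG b q f, map_eq_zero_iff _ (D.U q).injective]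
  have hstep : ∀ m, m < k → (D.pow k).dm (P (m + 1)) ≤
      (D.pow k).dm (P m) + (if m + 2 < k then D.dm Z0 else D.dm ⊤) := by
    intro m hm
    have h1 := dm_rank (D.pow k) D (cP (m + 1)) (iP (m + 1)) (G m) (eG m)
    have h2 : P (m + 1) ⊓ LinearMap.ker (G m : L2 (Fin k × I) →ₗ[ℂ] L2 I) = P m := by
      ext f
      rw [Submodule.mem_inf, mP, mP, LinearMap.mem_ker]
      constructor
      · rintro ⟨⟨h3, h4⟩, h5⟩
        refine ⟨h3, fun b hb hb' => ?_⟩
        rcases hb.eq_or_lt with rfl | hlt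
        · exact h5
        · exact h4 b hlt hb'
      · rintro ⟨h3, h4⟩
        exact ⟨⟨h3, fun b hb hb' => h4 b (by omega) hb'⟩, h4 m le_rfl hm⟩
    rw [h2] at h1
    rw [h1]
    refine add_le_add le_rfl ?_
    split_ifs with hk
    · refine dm_mono D ?_
      rintro y ⟨f, hf, rfl⟩
      have hf' := (mP _ _).1 hf
      show G m f ∈ Z0
      rw [hG]
      refine h m hk (fun j => slice j f) hf'.1 fun b hb hb' => ?_
      rw [← hG]
      exact hf'.2 b hb hb'
    · exact dm_mono D le_top
  have hP0 : P 0 = ⊥ := by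
    rw [eq_bot_iff]
    intro f hf
    have hf' := (mP _ _).1 hf
    rw [Submodule.mem_bot]
    apply slice_ext
    intro j
    rw [map_zero]
    ext s
    have h1 : ∀ b : Fin k, ∑ j, (Matrix.vandermonde T) j b * (slice j f s) = 0 := by
      intro b
      have h2 := hf'.2 b (Nat.zero_le _) b.2
      rw [hG] at h2
      have h3 := congrArg (fun g : L2 I => g s) h2
      have h4 : (∑ j, T j ^ (b : ℕ) • slice j f : L2 I) s = ∑ j, T j ^ (b : ℕ) * slice j f s := by
        rw [← inner_ee, inner_sum]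
        refine Finset.sum_congr rfl fun j _ => ?_
        rw [inner_ee]
        rfl
      have h5 : (∑ j, T j ^ (b : ℕ) • slice j f : L2 I) s = 0 := h3
      rw [h4] at h5
      simpa [Matrix.vandermonde_apply] using h5
    have h2 : Matrix.vecMul (fun j => slice j f s) (Matrix.vandermonde T) = 0 := by
      funext b
      rw [Matrix.vecMul, dotProduct]
      rw [Pi.zero_apply, ← h1 b]
      exact Finset.sum_congr rfl fun j _ => mul_comm _ _
    have h3 := Matrix.eq_zero_of_vecMul_eq_zero (Matrix.det_vandermonde_ne_zero_iff.2 hT) h2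
    exact congrFun h3 j
  have hbound : ∀ m, m ≤ k → (D.pow k).dm (P m) ≤
      ∑ a ∈ range m, (if a + 2 < k then D.dm Z0 else D.dm ⊤) := by
    intro m
    induction m with
    | zero =>
      intro _
      rw [hP0, dm_bot, Finset.range_zero, Finset.sum_empty]
    | succ m ih =>
      intro hm
      rw [Finset.sum_range_succ]
      exact (hstep m hm).trans (add_le_add (ih (by omega)) le_rfl)
  have hPk : P k = fam Z := by
    ext f
    rw [mP, mem_fam]
    refine ⟨fun h1 => h1.1, fun h1 => ⟨h1, fun b hb hb' => absurd hb' (by omega)⟩⟩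
  rw [← dm_fam D hZ, ← hPk]
  refine (hbound k le_rfl).trans ?_
  have n0 := dm_nonneg D Z0
  have n1 := dm_nonneg D ⊤
  have h5 : ∑ a ∈ range k, (if a + 2 < k then D.dm Z0 else D.dm ⊤) ≤
      ∑ a ∈ range k, (D.dm Z0 + (if a + 2 < k then 0 else D.dm ⊤)) := by
    refine Finset.sum_le_sum fun a _ => ?_
    split_ifs <;> linarith
  refine h5.trans ?_
  have h6 : ∑ a ∈ range k, (if a + 2 < k then (0 : ℝ) else D.dm ⊤) ≤ 2 * D.dm ⊤ := by
    have h7 : ∑ a ∈ range k, (if a + 2 < k then (0 : ℝ) else D.dm ⊤) =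
        ((range k).filter fun a => ¬ a + 2 < k).card * D.dm ⊤ := by
      rw [← nsmul_eq_mul, ← Finset.sum_const, Finset.sum_filter]
      refine Finset.sum_congr rfl fun a _ => ?_
      by_cases ha : a + 2 < k
      · rw [if_pos ha, if_neg (not_not.2 ha)]
      · rw [if_neg ha, if_pos ha]
    have h8 : ((range k).filter fun a => ¬ a + 2 < k).card ≤ 2 := by
      have h9 : (range k).filter (fun a => ¬ a + 2 < k) ⊆ {k - 1, k - 2} := by
        intro a ha
        rw [Finset.mem_filter, Finset.mem_range] at ha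
        rw [Finset.mem_insert, Finset.mem_singleton]
        omega
      exact (Finset.card_le_card h9).trans Finset.card_le_two
    rw [h7]
    have h10 : (((range k).filter fun a => ¬ a + 2 < k).card : ℝ) ≤ 2 := by exact_mod_cast h8
    exact mul_le_mul_of_nonneg_right h10 n1
  rw [Finset.sum_add_distrib, Finset.sum_const, card_range, nsmul_eq_mul]
  linarith

end Pool.Agent.H19.LI
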